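import Mathlib

/-!
# The ring of integers of the `d`-th cyclotomic field, `d` prime

Ring homomorphisms out of `Z[zeta_d]`, the automorphisms `sigma_t`, and complex conjugation.
-/

set_option autoImplicit false

namespace Pool.Agent.H26.NL

open NumberField Polynomial

noncomputable section

variable (d : ℕ) [hd : Fact d.Prime] (K : Type) [Field K] [NumberField K]
  [IsCyclotomicExtension {d} ℚ K]

lemma exists_field : ∃ (K : Type) (_ : Field K) (_ : NumberField K),
    IsCyclotomicExtension {d} ℚ K := by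
  have h := CyclotomicField.isCyclotomicExtension d ℚ
  refine ⟨CyclotomicField d ℚ, inferInstance, inferInstance, ?_⟩
  convert h
  · rfl
  · exact Subsingleton.elim _ _

lemma zetaK_spec : IsPrimitiveRoot (IsCyclotomicExtension.zeta d ℚ K) d :=
  IsCyclotomicExtension.zeta_spec d ℚ K

/-- A primitive `d`-th root of unity. -/
def zt : 𝓞 K := (zetaK_spec d K).toInteger

lemma zt_spec : IsPrimitiveRoot (zt d K) d := (zetaK_spec d K).toInteger_isPrimitiveRoot

/-- The integral power basis. -/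
def pb : PowerBasis ℤ (𝓞 K) := (zetaK_spec d K).integralPowerBasis

lemma pb_gen : (pb d K).gen = zt d K := (zetaK_spec d K).integralPowerBasis_gen

lemma minpoly_zt : minpoly ℤ (zt d K) = cyclotomic d ℤ := by
  rw [cyclotomic_eq_minpoly (zetaK_spec d K) (Nat.Prime.pos Fact.out)]
  have : algebraMap (𝓞 K) K (zt d K) = IsCyclotomicExtension.zeta d ℚ K := rfl
  rw [← this]
  exact (minpoly.algebraMap_eq (FaithfulSMul.algebraMap_injective (𝓞 K) K) _).symm

variable {d K}

/-- The ring homomorphism sending `zeta` to `y`. -/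
def lft {R : Type*} [CommRing R] (y : R) (hy : ∑ i ∈ Finset.range d, y ^ i = 0) :
    𝓞 K →+* R :=
  ((pb d K).lift y (by
    rw [pb_gen, minpoly_zt, cyclotomic_prime]
    simpa using hy)).toRingHom

lemma lft_zt {R : Type*} [CommRing R] (y : R) (hy : ∑ i ∈ Finset.range d, y ^ i = 0) :
    lft y hy (zt d K) = y := by
  have := (pb d K).lift_gen y (by
    rw [pb_gen, minpoly_zt, cyclotomic_prime]
    simpa using hy)
  calc lft y hy (zt d K) = lft y hy (pb d K).gen := by rw [pb_gen]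
    _ = y := this

lemma hom_ext {R : Type*} [CommRing R] {f g : 𝓞 K →+* R} (h : f (zt d K) = g (zt d K)) :
    f = g := by
  have : f.toIntAlgHom = g.toIntAlgHom := by
    apply (pb d K).algHom_ext
    rw [pb_gen]
    exact h
  ext x
  exact DFunLike.congr_fun this x

lemma exists_poly (x : 𝓞 K) : ∃ f : ℤ[X], x = aeval (zt d K) f := by
  have := (pb d K).exists_eq_aeval' x
  rwa [pb_gen] at this

omit hd in
/-- The geometric sum vanishes at a nontrivial `d`-th root of unity. -/
lemma geom_zero {R : Type*} [CommRing R] [IsDomain R] {y : R} (h1 : y ^ d = 1) (h2 : y ≠ 1) :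
    ∑ i ∈ Finset.range d, y ^ i = 0 := by
  have := mul_geom_sum y d
  rw [h1, sub_self] at this
  rcases mul_eq_zero.mp this with h | h
  · exact absurd (sub_eq_zero.mp h) h2
  · exact h

lemma unit_val_ne (t : (ZMod d)ˣ) : ¬ d ∣ (t : ZMod d).val := by
  intro h
  have h0 : (t : ZMod d).val = 0 := by
    have := ZMod.val_lt (t : ZMod d)
    exact Nat.eq_zero_of_dvd_of_lt h this
  have : (t : ZMod d) = 0 := (ZMod.val_eq_zero _).mp h0
  exact t.ne_zero this

lemma zt_pow_ne (t : (ZMod d)ˣ) : (zt d K) ^ (t : ZMod d).val ≠ 1 := by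
  intro h
  exact unit_val_ne t ((zt_spec d K).dvd_of_pow_eq_one _ h)

lemma zt_pow_pow (n : ℕ) : (zt d K ^ n) ^ d = 1 := by
  rw [← pow_mul, mul_comm, pow_mul, (zt_spec d K).pow_eq_one, one_pow]

/-- The automorphism `zeta -> zeta^t`. -/
def sg (t : (ZMod d)ˣ) : 𝓞 K →+* 𝓞 K :=
  lft (zt d K ^ (t : ZMod d).val) (geom_zero (zt_pow_pow _) (zt_pow_ne t))

lemma sg_zt (t : (ZMod d)ˣ) : sg t (zt d K) = zt d K ^ (t : ZMod d).val := lft_zt _ _

lemma pow_val_eq {M : Type*} [Monoid M] {y : M} (h : y ^ d = 1) (n : ℕ) :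
    y ^ ((n : ZMod d)).val = y ^ n := by
  rw [ZMod.val_natCast]
  conv_rhs => rw [← Nat.mod_add_div n d]
  rw [pow_add, pow_mul, h, one_pow, mul_one]

lemma pow_val_mul {M : Type*} [Monoid M] {y : M} (h : y ^ d = 1) (s t : ZMod d) :
    y ^ (s * t).val = (y ^ s.val) ^ t.val := by
  rw [← pow_mul, ← pow_val_eq h (s.val * t.val)]
  congr 2
  simp

/-- Action on arbitrary `d`-th roots of unity. -/
lemma sg_root (t : (ZMod d)ˣ) {x : 𝓞 K} (hx : x ^ d = 1) : sg t x = x ^ (t : ZMod d).val := by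
  obtain ⟨i, -, rfl⟩ := (zt_spec d K).eq_pow_of_pow_eq_one hx
  rw [map_pow, sg_zt, ← pow_mul, ← pow_mul, mul_comm]

lemma sg_mul (s t : (ZMod d)ˣ) (x : 𝓞 K) : sg (s * t) x = sg s (sg t x) := by
  have : sg (K := K) (s * t) = (sg s).comp (sg t) := by
    apply hom_ext (d := d)
    rw [RingHom.comp_apply, sg_zt, sg_zt, map_pow, sg_zt, Units.val_mul,
      pow_val_mul (zt_spec d K).pow_eq_one]
  rw [this]; rfl

lemma sg_one (x : 𝓞 K) : sg (1 : (ZMod d)ˣ) x = x := by
  have : sg (K := K) (1 : (ZMod d)ˣ) = RingHom.id _ := by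
    apply hom_ext (d := d)
    rw [sg_zt, RingHom.id_apply, Units.val_one]
    have : (1 : ZMod d).val = 1 := by
      have : Fact (1 < d) := ⟨hd.out.one_lt⟩
      exact ZMod.val_one d
    rw [this, pow_one]
  rw [this]; rfl

lemma sg_inj (t : (ZMod d)ˣ) : Function.Injective (sg (K := K) t) := by
  intro x y h
  have : sg t⁻¹ (sg t x) = sg t⁻¹ (sg t y) := by rw [h]
  rwa [← sg_mul, ← sg_mul, inv_mul_cancel, sg_one, sg_one] at this

/-- Complex conjugation is `sigma_{-1}` under every embedding. -/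
lemma conj_emb (f : 𝓞 K →+* ℂ) (x : 𝓞 K) :
    (starRingEnd ℂ) (f x) = f (sg (-1 : (ZMod d)ˣ) x) := by
  have : (starRingEnd ℂ).comp f = f.comp (sg (-1 : (ZMod d)ˣ)) := by
    apply hom_ext (d := d)
    rw [RingHom.comp_apply, RingHom.comp_apply, sg_zt, map_pow]
    have h1 : f (zt d K) ^ d = 1 := by
      rw [← map_pow, (zt_spec d K).pow_eq_one, map_one]
    have hn : ‖f (zt d K)‖ = 1 := by
      apply Complex.norm_eq_one_of_pow_eq_one h1 (NeZero.ne d)
    have h2 : f (zt d K) * f (zt d K) ^ ((-1 : (ZMod d)ˣ) : ZMod d).val = 1 := by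
      have : f (zt d K) * f (zt d K) ^ ((-1 : (ZMod d)ˣ) : ZMod d).val
          = f (zt d K) ^ (((1 + ((-1 : (ZMod d)ˣ) : ZMod d).val : ℕ) : ZMod d)).val := by
        rw [pow_val_eq h1, pow_add, pow_one]
      rw [this]
      simp
    have hz : f (zt d K) ≠ 0 := by
      intro h; rw [h] at hn; simp at hn
    have h3 : f (zt d K) * (starRingEnd ℂ) (f (zt d K)) = 1 := by
      rw [Complex.mul_conj, Complex.normSq_eq_norm_sq, hn]; simp
    exact mul_left_cancel₀ hz (h3.trans h2.symm)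
  exact DFunLike.congr_fun this x

lemma norm_sq_emb (f : 𝓞 K →+* ℂ) (x : 𝓞 K) :
    ((‖f x‖ ^ 2 : ℝ) : ℂ) = f (x * sg (-1 : (ZMod d)ˣ) x) := by
  rw [map_mul, ← conj_emb f x, Complex.mul_conj, Complex.normSq_eq_norm_sq]

end

end Pool.Agent.H26.NL
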