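import Pool.Agent.H26.NL.Pair

/-!
# The class group of the cyclotomic field
-/

set_option autoImplicit false

namespace Pool.Agent.H26.NL

open NumberField Polynomial nonZeroDivisors

noncomputable section

variable {d : ℕ} [hd : Fact d.Prime] {K : Type} [Field K] [NumberField K]
  [IsCyclotomicExtension {d} ℚ K]

lemma sup_pow_le {R : Type*} [CommRing R] (I J : Ideal R) (n : ℕ) :
    (I ⊔ J) ^ n ≤ I ^ n ⊔ J := by
  induction n with
  | zero => rw [pow_zero, pow_zero]; exact le_sup_left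
  | succ n ih =>
    rw [pow_succ, pow_succ]
    calc (I ⊔ J) ^ n * (I ⊔ J) ≤ (I ^ n ⊔ J) * (I ⊔ J) := Ideal.mul_mono ih le_rfl
      _ = (I ^ n * I ⊔ J * I) ⊔ (I ^ n * J ⊔ J * J) := by
          rw [Ideal.mul_sup, Ideal.sup_mul, Ideal.sup_mul]
      _ ≤ I ^ n * I ⊔ J := by
          refine sup_le (sup_le le_sup_left ?_) (sup_le ?_ ?_)
          · exact le_trans Ideal.mul_le_left le_sup_right
          · exact le_trans Ideal.mul_le_right le_sup_right
          · exact le_trans Ideal.mul_le_right le_sup_right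

lemma Sol.pr_le {p k q : ℕ} (S : Sol d p k q) [hp : Fact p.Prime] (t : (ZMod d)ˣ) :
    S.pr K t ≤ Ideal.span {(p : 𝓞 K)} ⊔ Ideal.span {sg t⁻¹ (PP d K q)} := by
  intro x hx
  rw [S.mem_pr] at hx
  obtain ⟨n, hn⟩ := S.exists_int (sg t x)
  have h1 : (n : ZMod p) = 0 := by
    obtain ⟨y, hy⟩ := hn
    have := congrArg (S.phi (K := K)) hy
    rw [map_sub, map_mul, S.phi_PP, zero_mul, map_intCast, hx, zero_sub] at this
    exact neg_eq_zero.mp this
  have h2 : (p : ℤ) ∣ n := (ZMod.intCast_zmod_eq_zero_iff_dvd n p).mp h1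
  obtain ⟨m, rfl⟩ := h2
  have h3 := map_dvd (sg (K := K) t⁻¹) hn
  rw [map_sub, ← sg_mul, inv_mul_cancel, sg_one, map_intCast] at h3
  have h4 : x = (((p : ℤ) * m : ℤ) : 𝓞 K) + (x - (((p : ℤ) * m : ℤ) : 𝓞 K)) := by ring
  rw [h4]
  refine Ideal.add_mem _ (Ideal.mem_sup_left ?_) (Ideal.mem_sup_right ?_)
  · rw [Ideal.mem_span_singleton]
    push_cast
    exact dvd_mul_right _ _
  · rw [Ideal.mem_span_singleton]; exact h3

lemma Sol.pr_pow_le {p k q : ℕ} (S : Sol d p k q) [hp : Fact p.Prime] (t : (ZMod d)ˣ) :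
    (S.pr K t) ^ k ≤ Ideal.span {sg t⁻¹ (PP d K q)} := by
  refine (Ideal.pow_right_mono (S.pr_le t) k).trans ((sup_pow_le _ _ k).trans ?_)
  refine sup_le ?_ le_rfl
  rw [Ideal.span_singleton_pow, Ideal.span_singleton_le_span_singleton]
  exact S.dvd_pk t⁻¹

lemma Sol.nm_PP {p k q : ℕ} (S : Sol d p k q) [hp : Fact p.Prime] (t : (ZMod d)ˣ) :
    nm (sg t (PP d K q)) = p ^ k := by
  have hdvd : ∀ t : (ZMod d)ˣ, nm (sg t (PP d K q)) ∣ p ^ k := by
    intro t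
    have h1 := Ideal.absNorm_dvd_absNorm_of_le (S.pr_pow_le (K := K) t⁻¹)
    rwa [nm_span, map_pow, S.absNorm_pr, inv_inv] at h1
  have hprod : ∏ t : (ZMod d)ˣ, nm (sg t (PP d K q)) = ∏ _t : (ZMod d)ˣ, p ^ k := by
    have h1 := congrArg nm (S.prod_eq (K := K))
    have h2 : nm (∏ t : (ZMod d)ˣ, sg t (PP d K q)) = ∏ t : (ZMod d)ˣ, nm (sg t (PP d K q)) := by
      rw [← nm_span, ← Ideal.prod_span_singleton, map_prod]
      exact Finset.prod_congr rfl fun t _ => nm_span _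
    rw [← h2, h1, nm_pow, ← nm_span, Ideal.absNorm_span_natCast, finrank_O d K,
      Finset.prod_const, Finset.card_univ, ZMod.card_units, ← pow_mul, ← pow_mul, mul_comm]
  by_contra hne
  have hlt : ∏ t : (ZMod d)ˣ, nm (sg t (PP d K q)) < ∏ _t : (ZMod d)ˣ, p ^ k := by
    refine Finset.prod_lt_prod ?_ ?_ ?_
    · intro i _
      exact Nat.pos_of_dvd_of_pos (hdvd i) (pow_pos S.hp.pos k)
    · intro i _
      exact Nat.le_of_dvd (pow_pos S.hp.pos k) (hdvd i)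
    · exact ⟨t, Finset.mem_univ _,
        lt_of_le_of_ne (Nat.le_of_dvd (pow_pos S.hp.pos k) (hdvd t)) hne⟩
  exact absurd hprod hlt.ne

lemma Sol.pr_pow {p k q : ℕ} (S : Sol d p k q) [hp : Fact p.Prime] (t : (ZMod d)ˣ) :
    (S.pr K t) ^ k = Ideal.span {sg t⁻¹ (PP d K q)} := by
  obtain ⟨J, hJ⟩ := Ideal.dvd_iff_le.mpr (S.pr_pow_le (K := K) t)
  have h1 := congrArg Ideal.absNorm hJ
  rw [map_pow, map_mul, S.absNorm_pr, nm_span, S.nm_PP] at h1
  have h2 : Ideal.absNorm J = 1 :=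
    Nat.eq_of_mul_eq_mul_left (pow_pos S.hp.pos k) (by rw [← h1, mul_one])
  rw [Ideal.absNorm_eq_one_iff] at h2
  rw [hJ, h2, Ideal.mul_top]

lemma Sol.pr_ne {p k q : ℕ} (S : Sol d p k q) [hp : Fact p.Prime] (t : (ZMod d)ˣ) :
    S.pr K t ≠ ⊥ := by
  intro h
  have := S.absNorm_pr (K := K) t
  rw [h, Ideal.absNorm_bot] at this
  exact S.hp.ne_zero this.symm

lemma Sol.pr_pow_ne {p k q : ℕ} (S : Sol d p k q) [hp : Fact p.Prime] (t : (ZMod d)ˣ) (m : ℕ) :
    (S.pr K t) ^ m ∈ (Ideal (𝓞 K))⁰ :=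
  mem_nonZeroDivisors_of_ne_zero (pow_ne_zero m (S.pr_ne t))

/-- The class of `p_t^m`. -/
def Sol.cl {p k q : ℕ} (S : Sol d p k q) [hp : Fact p.Prime] (K : Type) [Field K] [NumberField K]
    [IsCyclotomicExtension {d} ℚ K] (m : ℕ) (t : (ZMod d)ˣ) : ClassGroup (𝓞 K) :=
  ClassGroup.mk0 ⟨(S.pr K t) ^ m, S.pr_pow_ne t m⟩

lemma Sol.cl_pow {p k q κ m : ℕ} (S : Sol d p k q) [hp : Fact p.Prime] (hk : k = κ * m)
    (t : (ZMod d)ˣ) : (S.cl K m t) ^ κ = 1 := by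
  have h1 : (S.pr K t) ^ k ∈ (Ideal (𝓞 K))⁰ := S.pr_pow_ne t k
  have h2 : (S.cl K m t) ^ κ = ClassGroup.mk0 ⟨(S.pr K t) ^ k, h1⟩ := by
    rw [Sol.cl, ← map_pow]
    congr 1
    apply Subtype.ext
    have hmk : m * κ = k := by rw [hk, mul_comm]
    rw [SubmonoidClass.coe_pow, ← pow_mul, hmk]
  rw [h2, ClassGroup.mk0_eq_one_iff, S.pr_pow]
  exact ⟨⟨_, rfl⟩⟩

/-- The counting step. -/
lemma Sol.count {p k q κ m : ℕ} (S : Sol d p k q) [hp : Fact p.Prime] (hk : k = κ * m)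
    (hH : Nat.card {c : ClassGroup (𝓞 K) // c ^ κ = 1} < d) :
    (∃ t : (ZMod d)ˣ, S.cl K m t = 1) ∨
      ∃ s t : (ZMod d)ˣ, s ≠ t ∧ S.cl K m s = S.cl K m t := by
  by_contra hcon
  push Not at hcon
  obtain ⟨h1, h2⟩ := hcon
  let F : Option (ZMod d)ˣ → {c : ClassGroup (𝓞 K) // c ^ κ = 1} := fun o =>
    match o with
    | none => ⟨1, one_pow κ⟩
    | some t => ⟨S.cl K m t, S.cl_pow hk t⟩
  have hF : Function.Injective F := by
    intro a b hab
    match a, b with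
    | none, none => rfl
    | none, some t =>
      exact absurd (congrArg Subtype.val hab).symm (h1 t)
    | some t, none =>
      exact absurd (congrArg Subtype.val hab) (h1 t)
    | some s, some t =>
      by_contra hst
      exact h2 s t (fun h => hst (by rw [h])) (congrArg Subtype.val hab)
  have h3 := Nat.card_le_card_of_injective F hF
  rw [Nat.card_eq_fintype_card, Fintype.card_option, ZMod.card_units] at h3
  have := hd.out.two_le
  omega

/-- Units divided by their conjugates are `k`-th powers of roots of unity. -/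
lemma unit_root {κ : ℕ} (hodd : Odd d) (hκ : Nat.Coprime κ (2 * d)) {u u' : 𝓞 K}
    (huu : u * u' = 1) : ∃ η : 𝓞 K, η * sg (-1 : (ZMod d)ˣ) η = 1 ∧
      η ^ κ = u * sg (-1 : (ZMod d)ˣ) u' := by
  set c : 𝓞 K →+* 𝓞 K := sg (-1 : (ZMod d)ˣ) with hc
  have hcc : ∀ y : 𝓞 K, c (c y) = y := by
    intro y
    rw [hc, ← sg_mul]
    have : (-1 : (ZMod d)ˣ) * -1 = 1 := by simp
    rw [this, sg_one]
  have hcu : c u * c u' = 1 := by rw [← map_mul, huu, map_one]
  have hv : (u * c u') * c (u * c u') = 1 := by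
    rw [map_mul, hcc]
    linear_combination (c u * c u') * huu + hcu
  have hroot := kronecker hodd hv
  obtain ⟨m, -, hm⟩ := Nat.exists_mul_mod_eq_one_of_coprime hκ (by
    have := hd.out.two_le; omega)
  refine ⟨(u * c u') ^ m, ?_, ?_⟩
  · rw [map_pow, ← mul_pow, hv, one_pow]
  · rw [← pow_mul, mul_comm m κ, ← Nat.div_add_mod (κ * m) (2 * d), hm, pow_add, pow_mul, hroot,
      one_pow, one_mul, pow_one]

/-- `sigma_t P = 1 mod q`. -/
lemma PP_sub_one (q : ℕ) (t : (ZMod d)ˣ) : (q : 𝓞 K) ∣ sg t (PP d K q) - 1 := by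
  rw [sg_PP]
  exact ⟨-zt d K ^ (t : ZMod d).val, by ring⟩

lemma mul_sub_one {q x y : 𝓞 K} (hx : q ∣ x - 1) (hy : q ∣ y - 1) : q ∣ x * y - 1 := by
  have : x * y - 1 = (x - 1) * y + (y - 1) := by ring
  rw [this]
  exact dvd_add (dvd_mul_of_dvd_left hx _) hy

lemma pow_sub_one {q x : 𝓞 K} (hx : q ∣ x - 1) (n : ℕ) : q ∣ x ^ n - 1 := by
  have := sub_dvd_pow_sub_pow x 1 n
  rw [one_pow] at this
  exact hx.trans this

lemma coprime_of_sub_one {q x : 𝓞 K} (hx : q ∣ x - 1) : IsCoprime q x := by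
  obtain ⟨y, hy⟩ := hx
  exact ⟨-y, 1, by linear_combination hy⟩

end

end Pool.Agent.H26.NL
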