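import Pool.Agent.H26.NL.Cls

/-!
# The inequalities that follow from a relation in the class group
-/

set_option autoImplicit false

namespace Pool.Agent.H26.NL

open NumberField Polynomial nonZeroDivisors

noncomputable section

variable {d : ℕ} [hd : Fact d.Prime] {K : Type} [Field K] [NumberField K]
  [IsCyclotomicExtension {d} ℚ K]

/-- `rho` is an allowed automorphism. -/
def Adm (r : ℕ) (ρ : (ZMod d)ˣ) : Prop := (ρ : ZMod d) = (r : ZMod d) ∨ r = d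

/-- The data of a pair. -/
structure PairD (r q κ : ℕ) (X Y u A B : 𝓞 K) : Prop where
  hu : IsUnit u
  hX : X ^ κ = u * A
  hY : Y ^ κ = u * B
  hA : (q : 𝓞 K) ∣ A - 1
  hB : (q : 𝓞 K) ∣ B - 1
  hn : X * sg (-1 : (ZMod d)ˣ) X = Y * sg (-1 : (ZMod d)ˣ) Y

lemma PairD.sub {r q κ : ℕ} {X Y u A B : 𝓞 K} (h : PairD (d := d) r q κ X Y u A B) :
    (q : 𝓞 K) ∣ X ^ κ - Y ^ κ := by
  rw [h.hX, h.hY]
  have : u * A - u * B = u * ((A - 1) - (B - 1)) := by ring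
  rw [this]
  exact dvd_mul_of_dvd_right (dvd_sub h.hA h.hB) _

lemma PairD.cX {r e q κ : ℕ} (hκ : 1 ≤ κ) (D : Dat r e κ q) {X Y u A B : 𝓞 K}
    (h : PairD (d := d) r q κ X Y u A B) : IsCoprime (r : 𝓞 K) X := by
  have h1 : IsCoprime (q : 𝓞 K) A := coprime_of_sub_one h.hA
  have h2 : IsCoprime (r : 𝓞 K) A := IsCoprime.of_isCoprime_of_dvd_left h1 (r_dvd_q D)
  have h3 : IsCoprime (r : 𝓞 K) (X ^ κ) := by
    rw [h.hX]
    exact (isCoprime_mul_unit_left_right h.hu _ _).mpr h2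
  exact (IsCoprime.pow_right_iff (by omega)).mp h3

lemma PairD.cY {r e q κ : ℕ} (hκ : 1 ≤ κ) (D : Dat r e κ q) {X Y u A B : 𝓞 K}
    (h : PairD (d := d) r q κ X Y u A B) : IsCoprime (r : 𝓞 K) Y := by
  have h1 : IsCoprime (q : 𝓞 K) B := coprime_of_sub_one h.hB
  have h2 : IsCoprime (r : 𝓞 K) B := IsCoprime.of_isCoprime_of_dvd_left h1 (r_dvd_q D)
  have h3 : IsCoprime (r : 𝓞 K) (Y ^ κ) := by
    rw [h.hY]
    exact (isCoprime_mul_unit_left_right h.hu _ _).mpr h2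
  exact (IsCoprime.pow_right_iff (by omega)).mp h3

lemma PairD.rel {r e q κ : ℕ} (hκ : 1 ≤ κ) (D : Dat r e κ q) {X Y u A B : 𝓞 K}
    (h : PairD (d := d) r q κ X Y u A B) {ρ : (ZMod d)ˣ} (hρ : Adm r ρ) : Rel q X Y ρ := by
  rcases hρ with h1 | h1
  · exact Rel.frob hκ D h.sub (h.cX hκ D) (h.cY hκ D) ρ h1
  · exact Rel.frob_d hκ D h1 h.sub (h.cX hκ D) (h.cY hκ D) ρ

/-- The odd case. -/
lemma PairD.ineq {r e q κ : ℕ} (hκ : 1 ≤ κ) (D : Dat r e κ q) {X Y u A B : 𝓞 K}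
    (h : PairD (d := d) r q κ X Y u A B) {ρ : (ZMod d)ˣ} (hρ : Adm r ρ) {I I' : Ideal (𝓞 K)}
    (h1 : X ∈ I) (h2 : Y ∈ I) (h3 : sg ρ X ∈ I') (h4 : sg ρ Y ∈ I')
    (hI : IsCoprime (Ideal.span {(q : 𝓞 K)}) I) (hI' : IsCoprime (Ideal.span {(q : 𝓞 K)}) I')
    (h0 : sg ρ X * Y - X * sg ρ Y ≠ 0) :
    q ^ (d - 1) * (Ideal.absNorm I' * Ideal.absNorm I) ≤ 2 ^ (d - 1) * (nm X * nm (sg ρ X)) := by
  have hq := h.rel hκ D hρ
  have hm : sg ρ X * Y - X * sg ρ Y ∈ I' * I := by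
    refine Ideal.sub_mem _ (Ideal.mul_mem_mul h3 h2) ?_
    rw [mul_comm X]
    exact Ideal.mul_mem_mul h4 h1
  have h5 := le_nm (d := d) h0 hq hm (hI'.mul_right hI)
  rw [map_mul] at h5
  refine h5.trans (nm_le_two d _ _ _ fun f => ?_)
  rw [map_sub, map_mul, map_mul]
  refine (norm_sub_le _ _).trans ?_
  rw [norm_mul, norm_mul, ← abs_eq h.hn f, ← abs_eq_sg h.hn ρ f]
  exact le_of_eq (by ring)

/-- The even case. -/
lemma PairD.ineq' {r e q κ : ℕ} (hκ : 1 ≤ κ) (hodd : Odd κ) (D : Dat r e κ q)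
    {X Y u A B : 𝓞 K} (h : PairD (d := d) r q κ X Y u A B)
    (hev : Rel q X Y (-1 : (ZMod d)ˣ)) {I : Ideal (𝓞 K)}
    (h1 : X ∈ I) (h2 : Y ∈ I)
    (hI : IsCoprime (Ideal.span {(q : 𝓞 K)}) I) (h0 : X - Y ≠ 0) :
    q ^ (d - 1) * Ideal.absNorm I ≤ 2 ^ (d - 1) * nm X := by
  have hq := Rel.conj D hodd hev h.sub (h.cX hκ D) (h.cY hκ D) h.hn
  have h5 := le_nm (d := d) h0 hq (Ideal.sub_mem _ h1 h2) hI
  refine h5.trans (nm_le_one d _ _ fun f => ?_)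
  rw [map_sub]
  refine (norm_sub_le _ _).trans ?_
  rw [← abs_eq h.hn f]
  exact le_of_eq (by ring)

/-- The case of complex conjugation. -/
lemma PairD.even {r e q κ : ℕ} (hκ : 1 ≤ κ) (D : Dat r e κ q) {X Y u A B : 𝓞 K}
    (h : PairD (d := d) r q κ X Y u A B) (hrd : r = d ∨ ∃ j : ℕ, d ∣ r ^ j + 1)
    (h2 : 2 < d) : Rel q X Y (-1 : (ZMod d)ˣ) := by
  rcases hrd with hrd | ⟨j, hj⟩
  · exact h.rel hκ D (Or.inr hrd)
  · have hcr : r.Coprime d := by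
      rw [Nat.coprime_comm, Nat.Prime.coprime_iff_not_dvd hd.out]
      intro h1
      rcases Nat.eq_zero_or_pos j with rfl | hj0
      · rw [pow_zero] at hj
        have := Nat.le_of_dvd (by omega) hj
        omega
      · have h2 : d ∣ r ^ j := dvd_pow h1 (by omega)
        have h3 := (Nat.dvd_add_right h2).mp hj
        exact hd.out.one_lt.ne' (Nat.dvd_one.mp h3)
    have hρ : ((ZMod.unitOfCoprime r hcr : (ZMod d)ˣ) : ZMod d) = (r : ZMod d) :=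
      ZMod.coe_unitOfCoprime r hcr
    have hpow : (ZMod.unitOfCoprime r hcr) ^ j = (-1 : (ZMod d)ˣ) := by
      apply Units.ext
      rw [Units.val_pow_eq_pow_val, hρ, Units.val_neg, Units.val_one]
      have h1 : ((r ^ j + 1 : ℕ) : ZMod d) = 0 := (ZMod.natCast_eq_zero_iff _ _).mpr hj
      push_cast at h1
      linear_combination h1
    have h3 := Rel.iter D (h.rel hκ D (Or.inl hρ)) (h.cY hκ D) j
    rwa [hpow] at h3

/-- `P[i]`. -/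
def Pi (d : ℕ) [Fact d.Prime] (K : Type) [Field K] [NumberField K]
    [IsCyclotomicExtension {d} ℚ K] (q : ℕ) (i : (ZMod d)ˣ) : 𝓞 K := sg i⁻¹ (PP d K q)

lemma sg_Pi (q : ℕ) (ρ i : (ZMod d)ˣ) : sg ρ (Pi d K q i) = Pi d K q (i * ρ⁻¹) := by
  rw [Pi, Pi, ← sg_mul, mul_inv_rev, inv_inv]

lemma Sol.phi_Pi {p k q : ℕ} (S : Sol d p k q) [hp : Fact p.Prime] (i j : (ZMod d)ˣ) :
    S.phi (sg i (Pi d K q j)) = 0 ↔ i = j := by
  rw [Pi, ← sg_mul]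
  constructor
  · intro h
    have := S.phi_sg_PP _ h
    exact mul_inv_eq_one.mp this
  · rintro rfl
    rw [mul_inv_cancel, sg_one, S.phi_PP]

lemma Pi_sub_one (q : ℕ) (i : (ZMod d)ˣ) : (q : 𝓞 K) ∣ Pi d K q i - 1 := PP_sub_one q _

lemma Sol.Pi_ne {p k q : ℕ} (S : Sol d p k q) (i : (ZMod d)ˣ) : Pi d K q i ≠ 0 := PP_ne_zero S _

lemma Sol.nm_Pi {p k q : ℕ} (S : Sol d p k q) [hp : Fact p.Prime] (i : (ZMod d)ˣ) :
    nm (Pi d K q i) = p ^ k := S.nm_PP _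

lemma Sol.phi_unit {p k q : ℕ} (S : Sol d p k q) [hp : Fact p.Prime] {u : 𝓞 K}
    (hu : IsUnit u) (i : (ZMod d)ˣ) : S.phi (sg i u) ≠ 0 :=
  ((hu.map (sg (K := K) i)).map S.phi).ne_zero

/-- Image of an ideal power. -/
lemma Sol.sg_mem {p k q : ℕ} (S : Sol d p k q) [hp : Fact p.Prime] (ρ i : (ZMod d)ˣ) (n : ℕ)
    {x : 𝓞 K} (hx : x ∈ (S.pr K i) ^ n) : sg ρ x ∈ (S.pr K (i * ρ⁻¹)) ^ n := by
  have h1 : Ideal.map (sg (K := K) ρ) (S.pr K i) ≤ S.pr K (i * ρ⁻¹) := by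
    rw [Ideal.map_le_iff_le_comap]
    intro y hy
    rw [Ideal.mem_comap, S.mem_pr, ← sg_mul, inv_mul_cancel_right]
    exact (S.mem_pr i y).mp hy
  have h2 : Ideal.map (sg (K := K) ρ) ((S.pr K i) ^ n) ≤ (S.pr K (i * ρ⁻¹)) ^ n := by
    rw [Ideal.map_pow]
    exact Ideal.pow_right_mono h1 n
  exact h2 (Ideal.mem_map_of_mem _ hx)

lemma pow_inj_nat {a b n : ℕ} (hn : n ≠ 0) (h : a ^ n = b ^ n) : a = b :=
  Nat.pow_left_injective hn h

/-- Case C: the ideal `p_t^m` is principal. -/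
lemma Sol.pairC {p k q κ m r : ℕ} (S : Sol d p k q) [hp : Fact p.Prime]
    (hk : k = κ * m) (hκ : Nat.Coprime κ (2 * d)) (t : (ZMod d)ˣ) (h1 : S.cl K m t = 1) :
    ∃ X Y u : 𝓞 K, PairD (d := d) r q κ X Y u (Pi d K q t) (Pi d K q (-t)) := by
  have hodd : Odd d := by
    rcases hd.out.eq_two_or_odd' with h | h
    · have := S.hd2; omega
    · exact h
  rw [Sol.cl, ClassGroup.mk0_eq_one_iff] at h1
  obtain ⟨⟨a, ha⟩⟩ := h1
  have ha' : (S.pr K t) ^ m = Ideal.span {a} := ha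
  have h2 : Ideal.span {a ^ κ} = Ideal.span {Pi d K q t} := by
    rw [← Ideal.span_singleton_pow, ← ha', ← pow_mul, mul_comm m κ, ← hk]
    exact S.pr_pow t
  rw [Ideal.span_singleton_eq_span_singleton] at h2
  obtain ⟨u, hu⟩ := h2.symm
  obtain ⟨η, hη1, hη2⟩ := unit_root (K := K) hodd hκ (u := (u : 𝓞 K)) (u' := ((u⁻¹ : (𝓞 K)ˣ) : 𝓞 K))
    (Units.mul_inv u)
  set c : 𝓞 K →+* 𝓞 K := sg (-1 : (ZMod d)ˣ) with hc
  have hcc : ∀ y : 𝓞 K, c (c y) = y := by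
    intro y
    rw [hc, ← sg_mul]
    have : (-1 : (ZMod d)ˣ) * -1 = 1 := by simp
    rw [this, sg_one]
  have hcP : c (Pi d K q t) = Pi d K q (-t) := by
    rw [hc, sg_Pi]; congr 1; simp
  refine ⟨a, η * c a, u, u.isUnit, ?_, ?_, Pi_sub_one _ _, Pi_sub_one _ _, ?_⟩
  · rw [← hu, mul_comm]
  · have h3 : c (u : 𝓞 K) * c ((u⁻¹ : (𝓞 K)ˣ) : 𝓞 K) = 1 := by
      rw [← map_mul, Units.mul_inv, map_one]
    rw [mul_pow, hη2, ← map_pow, ← hu, map_mul, hcP]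
    linear_combination (u : 𝓞 K) * Pi d K q (-t) * h3
  · rw [← hc, map_mul, hcc]
    linear_combination -(c a * a) * hη1

/-- Case D: `p_s^m` and `p_t^m` are in the same class. -/
lemma Sol.pairD {p k q κ m r : ℕ} (S : Sol d p k q) [hp : Fact p.Prime]
    (hk : k = κ * m) (hκ1 : 1 ≤ κ) (hκ : Nat.Coprime κ (2 * d)) (s t : (ZMod d)ˣ)
    (h1 : S.cl K m s = S.cl K m t) :
    ∃ g X Y u : 𝓞 K, PairD (d := d) r q κ X Y u
      (Pi d K q s * Pi d K q t ^ (κ - 1) * Pi d K q (-t) ^ κ)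
      (Pi d K q (-s) * Pi d K q (-t) ^ (κ - 1) * Pi d K q t ^ κ) ∧
      X = g * Pi d K q (-t) ∧
      (∃ η : 𝓞 K, Y = η * sg (-1 : (ZMod d)ˣ) g * Pi d K q t) ∧
      g ∈ (S.pr K t) ^ (m * (κ - 1)) ∧
      g ^ κ = u * (Pi d K q s * Pi d K q t ^ (κ - 1)) := by
  have hodd : Odd d := by
    rcases hd.out.eq_two_or_odd' with h | h
    · have := S.hd2; omega
    · exact h
  have hne : (S.pr K s) ^ m * (S.pr K t) ^ (m * (κ - 1)) ∈ (Ideal (𝓞 K))⁰ :=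
    mul_mem (S.pr_pow_ne s m) (S.pr_pow_ne t _)
  have h2 : ClassGroup.mk0 ⟨(S.pr K s) ^ m * (S.pr K t) ^ (m * (κ - 1)), hne⟩ = 1 := by
    have h3 : ClassGroup.mk0 ⟨(S.pr K s) ^ m * (S.pr K t) ^ (m * (κ - 1)), hne⟩
        = S.cl K m s * (S.cl K m t) ^ (κ - 1) := by
      rw [Sol.cl, Sol.cl, ← map_pow, ← map_mul]
      congr 1
      apply Subtype.ext
      rw [Submonoid.coe_mul, SubmonoidClass.coe_pow, ← pow_mul]
    rw [h3, h1, ← pow_succ', Nat.sub_add_cancel hκ1, S.cl_pow hk]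
  rw [ClassGroup.mk0_eq_one_iff] at h2
  obtain ⟨⟨g, hg⟩⟩ := h2
  have hg' : (S.pr K s) ^ m * (S.pr K t) ^ (m * (κ - 1)) = Ideal.span {g} := hg
  have h2 : Ideal.span {g ^ κ} = Ideal.span {Pi d K q s * Pi d K q t ^ (κ - 1)} := by
    have e1 : ((S.pr K s) ^ m) ^ κ = Ideal.span {Pi d K q s} := by
      rw [← pow_mul, mul_comm m κ, ← hk]; exact S.pr_pow s
    have e2 : ((S.pr K t) ^ (m * (κ - 1))) ^ κ = Ideal.span {Pi d K q t ^ (κ - 1)} := by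
      rw [← pow_mul, show m * (κ - 1) * κ = (κ * m) * (κ - 1) by ring, ← hk, pow_mul, S.pr_pow t,
        Ideal.span_singleton_pow]
      rfl
    rw [← Ideal.span_singleton_pow, ← hg', mul_pow, e1, e2, Ideal.span_singleton_mul_span_singleton]
  rw [Ideal.span_singleton_eq_span_singleton] at h2
  obtain ⟨u, hu⟩ := h2.symm
  obtain ⟨η, hη1, hη2⟩ := unit_root (K := K) hodd hκ (u := (u : 𝓞 K)) (u' := ((u⁻¹ : (𝓞 K)ˣ) : 𝓞 K))
    (Units.mul_inv u)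
  set c : 𝓞 K →+* 𝓞 K := sg (-1 : (ZMod d)ˣ) with hc
  have hcc : ∀ y : 𝓞 K, c (c y) = y := by
    intro y
    rw [hc, ← sg_mul]
    have : (-1 : (ZMod d)ˣ) * -1 = 1 := by simp
    rw [this, sg_one]
  have hcP : ∀ i : (ZMod d)ˣ, c (Pi d K q i) = Pi d K q (-i) := by
    intro i
    rw [hc, sg_Pi]; congr 1; simp
  refine ⟨g, g * Pi d K q (-t), η * c g * Pi d K q t, u, ⟨u.isUnit, ?_, ?_, ?_, ?_, ?_⟩, rfl,
    ⟨η, rfl⟩, ?_, ?_⟩
  · rw [mul_pow, ← hu]; ring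
  · have h3 : c (u : 𝓞 K) * c ((u⁻¹ : (𝓞 K)ˣ) : 𝓞 K) = 1 := by
      rw [← map_mul, Units.mul_inv, map_one]
    have h4 : (c g) ^ κ = Pi d K q (-s) * Pi d K q (-t) ^ (κ - 1) * c (u : 𝓞 K) := by
      rw [← map_pow, ← hu, map_mul, map_mul, map_pow, hcP, hcP]
    rw [mul_pow, mul_pow, hη2, h4]
    linear_combination (u : 𝓞 K) * Pi d K q (-s) * Pi d K q (-t) ^ (κ - 1) * Pi d K q t ^ κ * h3
  · exact mul_sub_one (mul_sub_one (Pi_sub_one _ _) (pow_sub_one (Pi_sub_one _ _) _))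
      (pow_sub_one (Pi_sub_one _ _) _)
  · exact mul_sub_one (mul_sub_one (Pi_sub_one _ _) (pow_sub_one (Pi_sub_one _ _) _))
      (pow_sub_one (Pi_sub_one _ _) _)
  · rw [← hc, map_mul, map_mul, map_mul, hcP, hcP, hcc, neg_neg]
    linear_combination -(c g * g * Pi d K q t * Pi d K q (-t)) * hη1
  · have h3 : g ∈ Ideal.span {g} := Ideal.mem_span_singleton_self g
    rw [← hg'] at h3
    exact Ideal.mul_le_right h3
  · rw [← hu]; ring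

end

end Pool.Agent.H26.NL
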