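import Pool.Agent.H26.NL.Prod

/-!
# The exponent `d` is prime
-/

set_option autoImplicit false

namespace Pool.Agent.H26.NL

lemma geo_mul (q a b : ℕ) : ∑ i ∈ Finset.range (a * b), q ^ i
    = (∑ i ∈ Finset.range a, q ^ i) * ∑ j ∈ Finset.range b, (q ^ a) ^ j := by
  induction b with
  | zero => simp
  | succ b ih =>
    rw [Nat.mul_succ, Finset.sum_range_add, ih, Finset.sum_range_succ, mul_add]
    congr 1
    rw [Finset.sum_mul]
    refine Finset.sum_congr rfl fun i _ => ?_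
    rw [pow_add, pow_mul, mul_comm]

lemma geo_gt {q a : ℕ} (hq : 2 ≤ q) (ha : 2 ≤ a) : a < ∑ i ∈ Finset.range a, q ^ i := by
  obtain ⟨c, rfl⟩ : ∃ c, a = c + 2 := ⟨a - 2, by omega⟩
  rw [Finset.sum_range_succ', Finset.sum_range_succ']
  have h : c ≤ ∑ k ∈ Finset.range c, q ^ (k + 1 + 1) := by
    calc c = ∑ _k ∈ Finset.range c, 1 := by simp
      _ ≤ _ := Finset.sum_le_sum fun i _ => Nat.one_le_pow _ _ (by omega)
  simp only [zero_add, pow_one, pow_zero]
  omega

/-- In a solution the exponent is prime. -/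
lemma d_prime {q d p k : ℕ} (hq : 2 ≤ q) (hd : 2 < d) (hp : p.Prime)
    (h : ∑ i ∈ Finset.range d, q ^ i = p ^ k) : d.Prime := by
  by_contra hnp
  have key : ∀ a b, d = a * b → 2 ≤ a → 2 ≤ b → p ∣ b := by
    intro a b hab ha hb
    rw [hab, geo_mul] at h
    have h1 : p ∣ ∑ i ∈ Finset.range a, q ^ i := by
      obtain ⟨j, _, hj⟩ := (Nat.dvd_prime_pow hp).mp (Dvd.intro _ h)
      have h2 := geo_gt hq ha
      rw [hj] at h2 ⊢
      rcases Nat.eq_zero_or_pos j with rfl | h3
      · rw [pow_zero] at h2; omega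
      · exact dvd_pow_self p (by omega)
    have h2 : p ∣ ∑ j ∈ Finset.range b, (q ^ a) ^ j := by
      have hqa : 2 ≤ q ^ a := by
        calc 2 ≤ q := hq
          _ = q ^ 1 := (pow_one q).symm
          _ ≤ q ^ a := Nat.pow_le_pow_right (by omega) (by omega)
      obtain ⟨j, _, hj⟩ := (Nat.dvd_prime_pow hp).mp (Dvd.intro_left _ h)
      have h2 := geo_gt hqa hb
      rw [hj] at h2 ⊢
      rcases Nat.eq_zero_or_pos j with rfl | h3
      · rw [pow_zero] at h2; omega
      · exact dvd_pow_self p (by omega)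
    -- `q^a = 1 mod p`
    have h3 : ((q : ZMod p)) ^ a = 1 := by
      have h4 := mul_geom_sum (q : ZMod p) a
      have h5 : ((∑ i ∈ Finset.range a, q ^ i : ℕ) : ZMod p) = 0 :=
        (ZMod.natCast_eq_zero_iff _ _).mpr h1
      push_cast at h5
      rw [h5, mul_zero] at h4
      exact (sub_eq_zero.mp h4.symm)
    have h6 : ((∑ j ∈ Finset.range b, (q ^ a) ^ j : ℕ) : ZMod p) = 0 :=
      (ZMod.natCast_eq_zero_iff _ _).mpr h2
    push_cast at h6
    rw [h3] at h6
    simp only [one_pow, Finset.sum_const, Finset.card_range, nsmul_eq_mul, mul_one] at h6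
    exact (ZMod.natCast_eq_zero_iff _ _).mp h6
  have hb := Nat.minFac_prime (n := d) (by omega)
  have hbd := Nat.minFac_dvd d
  obtain ⟨a, ha⟩ := hbd
  have ha2 : 2 ≤ a := by
    rcases Nat.lt_or_ge a 2 with h1 | h1
    · exfalso
      interval_cases a
      · omega
      · rw [mul_one] at ha
        exact hnp (ha ▸ hb)
    · exact h1
  have hpb : p = d.minFac :=
    (Nat.prime_dvd_prime_iff_eq hp hb).mp (key a _ (by rw [mul_comm]; exact ha) ha2 hb.two_le)
  have hpa : p ∣ a := key _ a ha hb.two_le ha2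
  rw [← hpb] at ha
  have hF : ∑ i ∈ Finset.range p, q ^ i ∣ p ^ k := by
    rw [← h, ha, geo_mul]
    exact dvd_mul_right _ _
  obtain ⟨j, _, hj⟩ := (Nat.dvd_prime_pow hp).mp hF
  rcases hp.eq_two_or_odd' with h2 | hodd
  · subst h2
    obtain ⟨c, rfl⟩ := hpa
    have h4 : ∑ i ∈ Finset.range 4, q ^ i ∣ 2 ^ k := by
      rw [← h, ha, ← mul_assoc, geo_mul]
      exact dvd_mul_right _ _
    have h5 : (1 + q ^ 2) ∣ 2 ^ k := by
      refine Dvd.dvd.trans ⟨1 + q, ?_⟩ h4
      simp [Finset.sum_range_succ]; ring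
    obtain ⟨i, _, hi⟩ := (Nat.dvd_prime_pow Nat.prime_two).mp h5
    have h6 : 2 ≤ i := by
      by_contra h7
      have h8 : 2 ^ i ≤ 2 ^ 1 := Nat.pow_le_pow_right (by omega) (by omega)
      nlinarith
    obtain ⟨m, rfl⟩ : ∃ m, i = m + 2 := ⟨i - 2, by omega⟩
    have h7 : (1 + q ^ 2) % 4 = 0 := by
      rw [hi, pow_add]
      omega
    have h8 : q ^ 2 % 4 = (q % 4) ^ 2 % 4 := Nat.pow_mod q 2 4
    have h9 : q % 4 < 4 := Nat.mod_lt _ (by norm_num)
    interval_cases q % 4 <;> omega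
  · have hp2 : 2 < p := by
      rcases hodd with ⟨m, hm⟩
      have := hp.two_le
      omega
    have hlow := geo_gt hq (a := p) (by omega)
    rcases Nat.lt_or_ge j 2 with h1 | h1
    · rw [hj] at hlow
      have : p ^ j ≤ p ^ 1 := Nat.pow_le_pow_right hp.pos (by omega)
      rw [pow_one] at this
      omega
    · have : Fact p.Prime := ⟨hp⟩
      have S : Sol p p j q := ⟨hp, hp2, h1, hq, hj⟩
      exact S.p_ne_d rfl

end Pool.Agent.H26.NL
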