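import Pool.Agent.H26.NL.Core

/-!
# The class group criteria
-/

set_option autoImplicit false

namespace Pool.Agent.H26.NL

open NumberField Polynomial nonZeroDivisors

noncomputable section

variable {d : ℕ} [hd : Fact d.Prime] {K : Type} [Field K] [NumberField K]
  [IsCyclotomicExtension {d} ℚ K]

lemma neg_one_ne_one (h2 : 2 < d) : (-1 : (ZMod d)ˣ) ≠ 1 := by
  intro h1
  have h2' : ((-1 : (ZMod d)ˣ) : ZMod d) = ((1 : (ZMod d)ˣ) : ZMod d) := by rw [h1]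
  have h3 : ((2 : ℕ) : ZMod d) = 0 := by
    push_cast
    simp only [Units.val_neg, Units.val_one] at h2'
    linear_combination -h2'
  have := Nat.le_of_dvd (by omega) ((ZMod.natCast_eq_zero_iff _ _).mp h3)
  omega

lemma neg_ne_self (h2 : 2 < d) (s : (ZMod d)ˣ) : -s ≠ s := by
  intro h
  apply neg_one_ne_one h2
  have : -s * s⁻¹ = s * s⁻¹ := by rw [h]
  rwa [neg_mul, mul_inv_cancel] at this

/-- Case C, the inequality. -/
lemma Sol.ineqC {p k q κ m r e : ℕ} (S : Sol d p k q) [hp : Fact p.Prime]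
    (D : Dat r e κ q) (hk : k = κ * m) (hκ1 : 1 ≤ κ) (hκ : Nat.Coprime κ (2 * d))
    {ρ : (ZMod d)ˣ} (hρ : Adm r ρ) (hρ1 : ρ ≠ 1) (t : (ZMod d)ˣ) (h1 : S.cl K m t = 1) :
    q ^ (d - 1) ≤ 2 ^ (d - 1) * p ^ (2 * m) := by
  obtain ⟨X, Y, u, h⟩ := S.pairC (r := r) hk hκ t h1
  have hκ0 : κ ≠ 0 := by omega
  have hnX : nm X = p ^ m := by
    apply pow_inj_nat hκ0
    rw [← nm_pow, h.hX, nm_mul, nm_unit h.hu, one_mul, S.nm_Pi, ← pow_mul, mul_comm m κ, hk]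
  have hnX' : nm (sg ρ X) = p ^ m := by
    apply pow_inj_nat hκ0
    rw [← nm_pow, ← map_pow, h.hX, map_mul, nm_mul, nm_unit (h.hu.map _), one_mul, sg_Pi, S.nm_Pi,
      ← pow_mul, mul_comm m κ, hk]
  have h0 : sg ρ X * Y - X * sg ρ Y ≠ 0 := by
    intro h0
    have h2 := congrArg (fun z => S.phi (sg t z)) (sub_eq_zero.mp h0)
    simp only [map_mul] at h2
    have e1 : S.phi (sg t X) = 0 := by
      have e2 : (S.phi (sg t X)) ^ κ = 0 := by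
        rw [← map_pow, ← map_pow, h.hX, map_mul, map_mul, (S.phi_Pi t t).mpr rfl, mul_zero]
      exact (pow_eq_zero_iff hκ0).mp e2
    rw [e1, zero_mul] at h2
    rcases mul_eq_zero.mp h2 with e3 | e3
    · have e4 : (S.phi (sg t (sg ρ X))) ^ κ = 0 := by rw [e3, zero_pow hκ0]
      rw [← map_pow, ← map_pow, ← map_pow, h.hX, map_mul, map_mul, map_mul, sg_Pi] at e4
      rcases mul_eq_zero.mp e4 with e5 | e5
      · exact S.phi_unit (h.hu.map _) t e5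
      · have e6 := (S.phi_Pi _ _).mp e5
        apply hρ1
        have e7 : t * ρ = t := by rw [eq_mul_inv_iff_mul_eq] at e6; exact e6
        exact mul_eq_left.mp e7
    · have e4 : (S.phi (sg t Y)) ^ κ = 0 := by rw [e3, zero_pow hκ0]
      rw [← map_pow, ← map_pow, h.hY, map_mul, map_mul] at e4
      rcases mul_eq_zero.mp e4 with e5 | e5
      · exact S.phi_unit h.hu t e5
      · exact neg_ne_self S.hd2 t ((S.phi_Pi _ _).mp e5).symm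
  have hc : IsCoprime (Ideal.span {(q : 𝓞 K)}) (⊤ : Ideal (𝓞 K)) := by
    rw [← Ideal.one_eq_top]; exact isCoprime_one_right
  have h5 := h.ineq hκ1 D hρ (I := ⊤) (I' := ⊤) Submodule.mem_top Submodule.mem_top
    Submodule.mem_top Submodule.mem_top hc hc h0
  rw [Ideal.absNorm_top, mul_one, mul_one, hnX, hnX', ← pow_add] at h5
  rwa [two_mul]

/-- norms of the conjugates in case D -/
lemma Sol.nm_D {p k q κ : ℕ} (S : Sol d p k q) [hp : Fact p.Prime] (hκ1 : 1 ≤ κ)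
    {u X : 𝓞 K} (hu : IsUnit u) (a b c : (ZMod d)ˣ)
    (hX : X ^ κ = u * (Pi d K q a * Pi d K q b ^ (κ - 1) * Pi d K q c ^ κ)) :
    nm X = p ^ (2 * k) := by
  apply pow_inj_nat (show κ ≠ 0 by omega)
  rw [← nm_pow, hX, nm_mul, nm_mul, nm_mul, nm_pow, nm_pow, nm_unit hu, one_mul, S.nm_Pi, S.nm_Pi,
    S.nm_Pi, ← pow_mul, ← pow_mul, ← pow_mul, ← pow_add, ← pow_add]
  congr 1
  obtain ⟨j, rfl⟩ : ∃ j, κ = j + 1 := ⟨κ - 1, by omega⟩
  rw [Nat.add_sub_cancel]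
  ring

/-- The ideal used in case D. -/
def Sol.ID {p k q : ℕ} (S : Sol d p k q) [hp : Fact p.Prime] (K : Type) [Field K] [NumberField K]
    [IsCyclotomicExtension {d} ℚ K] (t : (ZMod d)ˣ) (n : ℕ) : Ideal (𝓞 K) :=
  (S.pr K t) ^ n * (S.pr K (-t)) ^ n

lemma Sol.absNorm_ID {p k q : ℕ} (S : Sol d p k q) [hp : Fact p.Prime] (t : (ZMod d)ˣ) (n : ℕ) :
    Ideal.absNorm (S.ID K t n) = p ^ (2 * n) := by
  rw [Sol.ID, map_mul, map_pow, map_pow, S.absNorm_pr, S.absNorm_pr, ← pow_add, two_mul]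

lemma Sol.coprime_ID {p k q : ℕ} (S : Sol d p k q) [hp : Fact p.Prime] (t : (ZMod d)ˣ) (n : ℕ) :
    IsCoprime (Ideal.span {(q : 𝓞 K)}) (S.ID K t n) :=
  ((S.q_coprime t).pow_right).mul_right ((S.q_coprime (-t)).pow_right)

lemma Sol.Pi_mem {p k q κ m : ℕ} (S : Sol d p k q) [hp : Fact p.Prime] (hk : k = κ * m)
    (t : (ZMod d)ˣ) : Pi d K q t ∈ (S.pr K t) ^ (m * (κ - 1)) := by
  have h1 : Pi d K q t ∈ (S.pr K t) ^ k := by
    rw [S.pr_pow]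
    exact Ideal.mem_span_singleton_self _
  refine Ideal.pow_le_pow_right ?_ h1
  rw [hk, mul_comm]
  exact Nat.mul_le_mul_right _ (Nat.sub_le _ _)

lemma Sol.mem_ID {p k q κ m : ℕ} (S : Sol d p k q) [hp : Fact p.Prime] (hk : k = κ * m)
    (t : (ZMod d)ˣ) {g : 𝓞 K} (hg : g ∈ (S.pr K t) ^ (m * (κ - 1))) :
    g * Pi d K q (-t) ∈ S.ID K t (m * (κ - 1)) :=
  Ideal.mul_mem_mul hg (S.Pi_mem hk (-t))

lemma Sol.mem_ID' {p k q κ m : ℕ} (S : Sol d p k q) [hp : Fact p.Prime] (hk : k = κ * m)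
    (t : (ZMod d)ˣ) {g η : 𝓞 K} (hg : g ∈ (S.pr K t) ^ (m * (κ - 1))) :
    η * sg (-1 : (ZMod d)ˣ) g * Pi d K q t ∈ S.ID K t (m * (κ - 1)) := by
  have h1 := S.sg_mem (-1) t (m * (κ - 1)) hg
  have h2 : t * (-1 : (ZMod d)ˣ)⁻¹ = -t := by simp
  rw [h2] at h1
  rw [Sol.ID, mul_comm (η * _)]
  exact Ideal.mul_mem_mul (S.Pi_mem hk t) (Ideal.mul_mem_left _ _ h1)

lemma Sol.sg_ID {p k q : ℕ} (S : Sol d p k q) [hp : Fact p.Prime] (ρ t : (ZMod d)ˣ) (n : ℕ)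
    {x : 𝓞 K} (hx : x ∈ S.ID K t n) : sg ρ x ∈ S.ID K (t * ρ⁻¹) n := by
  have h1 : Ideal.map (sg (K := K) ρ) (S.ID K t n) ≤ S.ID K (t * ρ⁻¹) n := by
    rw [Sol.ID, Sol.ID, Ideal.map_mul]
    refine Ideal.mul_mono ?_ ?_
    · rw [Ideal.map_le_iff_le_comap]
      intro y hy
      exact S.sg_mem ρ t n hy
    · rw [Ideal.map_le_iff_le_comap]
      intro y hy
      have := S.sg_mem ρ (-t) n hy
      rwa [neg_mul] at this
  exact h1 (Ideal.mem_map_of_mem _ hx)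

/-- Cancellation in case D. -/
lemma cancelD {R : Type*} [CommRing R] [IsDomain R] {n : ℕ} {v u a' b' bn' an bn b a ann : R}
    (hv : v ≠ 0) (hu : u ≠ 0) (hb' : b' ≠ 0) (hbn' : bn' ≠ 0) (hb : b ≠ 0) (hbn : bn ≠ 0)
    (h : (v * (a' * b' ^ n * bn' ^ (n + 1))) * (u * (an * bn ^ n * b ^ (n + 1)))
      = (u * (a * b ^ n * bn ^ (n + 1))) * (v * (ann * bn' ^ n * b' ^ (n + 1)))) :
    (a' * bn') * (an * b) = (a * bn) * (ann * b') := by
  have hne : v * u * (b' ^ n * bn' ^ n * b ^ n * bn ^ n) ≠ 0 :=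
    mul_ne_zero (mul_ne_zero hv hu) (mul_ne_zero (mul_ne_zero (mul_ne_zero (pow_ne_zero _ hb')
      (pow_ne_zero _ hbn')) (pow_ne_zero _ hb)) (pow_ne_zero _ hbn))
  apply mul_left_cancel₀ hne
  linear_combination h

/-- Case D, the inequality. -/
lemma Sol.ineqD {p k q κ m r e : ℕ} (S : Sol d p k q) [hp : Fact p.Prime]
    (D : Dat r e κ q) (hk : k = κ * m) (hκ1 : 1 ≤ κ) (hκ : Nat.Coprime κ (2 * d))
    {ρ : (ZMod d)ˣ} (hρ : Adm r ρ) (hρ1 : ρ ≠ 1) {s t : (ZMod d)ˣ} (hst : s ≠ t)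
    (h1 : S.cl K m s = S.cl K m t) :
    q ^ (d - 1) ≤ 2 ^ (d - 1) * p ^ (4 * m) := by
  obtain ⟨g, X, Y, u, h, hXg, ⟨η, hYg⟩, hg, -⟩ := S.pairD (r := r) hk hκ1 hκ s t h1
  have hκ0 : κ ≠ 0 := by omega
  obtain ⟨n, rfl⟩ : ∃ n, κ = n + 1 := ⟨κ - 1, by omega⟩
  have hXI : X ∈ S.ID K t (m * (n + 1 - 1)) := hXg ▸ S.mem_ID hk t hg
  have hYI : Y ∈ S.ID K t (m * (n + 1 - 1)) := hYg ▸ S.mem_ID' hk t hg
  have eX : (sg ρ X) ^ (n + 1) = sg ρ u * (Pi d K q (s * ρ⁻¹) * Pi d K q (t * ρ⁻¹) ^ (n + 1 - 1)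
      * Pi d K q (-t * ρ⁻¹) ^ (n + 1)) := by
    rw [← map_pow, h.hX, map_mul, map_mul, map_mul, map_pow, map_pow, sg_Pi, sg_Pi, sg_Pi]
  have eY : (sg ρ Y) ^ (n + 1) = sg ρ u * (Pi d K q (-s * ρ⁻¹) * Pi d K q (-t * ρ⁻¹) ^ (n + 1 - 1)
      * Pi d K q (t * ρ⁻¹) ^ (n + 1)) := by
    rw [← map_pow, h.hY, map_mul, map_mul, map_mul, map_pow, map_pow, sg_Pi, sg_Pi, sg_Pi]
  have hnX : nm X = p ^ (2 * k) := S.nm_D hκ1 h.hu s t (-t) h.hX
  have hnX' : nm (sg ρ X) = p ^ (2 * k) := S.nm_D hκ1 (h.hu.map _) _ _ _ eX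
  have h0 : sg ρ X * Y - X * sg ρ Y ≠ 0 := by
    intro h0
    have h2 : (sg ρ X) ^ (n + 1) * Y ^ (n + 1) = X ^ (n + 1) * (sg ρ Y) ^ (n + 1) := by
      rw [← mul_pow, ← mul_pow, sub_eq_zero.mp h0]
    rw [eX, eY, h.hX, h.hY, Nat.add_sub_cancel] at h2
    have h3 := cancelD ((h.hu.map (sg (K := K) ρ)).ne_zero) h.hu.ne_zero (S.Pi_ne _) (S.Pi_ne _)
      (S.Pi_ne _) (S.Pi_ne _) h2
    -- evaluate at `s` and at `-t`
    have key : ∀ i : (ZMod d)ˣ, (i = s ∨ i = -t) →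
        i = s * ρ⁻¹ ∨ i = -t * ρ⁻¹ ∨ i = -s ∨ i = t := by
      intro i hi
      have h4 := congrArg (fun z => S.phi (sg i z)) h3
      simp only [map_mul] at h4
      have h5 : S.phi (sg i (Pi d K q s)) * S.phi (sg i (Pi d K q (-t))) = 0 := by
        rcases hi with hi | hi
        · rw [(S.phi_Pi i s).mpr hi, zero_mul]
        · rw [(S.phi_Pi i (-t)).mpr hi, mul_zero]
      rw [h5, zero_mul] at h4
      rcases mul_eq_zero.mp h4 with h6 | h6 <;> rcases mul_eq_zero.mp h6 with h6 | h6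
      · exact Or.inl ((S.phi_Pi _ _).mp h6)
      · exact Or.inr (Or.inl ((S.phi_Pi _ _).mp h6))
      · exact Or.inr (Or.inr (Or.inl ((S.phi_Pi _ _).mp h6)))
      · exact Or.inr (Or.inr (Or.inr ((S.phi_Pi _ _).mp h6)))
    have hself : ∀ i : (ZMod d)ˣ, i ≠ i * ρ⁻¹ := by
      intro i hi
      apply hρ1
      have : i * ρ = i := by rw [eq_mul_inv_iff_mul_eq] at hi; exact hi
      exact mul_eq_left.mp this
    have k1 : s = -t * ρ⁻¹ := by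
      rcases key s (Or.inl rfl) with h4 | h4 | h4 | h4
      · exact absurd h4 (hself s)
      · exact h4
      · exact absurd h4.symm (neg_ne_self S.hd2 s)
      · exact absurd h4 hst
    have k2 : -t = s * ρ⁻¹ := by
      rcases key (-t) (Or.inr rfl) with h4 | h4 | h4 | h4
      · exact h4
      · exact absurd h4 (hself (-t))
      · exact absurd (neg_injective h4).symm hst
      · exact absurd h4 (neg_ne_self S.hd2 t)
    have k3 : ρ * ρ = 1 := by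
      have h4 : s = s * (ρ⁻¹ * ρ⁻¹) := by
        calc s = -t * ρ⁻¹ := k1
          _ = s * ρ⁻¹ * ρ⁻¹ := by rw [← k2]
          _ = s * (ρ⁻¹ * ρ⁻¹) := mul_assoc _ _ _
      have h5 : ρ⁻¹ * ρ⁻¹ = 1 := mul_eq_left.mp h4.symm
      rw [← mul_inv, inv_eq_one] at h5
      exact h5
    have k4 : ρ = -1 := by
      have h4 : (ρ : ZMod d) * (ρ : ZMod d) = 1 := by
        rw [← Units.val_mul, k3, Units.val_one]
      rcases mul_self_eq_one_iff.mp h4 with h5 | h5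
      · exact absurd (Units.ext h5) hρ1
      · exact Units.ext (by rw [h5]; simp)
    rw [k4] at k1
    apply hst
    rw [k1]
    simp
  have hmain := h.ineq hκ1 D hρ hXI hYI (S.sg_ID ρ t _ hXI) (S.sg_ID ρ t _ hYI)
    (S.coprime_ID _ _) (S.coprime_ID _ _) h0
  rw [S.absNorm_ID, S.absNorm_ID, hnX, hnX', Nat.add_sub_cancel] at hmain
  have e1 : 2 * k + 2 * k = 4 * m + (2 * (m * n) + 2 * (m * n)) := by rw [hk]; ring
  have h9 : q ^ (d - 1) * p ^ (2 * (m * n) + 2 * (m * n))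
      ≤ (2 ^ (d - 1) * p ^ (4 * m)) * p ^ (2 * (m * n) + 2 * (m * n)) := by
    calc q ^ (d - 1) * p ^ (2 * (m * n) + 2 * (m * n))
        = q ^ (d - 1) * (p ^ (2 * (m * n)) * p ^ (2 * (m * n))) := by rw [pow_add]
      _ ≤ 2 ^ (d - 1) * (p ^ (2 * k) * p ^ (2 * k)) := hmain
      _ = 2 ^ (d - 1) * p ^ (2 * k + 2 * k) := by rw [pow_add p (2 * k)]
      _ = _ := by rw [e1, pow_add p (4 * m), mul_assoc]
  exact Nat.le_of_mul_le_mul_right h9 (pow_pos S.hp.pos _)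

/-- Case D when complex conjugation is a power of Frobenius. -/
lemma Sol.ineqD' {p k q κ m r e : ℕ} (S : Sol d p k q) [hp : Fact p.Prime]
    (D : Dat r e κ q) (hk : k = κ * m) (hκ1 : 1 ≤ κ) (hκ : Nat.Coprime κ (2 * d))
    (hodd : Odd κ) (hrd : r = d ∨ ∃ j : ℕ, d ∣ r ^ j + 1) {s t : (ZMod d)ˣ} (hst : s ≠ t)
    (h1 : S.cl K m s = S.cl K m t) :
    q ^ (d - 1) ≤ 2 ^ (d - 1) * p ^ (2 * m) := by
  obtain ⟨g, X, Y, u, h, hXg, ⟨η, hYg⟩, hg, -⟩ := S.pairD (r := r) hk hκ1 hκ s t h1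
  have hκ0 : κ ≠ 0 := by omega
  have hev := h.even hκ1 D hrd S.hd2
  obtain ⟨n, rfl⟩ : ∃ n, κ = n + 1 := ⟨κ - 1, by omega⟩
  have hXI : X ∈ S.ID K t (m * (n + 1 - 1)) := hXg ▸ S.mem_ID hk t hg
  have hYI : Y ∈ S.ID K t (m * (n + 1 - 1)) := hYg ▸ S.mem_ID' hk t hg
  have hnX : nm X = p ^ (2 * k) := S.nm_D hκ1 h.hu s t (-t) h.hX
  have h0 : X - Y ≠ 0 := by
    intro h0
    have h2 : X ^ (n + 1) = Y ^ (n + 1) := by rw [sub_eq_zero.mp h0]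
    rw [h.hX, h.hY, Nat.add_sub_cancel] at h2
    have h3 : Pi d K q s * Pi d K q (-t) = Pi d K q (-s) * Pi d K q t := by
      have hne : u * (Pi d K q t ^ n * Pi d K q (-t) ^ n) ≠ 0 :=
        mul_ne_zero h.hu.ne_zero (mul_ne_zero (pow_ne_zero _ (S.Pi_ne _))
          (pow_ne_zero _ (S.Pi_ne _)))
      apply mul_left_cancel₀ hne
      linear_combination h2
    have h4 := congrArg (fun z => S.phi (sg s z)) h3
    simp only [map_mul] at h4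
    rw [(S.phi_Pi s s).mpr rfl, zero_mul] at h4
    rcases mul_eq_zero.mp h4.symm with h6 | h6
    · exact neg_ne_self S.hd2 s ((S.phi_Pi _ _).mp h6).symm
    · exact hst ((S.phi_Pi _ _).mp h6)
  have hmain := h.ineq' hκ1 hodd D hev hXI hYI (S.coprime_ID _ _) h0
  rw [S.absNorm_ID, hnX, Nat.add_sub_cancel] at hmain
  have e1 : 2 * k = 2 * m + 2 * (m * n) := by rw [hk]; ring
  have h9 : q ^ (d - 1) * p ^ (2 * (m * n))
      ≤ (2 ^ (d - 1) * p ^ (2 * m)) * p ^ (2 * (m * n)) := by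
    calc q ^ (d - 1) * p ^ (2 * (m * n)) ≤ 2 ^ (d - 1) * p ^ (2 * k) := hmain
      _ = _ := by rw [e1, pow_add p (2 * m), mul_assoc]
  exact Nat.le_of_mul_le_mul_right h9 (pow_pos S.hp.pos _)

/-- An allowed nontrivial automorphism exists. -/
lemma Sol.exists_adm {p k r e : ℕ} (S : Sol d p k (r ^ e)) (hr : r.Prime) :
    ∃ ρ : (ZMod d)ˣ, Adm r ρ ∧ ρ ≠ 1 := by
  have hrd := S.not_dvd_r hr
  by_cases hrd' : r = d
  · exact ⟨-1, Or.inr hrd', neg_one_ne_one S.hd2⟩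
  · have hcr : r.Coprime d := (Nat.coprime_primes hr hd.out).mpr hrd'
    have hρ : ((ZMod.unitOfCoprime r hcr : (ZMod d)ˣ) : ZMod d) = (r : ZMod d) :=
      ZMod.coe_unitOfCoprime r hcr
    refine ⟨_, Or.inl hρ, ?_⟩
    intro h1
    rw [h1] at hρ
    have h2 : ((r : ℕ) : ZMod d) = ((1 : ℕ) : ZMod d) := by
      rw [← hρ]; simp
    have h3 := (ZMod.natCast_eq_natCast_iff _ _ _).mp h2
    exact hrd ((Nat.modEq_iff_dvd' hr.one_lt.le).mp h3.symm)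

omit hd in
/-- The upper bound `p^k (q-1) < q^d`. -/
lemma Sol.upper {p k q : ℕ} (S : Sol d p k q) : p ^ k * (q - 1) < q ^ d := by
  have := S.q_pow
  rw [this, mul_comm]
  omega

/-- Numerical contradiction, exponent `2`. -/
lemma Sol.num2 {p k q κ m : ℕ} (S : Sol d p k q) (hk : k = κ * m) (hκ : 3 ≤ κ) (hd5 : 4 ≤ d)
    (hq : 9 ≤ q) (h : q ^ (d - 1) ≤ 2 ^ (d - 1) * p ^ (2 * m)) : False := by
  obtain ⟨D, rfl⟩ : ∃ D, d = D + 1 := ⟨d - 1, by omega⟩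
  rw [Nat.add_sub_cancel] at h
  obtain ⟨j, rfl⟩ : ∃ j, κ = j + 3 := ⟨κ - 3, by omega⟩
  have h1 := Nat.pow_le_pow_left h (j + 3)
  have h2 := S.upper
  have h3 : (p ^ (2 * m)) ^ (j + 3) = (p ^ k) ^ 2 := by
    rw [← pow_mul, ← pow_mul, hk]; congr 1; ring
  rw [mul_pow, h3] at h1
  -- multiply by `(q-1)^2`
  have h4 : (p ^ k * (q - 1)) ^ 2 < (q ^ (D + 1)) ^ 2 := Nat.pow_lt_pow_left h2 two_ne_zero
  obtain ⟨w, rfl⟩ : ∃ w, q = w + 9 := ⟨q - 9, by omega⟩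
  have h5 : (w + 9 - 1) = w + 8 := by omega
  rw [h5] at h4
  have h6 : ((w + 9) ^ D) ^ (j + 3) * (w + 8) ^ 2
      < (2 ^ D) ^ (j + 3) * (((w + 9) ^ D) ^ 2 * (w + 9) ^ 2) := by
    calc ((w + 9) ^ D) ^ (j + 3) * (w + 8) ^ 2
        ≤ ((2 ^ D) ^ (j + 3) * (p ^ k) ^ 2) * (w + 8) ^ 2 := Nat.mul_le_mul_right _ h1
      _ = (2 ^ D) ^ (j + 3) * (p ^ k * (w + 8)) ^ 2 := by ring
      _ < (2 ^ D) ^ (j + 3) * ((w + 9) ^ (D + 1)) ^ 2 :=
          Nat.mul_lt_mul_of_pos_left h4 (by positivity)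
      _ = _ := by ring
  -- cancel `((w+9)^D)^2`
  have h7 : ((w + 9) ^ D) ^ (j + 1) * (w + 8) ^ 2 < (2 ^ D) ^ (j + 3) * (w + 9) ^ 2 := by
    have h8 : ((w + 9) ^ D) ^ 2 * (((w + 9) ^ D) ^ (j + 1) * (w + 8) ^ 2)
        < ((w + 9) ^ D) ^ 2 * ((2 ^ D) ^ (j + 3) * (w + 9) ^ 2) := by
      calc _ = ((w + 9) ^ D) ^ (j + 3) * (w + 8) ^ 2 := by ring
        _ < _ := h6
        _ = _ := by ring
    exact Nat.lt_of_mul_lt_mul_left h8
  -- `(w+9)^(j+1) >= 9 * 2^j`, `8 * 2^j = 2^(j+3)`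
  have h8 : (9 * 2 ^ j) ^ D ≤ ((w + 9) ^ D) ^ (j + 1) := by
    rw [← pow_mul, mul_comm D (j + 1), pow_mul]
    refine Nat.pow_le_pow_left ?_ D
    rw [pow_succ, mul_comm]
    exact Nat.mul_le_mul (Nat.pow_le_pow_left (by omega) j) (by omega)
  have h9 : (2 ^ D) ^ (j + 3) = (8 * 2 ^ j) ^ D := by
    rw [← pow_mul, mul_comm D (j + 3), pow_mul]
    congr 1
    rw [pow_add]; ring
  rw [h9] at h7
  have h10 : (9 * 2 ^ j) ^ D * (w + 8) ^ 2 < (8 * 2 ^ j) ^ D * (w + 9) ^ 2 :=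
    lt_of_le_of_lt (Nat.mul_le_mul_right _ h8) h7
  rw [mul_pow, mul_pow] at h10
  have h11 : 9 ^ D * (w + 8) ^ 2 < 8 ^ D * (w + 9) ^ 2 := by
    have h12 : (2 ^ j) ^ D * (9 ^ D * (w + 8) ^ 2) < (2 ^ j) ^ D * (8 ^ D * (w + 9) ^ 2) := by
      calc _ = 9 ^ D * (2 ^ j) ^ D * (w + 8) ^ 2 := by ring
        _ < _ := h10
        _ = _ := by ring
    exact Nat.lt_of_mul_lt_mul_left h12
  -- but `(9/8)^D >= (9/8)^2 >= ((w+9)/(w+8))^2`
  obtain ⟨i, rfl⟩ : ∃ i, D = i + 2 := ⟨D - 2, by omega⟩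
  have h12 : 8 ^ i ≤ 9 ^ i := Nat.pow_le_pow_left (by norm_num) i
  have h13 : (8 * (w + 9)) ^ 2 ≤ (9 * (w + 8)) ^ 2 := Nat.pow_le_pow_left (by omega) 2
  have h14 : 8 ^ (i + 2) * (w + 9) ^ 2 ≤ 9 ^ (i + 2) * (w + 8) ^ 2 := by
    calc 8 ^ (i + 2) * (w + 9) ^ 2 = 8 ^ i * (8 * (w + 9)) ^ 2 := by ring
      _ ≤ 9 ^ i * (9 * (w + 8)) ^ 2 := Nat.mul_le_mul h12 h13
      _ = _ := by ring
  omega

/-- Numerical contradiction, exponent `4`. -/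
lemma Sol.num4 {p k q κ m : ℕ} (S : Sol d p k q) (hk : k = κ * m) (hκ : 5 ≤ κ) (hd5 : 5 ≤ d)
    (hq : 33 ≤ q) (h : q ^ (d - 1) ≤ 2 ^ (d - 1) * p ^ (4 * m)) : False := by
  obtain ⟨D, rfl⟩ : ∃ D, d = D + 1 := ⟨d - 1, by omega⟩
  rw [Nat.add_sub_cancel] at h
  obtain ⟨j, rfl⟩ : ∃ j, κ = j + 5 := ⟨κ - 5, by omega⟩
  have h1 := Nat.pow_le_pow_left h (j + 5)
  have h2 := S.upper
  have h3 : (p ^ (4 * m)) ^ (j + 5) = (p ^ k) ^ 4 := by
    rw [← pow_mul, ← pow_mul, hk]; congr 1; ring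
  rw [mul_pow, h3] at h1
  have h4 : (p ^ k * (q - 1)) ^ 4 < (q ^ (D + 1)) ^ 4 := Nat.pow_lt_pow_left h2 (by norm_num)
  obtain ⟨w, rfl⟩ : ∃ w, q = w + 33 := ⟨q - 33, by omega⟩
  have h5 : (w + 33 - 1) = w + 32 := by omega
  rw [h5] at h4
  have h6 : ((w + 33) ^ D) ^ (j + 5) * (w + 32) ^ 4
      < (2 ^ D) ^ (j + 5) * (((w + 33) ^ D) ^ 4 * (w + 33) ^ 4) := by
    calc ((w + 33) ^ D) ^ (j + 5) * (w + 32) ^ 4
        ≤ ((2 ^ D) ^ (j + 5) * (p ^ k) ^ 4) * (w + 32) ^ 4 := Nat.mul_le_mul_right _ h1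
      _ = (2 ^ D) ^ (j + 5) * (p ^ k * (w + 32)) ^ 4 := by ring
      _ < (2 ^ D) ^ (j + 5) * ((w + 33) ^ (D + 1)) ^ 4 :=
          Nat.mul_lt_mul_of_pos_left h4 (by positivity)
      _ = _ := by ring
  have h7 : ((w + 33) ^ D) ^ (j + 1) * (w + 32) ^ 4 < (2 ^ D) ^ (j + 5) * (w + 33) ^ 4 := by
    have h8 : ((w + 33) ^ D) ^ 4 * (((w + 33) ^ D) ^ (j + 1) * (w + 32) ^ 4)
        < ((w + 33) ^ D) ^ 4 * ((2 ^ D) ^ (j + 5) * (w + 33) ^ 4) := by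
      calc _ = ((w + 33) ^ D) ^ (j + 5) * (w + 32) ^ 4 := by ring
        _ < _ := h6
        _ = _ := by ring
    exact Nat.lt_of_mul_lt_mul_left h8
  have h8 : (33 * 2 ^ j) ^ D ≤ ((w + 33) ^ D) ^ (j + 1) := by
    rw [← pow_mul, mul_comm D (j + 1), pow_mul]
    refine Nat.pow_le_pow_left ?_ D
    rw [pow_succ, mul_comm]
    exact Nat.mul_le_mul (Nat.pow_le_pow_left (by omega) j) (by omega)
  have h9 : (2 ^ D) ^ (j + 5) = (32 * 2 ^ j) ^ D := by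
    rw [← pow_mul, mul_comm D (j + 5), pow_mul]
    congr 1
    rw [pow_add]; ring
  rw [h9] at h7
  have h10 : (33 * 2 ^ j) ^ D * (w + 32) ^ 4 < (32 * 2 ^ j) ^ D * (w + 33) ^ 4 :=
    lt_of_le_of_lt (Nat.mul_le_mul_right _ h8) h7
  rw [mul_pow, mul_pow] at h10
  have h11 : 33 ^ D * (w + 32) ^ 4 < 32 ^ D * (w + 33) ^ 4 := by
    have h12 : (2 ^ j) ^ D * (33 ^ D * (w + 32) ^ 4) < (2 ^ j) ^ D * (32 ^ D * (w + 33) ^ 4) := by
      calc _ = 33 ^ D * (2 ^ j) ^ D * (w + 32) ^ 4 := by ring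
        _ < _ := h10
        _ = _ := by ring
    exact Nat.lt_of_mul_lt_mul_left h12
  obtain ⟨i, rfl⟩ : ∃ i, D = i + 4 := ⟨D - 4, by omega⟩
  have h12 : 32 ^ i ≤ 33 ^ i := Nat.pow_le_pow_left (by norm_num) i
  have h13 : (32 * (w + 33)) ^ 4 ≤ (33 * (w + 32)) ^ 4 := Nat.pow_le_pow_left (by omega) 4
  have h14 : 32 ^ (i + 4) * (w + 33) ^ 4 ≤ 33 ^ (i + 4) * (w + 32) ^ 4 := by
    calc 32 ^ (i + 4) * (w + 33) ^ 4 = 32 ^ i * (32 * (w + 33)) ^ 4 := by ring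
      _ ≤ 33 ^ i * (33 * (w + 32)) ^ 4 := Nat.mul_le_mul h12 h13
      _ = _ := by ring
  omega

omit hd in
/-- The cyclotomic field as a model. -/
lemma cyc_model (d : ℕ) [hd : Fact d.Prime] :
    IsCyclotomicExtension {d} ℚ (CyclotomicField d ℚ) := by
  have h := CyclotomicField.isCyclotomicExtension d ℚ
  convert h
  · rfl
  · exact Subsingleton.elim _ _

omit hd in
/-- The prime divisors of `k` divide the class number. -/
theorem classNumber_dvd {d p k r e κ : ℕ} (hd4 : 4 ≤ d) (hp : p.Prime) (hr : r.Prime)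
    (he : 1 ≤ e) (hκ : κ.Prime) (hκk : κ ∣ k) (hκ2 : κ ≠ 2) (hκr : κ ∣ r - 1)
    (hq : 9 ≤ r ^ e) (h : ((r ^ e) ^ d - 1) / (r ^ e - 1) = p ^ k) (hk : 1 < k) :
    κ ∣ NumberField.classNumber (CyclotomicField d ℚ) := by
  have S := sol_of_eq (by omega) hp hr he hk h
  have hdp : d.Prime := d_prime S.hq (by omega) hp S.eq
  have hd : Fact d.Prime := ⟨hdp⟩
  have hpf : Fact p.Prime := ⟨hp⟩
  have hC := cyc_model d
  by_contra hcl
  obtain ⟨m, hm⟩ := hκk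
  have hκ3 : 3 ≤ κ := by have := hκ.two_le; omega
  have hrd := S.not_dvd_r hr
  have hcop : Nat.Coprime κ (2 * d) := by
    refine Nat.Coprime.mul_right ?_ ?_
    · exact (Nat.coprime_primes hκ Nat.prime_two).mpr hκ2
    · rw [Nat.coprime_comm, Nat.Prime.coprime_iff_not_dvd hdp]
      exact fun h => hrd (h.trans hκr)
  have D : Dat r e κ (r ^ e) := ⟨hr, he, rfl, hκr⟩
  obtain ⟨ρ, hρ, hρ1⟩ := S.exists_adm hr
  have h1 : S.cl (CyclotomicField d ℚ) m 1 = 1 := by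
    rw [Sol.cl, ClassGroup.mk0_eq_one_iff]
    refine Ideal.IsPrincipal.of_isPrincipal_pow_of_coprime (n := κ) ?_ ?_
    · exact (Nat.Prime.coprime_iff_not_dvd hκ).mpr hcl
    · rw [← pow_mul, mul_comm m κ, ← hm, S.pr_pow]
      exact ⟨⟨_, rfl⟩⟩
  exact S.num2 hm hκ3 hd4 hq (S.ineqC D hm (by omega) hcop hρ hρ1 1 h1)

omit hd in
/-- The class group has many elements of order dividing `kappa`. -/
theorem classRank {d p k r e κ : ℕ} (hd4 : 4 ≤ d) (hp : p.Prime) (hr : r.Prime)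
    (he : 1 ≤ e) (hκ : κ.Prime) (hκk : κ ∣ k) (hκ2 : κ ≠ 2) (hκr : κ ∣ r - 1)
    (hq : 33 ≤ r ^ e) (h : ((r ^ e) ^ d - 1) / (r ^ e - 1) = p ^ k) (hk : 1 < k)
    (hc : 5 ≤ κ ∨ r = d ∨ ∃ j : ℕ, d ∣ r ^ j + 1) :
    d ≤ Nat.card {c : ClassGroup (𝓞 (CyclotomicField d ℚ)) // c ^ κ = 1} := by
  have S := sol_of_eq (by omega) hp hr he hk h
  have hdp : d.Prime := d_prime S.hq (by omega) hp S.eq
  have hd : Fact d.Prime := ⟨hdp⟩
  have hpf : Fact p.Prime := ⟨hp⟩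
  have hC := cyc_model d
  by_contra hcl
  obtain ⟨m, hm⟩ := hκk
  have hκ3 : 3 ≤ κ := by have := hκ.two_le; omega
  have hrd := S.not_dvd_r hr
  have hd5 : 5 ≤ d := by
    rcases Nat.lt_or_ge 4 d with h1 | h1
    · exact h1
    · have : d = 4 := by omega
      rw [this] at hdp
      exact absurd hdp (by norm_num)
  have hcop : Nat.Coprime κ (2 * d) := by
    refine Nat.Coprime.mul_right ?_ ?_
    · exact (Nat.coprime_primes hκ Nat.prime_two).mpr hκ2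
    · rw [Nat.coprime_comm, Nat.Prime.coprime_iff_not_dvd hdp]
      exact fun h => hrd (h.trans hκr)
  have D : Dat r e κ (r ^ e) := ⟨hr, he, rfl, hκr⟩
  obtain ⟨ρ, hρ, hρ1⟩ := S.exists_adm hr
  rcases S.count (K := CyclotomicField d ℚ) hm (by omega) with ⟨t, h1⟩ | ⟨s, t, hst, h1⟩
  · exact S.num2 hm hκ3 hd4 (by omega) (S.ineqC D hm (by omega) hcop hρ hρ1 t h1)
  · rcases hc with h5 | hrd'
    · exact S.num4 hm h5 hd5 hq (S.ineqD D hm (by omega) hcop hρ hρ1 hst h1)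
    · exact S.num2 hm hκ3 hd4 (by omega)
        (S.ineqD' D hm (by omega) hcop (hκ.odd_of_ne_two hκ2) hrd' hst h1)

end

end Pool.Agent.H26.NL
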