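import Pool.Agent.H26.NL.Weight

/-!
# Frobenius at `r` and the congruence `sigma_r x = x mod q`
-/

set_option autoImplicit false

namespace Pool.Agent.H26.NL

open NumberField Polynomial

noncomputable section

/-- Rigidity of `k`-torsion. -/
lemma rigid {R : Type*} [CommRing R] {a b r : R} {k e : ℕ} (hk : 1 ≤ k)
    (hkr : IsCoprime r (k : R)) (h1 : r ^ e ∣ a ^ k - b ^ k) (h2 : r ∣ a - b)
    (h3 : r ∣ a ^ k - 1) : r ^ e ∣ a - b := by
  set T := ∑ i ∈ Finset.range k, a ^ i * b ^ (k - 1 - i) with hT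
  have h4 : (a - b) * T = a ^ k - b ^ k := (Commute.all a b).mul_geom_sum₂ k
  have h5 : r ∣ T - (k : R) * a ^ (k - 1) := by
    have h6 : (k : R) * a ^ (k - 1) = ∑ i ∈ Finset.range k, a ^ i * a ^ (k - 1 - i) := by
      have : ∀ i ∈ Finset.range k, a ^ i * a ^ (k - 1 - i) = a ^ (k - 1) := by
        intro i hi
        have := Finset.mem_range.mp hi
        rw [← pow_add]
        congr 1
        omega
      rw [Finset.sum_congr rfl this, Finset.sum_const, Finset.card_range, nsmul_eq_mul]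
    rw [h6, hT, ← Finset.sum_sub_distrib]
    refine Finset.dvd_sum fun i _ => ?_
    rw [← mul_sub]
    refine dvd_mul_of_dvd_right ?_ _
    have h7 : a - b ∣ a ^ (k - 1 - i) - b ^ (k - 1 - i) := sub_dvd_pow_sub_pow _ _ _
    have h8 := h2.trans h7
    rw [← dvd_neg, neg_sub]
    exact h8
  have h6 : IsCoprime r (a ^ (k - 1)) := by
    obtain ⟨y, hy⟩ := h3
    refine ⟨-y, a, ?_⟩
    have h7 : a * a ^ (k - 1) = a ^ k := by
      rw [← pow_succ']; congr 1; omega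
    rw [h7]
    linear_combination hy
  have h7 : IsCoprime r T := by
    obtain ⟨y, hy⟩ := h5
    have h8 := hkr.mul_right h6
    have h9 : T = (k : R) * a ^ (k - 1) + r * y := by linear_combination hy
    rw [h9]
    exact IsCoprime.add_mul_left_right h8 y
  rw [← h4] at h1
  exact (h7.pow_left (m := e)).dvd_of_dvd_mul_right h1

variable {d : ℕ} [hd : Fact d.Prime] {K : Type} [Field K] [NumberField K]
  [IsCyclotomicExtension {d} ℚ K]

/-- `f(zeta)^r = f(zeta^r) mod r`. -/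
lemma frob_poly (r : ℕ) (hr : r.Prime) (z : 𝓞 K) (f : ℤ[X]) :
    (r : 𝓞 K) ∣ (aeval z f) ^ r - aeval (z ^ r) f := by
  have : Fact r.Prime := ⟨hr⟩
  have h1 : C (r : ℤ) ∣ f ^ r - expand ℤ r f := by
    rw [C_dvd_iff_dvd_coeff]
    intro i
    rw [← ZMod.intCast_zmod_eq_zero_iff_dvd]
    have h2 : (f ^ r - expand ℤ r f).map (Int.castRingHom (ZMod r)) = 0 := by
      rw [Polynomial.map_sub, Polynomial.map_pow, map_expand, ZMod.expand_card, sub_self]
    have h3 : ((f ^ r - expand ℤ r f).map (Int.castRingHom (ZMod r))).coeff i = 0 := by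
      rw [h2, coeff_zero]
    rw [coeff_map] at h3
    exact h3
  obtain ⟨g, hg⟩ := h1
  refine ⟨aeval z g, ?_⟩
  have h4 := congrArg (aeval z) hg
  rw [map_sub, map_pow, map_mul, aeval_C, expand_aeval] at h4
  simpa using h4

lemma frob_sg (r : ℕ) (hr : r.Prime) (ρ : (ZMod d)ˣ) (hρ : (ρ : ZMod d) = (r : ZMod d))
    (x : 𝓞 K) : (r : 𝓞 K) ∣ x ^ r - sg ρ x := by
  obtain ⟨f, rfl⟩ := exists_poly (d := d) x
  have h1 : sg ρ (aeval (zt d K) f) = aeval (zt d K ^ r) f := by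
    rw [aeval_def, aeval_def, hom_eval₂, sg_zt, hρ, pow_val_eq (zt_spec d K).pow_eq_one]
    congr 1
    exact RingHom.ext_int _ _
  rw [h1]
  exact frob_poly r hr _ f

/-- Data: `q = r^e`, `k | r - 1`. -/
structure Dat (r e k q : ℕ) : Prop where
  hr : r.Prime
  he : 1 ≤ e
  hq : q = r ^ e
  hk : k ∣ r - 1

lemma Dat.coprime {R : Type*} [CommRing R] {r e k q : ℕ} (D : Dat r e k q) :
    IsCoprime (r : R) (k : R) := by
  have h1 : Nat.Coprime r k := by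
    have h2 : Nat.Coprime r (r - 1) := by
      have := D.hr.one_lt
      have h3 := Nat.coprime_self_sub_left (m := 1) (n := r) (by omega)
      rw [Nat.coprime_comm]
      rw [h3]
      exact Nat.coprime_one_left r
    exact Nat.Coprime.coprime_dvd_right D.hk h2
  have := (Nat.isCoprime_iff_coprime.mpr h1).map (Int.castRingHom R)
  simpa using this

lemma WW.pow_r {p r e k q : ℕ} (D : Dat r e k q) {A : Finset (ZMod d)ˣ} {x : 𝓞 K}
    (hx : WW p k q A x) : (r : 𝓞 K) ∣ x ^ r - x := by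
  obtain ⟨c, hc⟩ := D.hk
  have h1 : (r : 𝓞 K) ∣ (q : 𝓞 K) := by
    rw [D.hq]; push_cast
    exact dvd_pow_self _ (by have := D.he; omega)
  have h2 : (r : 𝓞 K) ∣ x ^ k - 1 := h1.trans hx.pow_sub_one
  have h3 : x ^ k - 1 ∣ (x ^ k) ^ c - 1 := by
    have := sub_dvd_pow_sub_pow (x ^ k) 1 c
    rwa [one_pow] at this
  have h4 := h2.trans h3
  have h5 : x ^ r - x = x * ((x ^ k) ^ c - 1) := by
    rw [← pow_mul, ← hc, mul_sub, mul_one, ← pow_succ', Nat.sub_add_cancel D.hr.one_lt.le]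
  rw [h5]
  exact dvd_mul_of_dvd_right h4 _

/-- Lifting a congruence mod `r` to one mod `q`. -/
lemma WW.lift {p r e k q : ℕ} (hk1 : 1 ≤ k) (D : Dat r e k q) {A : Finset (ZMod d)ˣ} {x : 𝓞 K}
    (hx : WW p k q A x) (t : (ZMod d)ˣ) (h : (r : 𝓞 K) ∣ sg t x - x) :
    (q : 𝓞 K) ∣ sg t x - x := by
  have h1 : (q : 𝓞 K) ∣ x ^ k - 1 := hx.pow_sub_one
  have h2 : (q : 𝓞 K) ∣ (sg t x) ^ k - 1 := by
    have := map_dvd (sg (K := K) t) h1
    rwa [map_sub, map_pow, map_one, map_natCast] at this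
  have hrq : (r : 𝓞 K) ∣ (q : 𝓞 K) := by
    rw [D.hq]; push_cast
    exact dvd_pow_self _ (by have := D.he; omega)
  have hqe : (q : 𝓞 K) = (r : 𝓞 K) ^ e := by rw [D.hq]; push_cast; rfl
  rw [hqe]
  refine rigid hk1 D.coprime ?_ h (hrq.trans h2)
  rw [← hqe]
  have := dvd_sub h2 h1
  simpa using this

/-- The congruence for `r` prime to `d`. -/
lemma WW.cong {p r e k q : ℕ} (hk1 : 1 ≤ k) (D : Dat r e k q) {A : Finset (ZMod d)ˣ} {x : 𝓞 K}
    (hx : WW p k q A x) (ρ : (ZMod d)ˣ) (hρ : (ρ : ZMod d) = (r : ZMod d)) :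
    (q : 𝓞 K) ∣ sg ρ x - x := by
  refine hx.lift hk1 D ρ ?_
  have := dvd_sub (hx.pow_r D) (frob_sg r D.hr ρ hρ x)
  simpa using this

/-- The congruence for `r = d`. -/
lemma WW.cong_d {p r e k q : ℕ} (hk1 : 1 ≤ k) (D : Dat r e k q) (hrd : r = d)
    {A : Finset (ZMod d)ˣ} {x : 𝓞 K} (hx : WW p k q A x) (t : (ZMod d)ˣ) :
    (q : 𝓞 K) ∣ sg t x - x := by
  refine hx.lift hk1 D t ?_
  have h1 := hx.pow_r D
  obtain ⟨f, hf⟩ := exists_poly (d := d) x
  have h2 := frob_poly r D.hr (zt d K) f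
  rw [← hf, hrd, (zt_spec d K).pow_eq_one, ← hrd] at h2
  have h3 : aeval (1 : 𝓞 K) f = ((f.eval 1 : ℤ) : 𝓞 K) := by
    rw [aeval_def]
    simp
  rw [h3] at h2
  have h4 : (r : 𝓞 K) ∣ x - ((f.eval 1 : ℤ) : 𝓞 K) := by
    have := dvd_sub h2 h1
    have h5 : x ^ r - ((f.eval 1 : ℤ) : 𝓞 K) - (x ^ r - x) = x - ((f.eval 1 : ℤ) : 𝓞 K) := by ring
    rwa [h5] at this
  have h5 : (r : 𝓞 K) ∣ sg t x - ((f.eval 1 : ℤ) : 𝓞 K) := by
    have := map_dvd (sg (K := K) t) h4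
    rwa [map_natCast, map_sub, map_intCast] at this
  have := dvd_sub h5 h4
  simpa using this

/-- Iteration. -/
lemma cong_iter {q : ℕ} {x : 𝓞 K} {ρ : (ZMod d)ˣ} (h : (q : 𝓞 K) ∣ sg ρ x - x) (j : ℕ) :
    (q : 𝓞 K) ∣ sg (ρ ^ j) x - x := by
  induction j with
  | zero => rw [pow_zero, sg_one, sub_self]; exact dvd_zero _
  | succ j ih =>
    rw [pow_succ', sg_mul]
    have := map_dvd (sg (K := K) ρ) ih
    rw [map_natCast, map_sub] at this
    have h2 := dvd_add this h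
    simpa using h2

/-- In the case of Theorem A every normalised element is congruent to `p^((k+1)/2)`. -/
lemma WW.cong_p {p k q : ℕ} (hk : Odd k) {A : Finset (ZMod d)ˣ} {x : 𝓞 K}
    (hx : WW p k q A x) (h : (q : 𝓞 K) ∣ sg (-1 : (ZMod d)ˣ) x - x) :
    (q : 𝓞 K) ∣ x - (p : 𝓞 K) ^ ((k + 1) / 2) := by
  obtain ⟨m, hm⟩ := hk
  have hk2 : (k + 1) / 2 = m + 1 := by omega
  rw [hk2]
  have h1 : (q : 𝓞 K) ∣ x ^ 2 - (p : 𝓞 K) := by
    have h2 : x ^ 2 - (p : 𝓞 K) = -(x * (sg (-1 : (ZMod d)ˣ) x - x)) := by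
      rw [← hx.norm]; ring
    rw [h2, dvd_neg]
    exact dvd_mul_of_dvd_right h _
  have h2 : (q : 𝓞 K) ∣ (x ^ 2) ^ (m + 1) - (p : 𝓞 K) ^ (m + 1) :=
    h1.trans (sub_dvd_pow_sub_pow _ _ _)
  have h3 : (q : 𝓞 K) ∣ x * (x ^ k - 1) := dvd_mul_of_dvd_right hx.pow_sub_one _
  have h4 := dvd_sub h2 h3
  have h5 : (x ^ 2) ^ (m + 1) - (p : 𝓞 K) ^ (m + 1) - x * (x ^ k - 1)
      = x - (p : 𝓞 K) ^ (m + 1) := by
    rw [hm]; ring
  rwa [h5] at h4

end

end Pool.Agent.H26.NL
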