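import Pool.Agent.H26.NL.Prod

/-!
# Jacobi sums of characters of order `d` of `F_p`
-/

set_option autoImplicit false

namespace Pool.Agent.H26.NL

open NumberField Polynomial

noncomputable section

/-- Power sums of polynomials of small degree vanish. -/
lemma sum_pow_mul_zero {p : ℕ} [hp : Fact p.Prime] (A B : ℕ) (h : A + B < p - 1) :
    ∑ x : ZMod p, x ^ A * (1 - x) ^ B = 0 := by
  have key : ∀ f : (ZMod p)[X], f.natDegree < p - 1 → ∑ x : ZMod p, f.eval x = 0 := by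
    intro f hf
    simp only [eval_eq_sum_range]
    rw [Finset.sum_comm]
    refine Finset.sum_eq_zero fun i hi => ?_
    rw [← Finset.mul_sum, FiniteField.sum_pow_lt_card_sub_one, mul_zero]
    rw [ZMod.card]
    have := Finset.mem_range.mp hi
    omega
  have h1 := key (X ^ A * (1 - X) ^ B) (by
    refine lt_of_le_of_lt ?_ h
    refine natDegree_mul_le.trans ?_
    refine add_le_add ?_ ?_
    · exact natDegree_X_pow_le A
    · refine natDegree_pow_le.trans ?_
      have : (1 - X : (ZMod p)[X]).natDegree ≤ 1 := by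
        refine (natDegree_sub_le _ _).trans ?_
        simp
      nlinarith)
  simpa using h1

variable {d : ℕ} [hd : Fact d.Prime] {K : Type} [Field K] [NumberField K]
  [IsCyclotomicExtension {d} ℚ K]

lemma Sol.dvd_sub_one {p k q : ℕ} (S : Sol d p k q) [hp : Fact p.Prime] : d ∣ p - 1 := by
  have := ZMod.orderOf_dvd_card_sub_one (p := p) (a := (q : ZMod p)⁻¹)
    (inv_ne_zero S.q_ne)
  rwa [S.orderOf_w] at this

/-- A character with `phi (chi x) = x^((p-1)/d)`. -/
lemma Sol.exists_char {p k q : ℕ} (S : Sol d p k q) [hp : Fact p.Prime] :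
    ∃ χ : MulChar (ZMod p) (𝓞 K), (∀ x, S.phi (χ x) = x ^ ((p - 1) / d)) ∧
      (∀ x, x ≠ 0 → (χ x) ^ d = 1) ∧ χ ≠ 1 := by
  obtain ⟨g, hg⟩ := IsCyclic.exists_generator (α := (ZMod p)ˣ)
  set m := (p - 1) / d with hm
  have hmd : m * d = p - 1 := Nat.div_mul_cancel S.dvd_sub_one
  have hp1 : 0 < p - 1 := by have := hp.out.two_le; omega
  have hm0 : 0 < m := by
    rcases Nat.eq_zero_or_pos m with h | h
    · rw [h, zero_mul] at hmd; omega
    · exact h
  have hprim : IsPrimitiveRoot ((q : ZMod p)⁻¹) d := by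
    have := IsPrimitiveRoot.orderOf ((q : ZMod p)⁻¹)
    rwa [S.orderOf_w] at this
  have hgm : ((g : ZMod p) ^ m) ^ d = 1 := by
    rw [← pow_mul, hmd, ZMod.pow_card_sub_one_eq_one g.ne_zero]
  obtain ⟨c, hc, hcg⟩ := hprim.eq_pow_of_pow_eq_one hgm
  have hun : IsUnit (zt d K ^ c) := (((zt_spec d K).isUnit (NeZero.ne d)).pow c)
  have hroot : hun.unit ∈ rootsOfUnity (Fintype.card (ZMod p)ˣ) (𝓞 K) := by
    rw [mem_rootsOfUnity, ZMod.card_units, ← hmd]
    apply Units.ext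
    push_cast
    rw [IsUnit.unit_spec, mul_comm m d, pow_mul, zt_pow_pow, one_pow]
  refine ⟨MulChar.ofRootOfUnity hroot hg, ?_⟩
  set χ := MulChar.ofRootOfUnity hroot hg with hχ
  have hχg : χ g = zt d K ^ c := by
    have := MulChar.ofRootOfUnity_spec hroot hg
    rw [hχ, this, IsUnit.unit_spec]
  have hpow : ∀ x : (ZMod p)ˣ, ∃ j : ℕ, x = g ^ j := by
    intro x
    have := mem_powers_iff_mem_zpowers.mpr (hg x)
    obtain ⟨j, hj⟩ := this
    exact ⟨j, hj.symm⟩
  refine ⟨?_, ?_, ?_⟩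
  · intro x
    by_cases hx : x = 0
    · rw [hx, MulChar.map_zero, map_zero, zero_pow hm0.ne']
    · obtain ⟨j, hj⟩ := hpow (Units.mk0 x hx)
      have hx' : x = (g : ZMod p) ^ j := by
        have := congrArg Units.val hj
        simpa using this
      rw [hx', map_pow, map_pow, hχg, map_pow, S.phi_zt, hcg, ← pow_mul, ← pow_mul, mul_comm]
  · intro x hx
    obtain ⟨j, hj⟩ := hpow (Units.mk0 x hx)
    have hx' : x = (g : ZMod p) ^ j := by
      have := congrArg Units.val hj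
      simpa using this
    rw [hx', map_pow, hχg, ← pow_mul, mul_comm j d, pow_mul, zt_pow_pow, one_pow]
  · intro h1
    have h2 : zt d K ^ c = 1 := by
      rw [← hχg, h1, MulChar.one_apply_coe]
    have h3 : d ∣ c := (zt_spec d K).dvd_of_pow_eq_one _ h2
    have h4 : c = 0 := Nat.eq_zero_of_dvd_of_lt h3 hc
    rw [h4, pow_zero] at hcg
    have h5 : g ^ m = 1 := Units.ext (by push_cast; exact hcg.symm)
    have h6 : orderOf g ∣ m := orderOf_dvd_of_pow_eq_one h5
    have h7 : orderOf g = p - 1 := by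
      rw [orderOf_eq_card_of_forall_mem_zpowers hg, Nat.card_eq_fintype_card, ZMod.card_units]
    rw [h7] at h6
    have h8 := Nat.le_of_dvd hm0 h6
    have h9 := S.hd2
    nlinarith

/-- Reduction of exponents. -/
lemma pow_red {p : ℕ} [hp : Fact p.Prime] {m : ℕ} (hmd : m * d = p - 1) (hm : 0 < m) (x : ZMod p)
    (n : ℕ) (hn : ¬ d ∣ n) : x ^ (m * n) = x ^ (m * (n : ZMod d).val) := by
  have h0 : (n : ZMod d).val ≠ 0 := by
    intro h
    rw [ZMod.val_eq_zero, ZMod.natCast_eq_zero_iff] at h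
    exact hn h
  have hn0 : n ≠ 0 := by rintro rfl; exact hn (dvd_zero d)
  by_cases hx : x = 0
  · rw [hx, zero_pow (Nat.mul_ne_zero hm.ne' hn0), zero_pow (Nat.mul_ne_zero hm.ne' h0)]
  · rw [pow_mul, pow_mul]
    refine (pow_val_eq ?_ n).symm
    rw [← pow_mul, hmd, ZMod.pow_card_sub_one_eq_one hx]

/-- The set of exponents. -/
def AA (d : ℕ) [Fact d.Prime] (a b : ℕ) : Finset (ZMod d)ˣ :=
  Finset.univ.filter fun t => ((a : ZMod d) * t).val + ((b : ZMod d) * t).val < d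

lemma sg_char {p : ℕ} [hp : Fact p.Prime] {χ : MulChar (ZMod p) (𝓞 K)}
    (hχ : ∀ x, x ≠ 0 → (χ x) ^ d = 1) (t : (ZMod d)ˣ) (x : ZMod p) :
    sg t (χ x) = (χ x) ^ (t : ZMod d).val := by
  by_cases hx : x = 0
  · rw [hx, MulChar.map_zero, map_zero, zero_pow]
    intro h; exact unit_val_ne t (h ▸ dvd_zero d)
  · exact sg_root t (hχ x hx)

/-- The congruence: `phi (sigma_t J) = 0` for `t` in `AA a b`. -/
lemma Sol.phi_jac {p k q : ℕ} (S : Sol d p k q) [hp : Fact p.Prime]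
    {χ : MulChar (ZMod p) (𝓞 K)} (h1 : ∀ x, S.phi (χ x) = x ^ ((p - 1) / d))
    (h2 : ∀ x, x ≠ 0 → (χ x) ^ d = 1) {a b : ℕ} (ha : ¬ d ∣ a) (hb : ¬ d ∣ b) {t : (ZMod d)ˣ}
    (ht : ((a : ZMod d) * t).val + ((b : ZMod d) * t).val < d) :
    S.phi (sg t (jacobiSum (χ ^ a) (χ ^ b))) = 0 := by
  set m := (p - 1) / d with hm
  have hmd : m * d = p - 1 := Nat.div_mul_cancel S.dvd_sub_one
  have hp1 : 0 < p - 1 := by have := hp.out.two_le; omega
  have hm0 : 0 < m := by
    rcases Nat.eq_zero_or_pos m with h | h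
    · rw [h, zero_mul] at hmd; omega
    · exact h
  have ha0 : a ≠ 0 := by rintro rfl; exact ha (dvd_zero d)
  have hb0 : b ≠ 0 := by rintro rfl; exact hb (dvd_zero d)
  have hta : ¬ d ∣ a * (t : ZMod d).val := by
    intro h
    rcases (Nat.Prime.dvd_mul hd.out).mp h with h | h
    · exact ha h
    · exact unit_val_ne t h
  have htb : ¬ d ∣ b * (t : ZMod d).val := by
    intro h
    rcases (Nat.Prime.dvd_mul hd.out).mp h with h | h
    · exact hb h
    · exact unit_val_ne t h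
  have hterm : ∀ x : ZMod p, ∀ c : ℕ, c ≠ 0 → ¬ d ∣ c * (t : ZMod d).val →
      S.phi (sg t ((χ ^ c) x)) = x ^ (m * ((c : ZMod d) * t).val) := by
    intro x c hc htc
    rw [MulChar.pow_apply' χ hc, map_pow, sg_char h2, map_pow, map_pow, h1, ← pow_mul, ← pow_mul,
      mul_comm (t : ZMod d).val c, pow_red hmd hm0 x _ htc]
    congr 3
    push_cast
    rw [ZMod.natCast_zmod_val]
  rw [jacobiSum, map_sum, map_sum]
  rw [Finset.sum_congr rfl (fun x _ => by
    rw [map_mul, map_mul, hterm x a ha0 hta, hterm (1 - x) b hb0 htb])]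
  apply sum_pow_mul_zero
  rw [← mul_add, ← hmd]
  exact Nat.mul_lt_mul_of_pos_left ht hm0

/-- The absolute value of a Jacobi sum. -/
lemma jac_norm {p : ℕ} [hp : Fact p.Prime]
    {χ : MulChar (ZMod p) (𝓞 K)} (h2 : ∀ x, x ≠ 0 → (χ x) ^ d = 1) (h3 : χ ≠ 1)
    {a b : ℕ} (ha : ¬ d ∣ a) (hb : ¬ d ∣ b) (hab : ¬ d ∣ a + b) :
    jacobiSum (χ ^ a) (χ ^ b) * sg (-1 : (ZMod d)ˣ) (jacobiSum (χ ^ a) (χ ^ b)) = (p : 𝓞 K) := by
  have hχd : χ ^ d = 1 := by
    ext x
    rw [MulChar.pow_apply_coe, MulChar.one_apply_coe, h2 _ x.ne_zero]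
  have hord : orderOf χ = d := orderOf_eq_prime hχd h3
  have hne : ∀ c : ℕ, ¬ d ∣ c → χ ^ c ≠ 1 := by
    intro c hc h
    apply hc
    rw [← hord]
    exact orderOf_dvd_of_pow_eq_one h
  set ι : 𝓞 K →+* K := algebraMap (𝓞 K) K with hι
  have hinj : Function.Injective ι := FaithfulSMul.algebraMap_injective (𝓞 K) K
  have hinv : ∀ c : ℕ, (χ ^ c).ringHomComp (sg (-1 : (ZMod d)ˣ)) = (χ ^ c)⁻¹ := by
    intro c
    apply eq_inv_of_mul_eq_one_left
    ext x
    rw [MulChar.mul_apply, MulChar.ringHomComp_apply, MulChar.one_apply_coe,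
      MulChar.pow_apply_coe, map_pow, sg_char h2, ← mul_pow]
    have h4 : χ (x : ZMod p) ^ ((-1 : (ZMod d)ˣ) : ZMod d).val * χ (x : ZMod p) = 1 := by
      have h5 := h2 x x.ne_zero
      have : χ (x : ZMod p) ^ ((-1 : (ZMod d)ˣ) : ZMod d).val * χ (x : ZMod p)
          = χ (x : ZMod p) ^ (((((-1 : (ZMod d)ˣ) : ZMod d).val + 1 : ℕ) : ZMod d)).val := by
        rw [pow_val_eq h5, pow_succ]
      rw [this]
      simp
    rw [h4, one_pow]
  have hconj : sg (-1 : (ZMod d)ˣ) (jacobiSum (χ ^ a) (χ ^ b))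
      = jacobiSum (χ ^ a)⁻¹ (χ ^ b)⁻¹ := by
    rw [← jacobiSum_ringHomComp, hinv, hinv]
  rw [hconj]
  apply hinj
  rw [map_mul, map_natCast, ← jacobiSum_ringHomComp, ← jacobiSum_ringHomComp]
  have hcomp : ∀ ψ : MulChar (ZMod p) (𝓞 K), (ψ⁻¹).ringHomComp ι = (ψ.ringHomComp ι)⁻¹ := by
    intro ψ
    apply eq_inv_of_mul_eq_one_left
    ext x
    rw [MulChar.mul_apply, MulChar.ringHomComp_apply, MulChar.ringHomComp_apply, ← map_mul,
      ← MulChar.mul_apply, inv_mul_cancel, MulChar.one_apply_coe, MulChar.one_apply_coe, map_one]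
  have hne' : ∀ ψ : MulChar (ZMod p) (𝓞 K), ψ ≠ 1 → ψ.ringHomComp ι ≠ 1 := by
    intro ψ h h'
    apply h
    refine MulChar.ext fun x => ?_
    have := DFunLike.congr_fun h' (x : ZMod p)
    rw [MulChar.ringHomComp_apply, MulChar.one_apply_coe] at this
    rw [MulChar.one_apply_coe]
    exact hinj (this.trans (map_one ι).symm)
  rw [hcomp, hcomp, jacobiSum_mul_jacobiSum_inv, ZMod.card]
  · rw [ringChar.eq_zero, ZMod.ringChar_zmod_n]
    exact hp.out.ne_zero.symm
  · exact hne' _ (hne a ha)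
  · exact hne' _ (hne b hb)
  · have hm : (χ ^ a).ringHomComp ι * (χ ^ b).ringHomComp ι = (χ ^ (a + b)).ringHomComp ι := by
      ext x
      rw [pow_add, MulChar.mul_apply, MulChar.ringHomComp_apply, MulChar.ringHomComp_apply,
        MulChar.ringHomComp_apply, MulChar.mul_apply, map_mul]
    rw [hm]
    exact hne' _ (hne _ hab)

end

end Pool.Agent.H26.NL
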