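import Pool.Agent.H26.NL.Weight

/-!
# The sets `AA d 1 2` and `AA d 2 2`
-/

set_option autoImplicit false

namespace Pool.Agent.H26.NL

noncomputable section

variable {d : ℕ} [hd : Fact d.Prime]

lemma two_mul_val (h2 : 2 < d) (t : (ZMod d)ˣ) :
    (((2 : ℕ) : ZMod d) * t).val =
      if 2 * (t : ZMod d).val < d then 2 * (t : ZMod d).val else 2 * (t : ZMod d).val - d := by
  have h1 := ZMod.val_lt (t : ZMod d)
  have h3 : (((2 : ℕ) : ZMod d)).val = 2 := by
    rw [ZMod.val_natCast, Nat.mod_eq_of_lt h2]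
  rw [ZMod.val_mul, h3]
  split_ifs with h
  · exact Nat.mod_eq_of_lt h
  · rw [Nat.mod_eq_sub_mod (by omega), Nat.mod_eq_of_lt (by omega)]

lemma one_mul_val (t : (ZMod d)ˣ) : (((1 : ℕ) : ZMod d) * t).val = (t : ZMod d).val := by
  simp

lemma mem_A12 (h2 : 2 < d) (t : (ZMod d)ˣ) :
    t ∈ AA d 1 2 ↔ 3 * (t : ZMod d).val < d ∨
      (d ≤ 2 * (t : ZMod d).val ∧ 3 * (t : ZMod d).val < 2 * d) := by
  simp only [AA, Finset.mem_filter, Finset.mem_univ, true_and]
  rw [one_mul_val, two_mul_val h2]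
  split_ifs with h <;> omega

lemma mem_A22 (h2 : 2 < d) (t : (ZMod d)ˣ) :
    t ∈ AA d 2 2 ↔ 4 * (t : ZMod d).val < d ∨
      (d ≤ 2 * (t : ZMod d).val ∧ 4 * (t : ZMod d).val < 3 * d) := by
  simp only [AA, Finset.mem_filter, Finset.mem_univ, true_and]
  rw [two_mul_val h2]
  split_ifs with h <;> omega

/-- The common part. -/
def TT (d : ℕ) [Fact d.Prime] : Finset (ZMod d)ˣ :=
  Finset.univ.filter fun t => 4 * (t : ZMod d).val < d ∨
    (d ≤ 2 * (t : ZMod d).val ∧ 3 * (t : ZMod d).val < 2 * d)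

lemma TT_sub (h2 : 2 < d) {t : (ZMod d)ˣ} (ht : t ∈ TT d) : t ∈ AA d 1 2 ∧ t ∈ AA d 2 2 := by
  simp only [TT, Finset.mem_filter, Finset.mem_univ, true_and] at ht
  rw [mem_A12 h2, mem_A22 h2]
  omega

/-- a unit from a number below `d` -/
def un (d : ℕ) [hd : Fact d.Prime] (v : ℕ) : (ZMod d)ˣ :=
  if h : v.Coprime d then ZMod.unitOfCoprime v h else 1

lemma un_val {v : ℕ} (h1 : 1 ≤ v) (h2 : v < d) : ((un d v : (ZMod d)ˣ) : ZMod d).val = v := by
  have hc : v.Coprime d := by
    rw [Nat.coprime_comm, Nat.Prime.coprime_iff_not_dvd hd.out]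
    intro h
    have := Nat.le_of_dvd h1 h
    omega
  rw [un, dif_pos hc, ZMod.coe_unitOfCoprime, ZMod.val_natCast, Nat.mod_eq_of_lt h2]

lemma card_TT (h2 : 2 < d) : d - 1 ≤ 2 * (TT d).card + 2 * (d / 3 - d / 4) := by
  set U : Finset ℕ := Finset.Icc 1 ((d - 1) / 4) ∪ Finset.Icc ((d + 1) / 2) ((2 * d - 1) / 3) with hU
  have hlow : ∀ v ∈ U, 1 ≤ v ∧ v < d ∧ (4 * v < d ∨ (d ≤ 2 * v ∧ 3 * v < 2 * d)) := by
    intro v hv
    rw [hU, Finset.mem_union, Finset.mem_Icc, Finset.mem_Icc] at hv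
    omega
  have h1 : U.card ≤ (TT d).card := by
    refine Finset.card_le_card_of_injOn (fun v => un d v) ?_ ?_
    · intro v hv
      obtain ⟨h3, h4, h5⟩ := hlow v hv
      simp only [TT, Finset.coe_filter, Finset.mem_univ, true_and, Set.mem_ofPred_eq]
      rw [un_val h3 h4]
      exact h5
    · intro v hv w hw h
      obtain ⟨h3, h4, _⟩ := hlow v hv
      obtain ⟨h5, h6, _⟩ := hlow w hw
      have := congrArg (fun t : (ZMod d)ˣ => (t : ZMod d).val) h
      simp only at this
      rwa [un_val h3 h4, un_val h5 h6] at this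
  have h3 : U.card = (d - 1) / 4 + ((2 * d - 1) / 3 + 1 - (d + 1) / 2) := by
    rw [hU, Finset.card_union_of_disjoint, Nat.card_Icc, Nat.card_Icc]
    · omega
    · rw [Finset.disjoint_left]
      intro v hv hw
      rw [Finset.mem_Icc] at hv hw
      omega
  have hodd : d % 2 = 1 := by
    rcases hd.out.eq_two_or_odd with h | h
    · omega
    · exact h
  have e1 : (d - 1) / 4 = d / 4 := by omega
  have e2 : (2 * d - 1) / 3 + d / 3 + 1 = d := by omega
  have e3 : (d + 1) / 2 * 2 = d + 1 := by omega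
  have e4 : d / 4 ≤ d / 3 := by omega
  have e5 : (d + 1) / 2 ≤ (2 * d - 1) / 3 + 1 := by omega
  rw [e1] at h3
  omega

/-- The difference of the two sets. -/
lemma exists_diff (h7 : 7 ≤ d) : ∃ t : (ZMod d)ˣ, t ∈ AA d 1 2 ∧ t ∉ AA d 2 2 := by
  have hodd : d % 2 = 1 := by
    rcases hd.out.eq_two_or_odd with h | h
    · omega
    · exact h
  have h9 : d ≠ 9 := by
    rintro rfl
    exact absurd hd.out (by decide)
  refine ⟨un d (d / 4 + 1), ?_, ?_⟩
  · rw [mem_A12 (by omega), un_val (by omega) (by omega)]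
    left; omega
  · rw [mem_A22 (by omega), un_val (by omega) (by omega)]
    omega

/-- The interval `(d/4, d/3)`. -/
def EE (d : ℕ) [Fact d.Prime] : Finset (ZMod d)ˣ :=
  Finset.univ.filter fun t => d < 4 * (t : ZMod d).val ∧ 3 * (t : ZMod d).val < d

lemma mem_EE (t : (ZMod d)ˣ) : t ∈ EE d ↔ d < 4 * (t : ZMod d).val ∧ 3 * (t : ZMod d).val < d := by
  simp [EE]

/-- The interval is not stable under multiplication by `rho`, unless `rho = 1`. -/
lemma EE_stable (h7 : 7 ≤ d) (ρ : (ZMod d)ˣ) (h : ∀ t ∈ EE d, t * ρ ∈ EE d) : ρ = 1 := by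
  have hodd : d % 2 = 1 := by
    rcases hd.out.eq_two_or_odd with h | h
    · omega
    · exact h
  have h9 : d ≠ 9 := by
    rintro rfl
    exact absurd hd.out (by decide)
  have himg : (EE d).image (fun t => t * ρ) = EE d := by
    apply Finset.eq_of_subset_of_card_le
    · intro s hs
      obtain ⟨t, ht, rfl⟩ := Finset.mem_image.mp hs
      exact h t ht
    · rw [Finset.card_image_of_injective _ (mul_left_injective ρ)]
  have hsum : (∑ t ∈ EE d, (t : ZMod d)) * ρ = ∑ t ∈ EE d, (t : ZMod d) := by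
    conv_rhs => rw [← himg]
    rw [Finset.sum_image (fun s _ t _ hst => mul_left_injective ρ hst), Finset.sum_mul]
    rfl
  -- the sum is not zero
  set a := d / 4 + 1 with ha
  set b := (d - 1) / 3 with hb
  have hEsum : ∑ t ∈ EE d, (t : ZMod d) = ∑ v ∈ Finset.Icc a b, (v : ZMod d) := by
    symm
    refine Finset.sum_bij (fun v _ => un d v) ?_ ?_ ?_ ?_
    · intro v hv
      rw [Finset.mem_Icc] at hv
      rw [mem_EE, un_val (by omega) (by omega)]
      have h4 : d % 4 ≠ 0 := by omega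
      omega
    · intro v hv w hw hvw
      rw [Finset.mem_Icc] at hv hw
      have h5 : ((un d v : (ZMod d)ˣ) : ZMod d).val = ((un d w : (ZMod d)ˣ) : ZMod d).val := by
        rw [show un d v = un d w from hvw]
      rwa [un_val (by omega) (by omega), un_val (by omega) (by omega)] at h5
    · intro t ht
      rw [mem_EE] at ht
      refine ⟨(t : ZMod d).val, ?_, ?_⟩
      · rw [Finset.mem_Icc]; omega
      · apply Units.ext
        apply ZMod.val_injective d
        have := ZMod.val_lt (t : ZMod d)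
        rw [un_val (by omega) (by omega)]
    · intro v hv
      rw [Finset.mem_Icc] at hv
      have h3 := un_val (d := d) (v := v) (by omega) (by omega)
      have h4 : ((((un d v : (ZMod d)ˣ) : ZMod d).val : ℕ) : ZMod d) = (v : ZMod d) := by rw [h3]
      rw [ZMod.natCast_zmod_val] at h4
      exact h4.symm
  have hrefl : ∑ v ∈ Finset.Icc a b, (v : ZMod d)
      = ∑ v ∈ Finset.Icc a b, ((a + b : ℕ) - (v : ℕ) : ZMod d) := by
    refine Finset.sum_bij (fun v _ => a + b - v) ?_ ?_ ?_ ?_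
    · intro v hv
      rw [Finset.mem_Icc] at hv ⊢
      omega
    · intro v hv w hw hvw
      rw [Finset.mem_Icc] at hv hw
      omega
    · intro v hv
      rw [Finset.mem_Icc] at hv
      exact ⟨a + b - v, by rw [Finset.mem_Icc]; omega, by omega⟩
    · intro v hv
      rw [Finset.mem_Icc] at hv
      rw [Nat.cast_sub (by omega)]
      ring
  have htwo : 2 * ∑ v ∈ Finset.Icc a b, (v : ZMod d) = (((b + 1 - a) * (a + b) : ℕ) : ZMod d) := by
    have := hrefl
    rw [Finset.sum_sub_distrib, Finset.sum_const, Nat.card_Icc, nsmul_eq_mul] at this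
    push_cast
    push_cast at this
    linear_combination this
  have hne : ∑ t ∈ EE d, (t : ZMod d) ≠ 0 := by
    intro h0
    rw [hEsum] at h0
    rw [h0, mul_zero] at htwo
    have h3 : d ∣ (b + 1 - a) * (a + b) := (ZMod.natCast_eq_zero_iff _ _).mp htwo.symm
    rcases (Nat.Prime.dvd_mul hd.out).mp h3 with h3 | h3
    · have := Nat.le_of_dvd (by omega) h3
      omega
    · have := Nat.le_of_dvd (by omega) h3
      omega
  apply Units.ext
  rw [Units.val_one]
  exact mul_left_cancel₀ hne (by rw [hsum, mul_one])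

end

end Pool.Agent.H26.NL
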