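import Pool.Agent.H26.NL.Norm
import Pool.Agent.H26.NL.Sets
import Pool.Agent.H26.NL.DPrime

/-!
# The two inequalities
-/

set_option autoImplicit false

namespace Pool.Agent.H26.NL

open NumberField Polynomial

noncomputable section

variable {d : ℕ} [hd : Fact d.Prime] {K : Type} [Field K] [NumberField K]
  [IsCyclotomicExtension {d} ℚ K]

lemma diff_mem_EE (h7 : 7 ≤ d) (t : (ZMod d)ˣ) (h1 : t ∈ AA d 1 2) (h2 : t ∉ AA d 2 2) :
    t ∈ EE d := by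
  rw [mem_A12 (by omega)] at h1
  rw [mem_A22 (by omega)] at h2
  rw [mem_EE]
  have hodd : d % 2 = 1 := by
    rcases hd.out.eq_two_or_odd with h | h
    · omega
    · exact h
  omega

lemma EE_diff (h7 : 7 ≤ d) (t : (ZMod d)ˣ) (h : t ∈ EE d) : t ∈ AA d 1 2 ∧ t ∉ AA d 2 2 := by
  rw [mem_A12 (by omega), mem_A22 (by omega)]
  rw [mem_EE] at h
  omega

/-- Splitting off one factor. -/
lemma WW.split {p k q : ℕ} (S : Sol d p k q) [hp : Fact p.Prime] {A : Finset (ZMod d)ˣ}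
    {x : 𝓞 K} (hx : WW p k q A x) {s : (ZMod d)ˣ} (hs : s ∈ A) :
    ∃ Y : 𝓞 K, x ^ k = sg s⁻¹ (PP d K q) * Y ∧ S.phi (sg s Y) ≠ 0 := by
  refine ⟨∏ t ∈ A.erase s, sg t⁻¹ (PP d K q), ?_, ?_⟩
  · rw [hx.pow, Finset.mul_prod_erase A (fun t => sg t⁻¹ (PP d K q)) hs]
  · rw [map_prod, map_prod, Finset.prod_ne_zero_iff]
    intro t ht h
    rw [← sg_mul] at h
    have := S.phi_sg_PP _ h
    rw [mul_inv_eq_one] at this
    exact (Finset.mem_erase.mp ht).1 this.symm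

/-- Non-vanishing for Theorem B. -/
lemma alpha_ne {p k q : ℕ} (S : Sol d p k q) [hp : Fact p.Prime] (h7 : 7 ≤ d)
    {x y : 𝓞 K} (hx : WW p k q (AA d 1 2) x) (hy : WW p k q (AA d 2 2) y) {ρ : (ZMod d)ˣ}
    (hρ : ρ ≠ 1) : sg ρ x * y - sg ρ y * x ≠ 0 := by
  intro h0
  have heq : sg ρ x * y = sg ρ y * x := sub_eq_zero.mp h0
  apply hρ
  refine EE_stable h7 ρ fun t ht => ?_
  obtain ⟨h1, h2⟩ := EE_diff h7 t ht
  have h3 : S.phi (sg t x) = 0 := (hx.phi_iff S t).mpr h1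
  have h4 : S.phi (sg t y) ≠ 0 := fun h => h2 ((hy.phi_iff S t).mp h)
  have h5 := congrArg (fun z => S.phi (sg t z)) heq
  simp only [map_mul] at h5
  rw [h3, mul_zero] at h5
  have h6 : S.phi (sg t (sg ρ x)) = 0 := by
    rcases mul_eq_zero.mp h5 with h | h
    · exact h
    · exact absurd h h4
  rw [← sg_mul] at h6
  have h7' : t * ρ ∈ AA d 1 2 := (hx.phi_iff S _).mp h6
  refine diff_mem_EE h7 _ h7' fun h8 => ?_
  obtain ⟨Y, hY1, hY2⟩ := hx.split S h7'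
  obtain ⟨Z, hZ1, hZ2⟩ := hy.split S h8
  obtain ⟨V, hV1, hV2⟩ := hx.split S h1
  have hρt : ρ * (t * ρ)⁻¹ = t⁻¹ := by
    rw [mul_inv]
    calc ρ * (t⁻¹ * ρ⁻¹) = t⁻¹ * (ρ * ρ⁻¹) := by
          rw [← mul_assoc, mul_comm ρ t⁻¹, mul_assoc]
      _ = t⁻¹ := by rw [mul_inv_cancel, mul_one]
  have e1 : (sg ρ x) ^ k = sg t⁻¹ (PP d K q) * sg ρ Y := by
    rw [← map_pow, hY1, map_mul, ← sg_mul, hρt]
  have e2 : (sg ρ y) ^ k = sg t⁻¹ (PP d K q) * sg ρ Z := by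
    rw [← map_pow, hZ1, map_mul, ← sg_mul, hρt]
  have e3 : (sg ρ x * y) ^ k = (sg ρ y * x) ^ k := by rw [heq]
  rw [mul_pow, mul_pow, e1, e2, hV1] at e3
  have hP : sg t⁻¹ (PP d K q) ≠ 0 := PP_ne_zero S _
  have e4 : sg ρ Y * y ^ k = sg ρ Z * (sg t⁻¹ (PP d K q) * V) := by
    apply mul_left_cancel₀ hP
    linear_combination e3
  have e5 := congrArg (fun z => S.phi (sg t z)) e4
  simp only [map_mul, map_pow] at e5
  have e6 : S.phi (sg t (sg t⁻¹ (PP d K q))) = 0 := by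
    rw [← sg_mul, mul_inv_cancel, sg_one, S.phi_PP]
  rw [e6, zero_mul, mul_zero, ← sg_mul] at e5
  rcases mul_eq_zero.mp e5 with h | h
  · exact hY2 h
  · exact h4 (pow_eq_zero_iff (by have := S.hk; omega) |>.mp h)

/-- The number `N`. -/
lemma final_real {q p D T N : ℕ} (hp : 1 ≤ p)
    (h : ((q : ℝ) ^ D * (p : ℝ) ^ (T + T)) ^ 2 ≤ (4 * (p : ℝ) ^ 2) ^ D)
    (hT : D ≤ 2 * T + 2 * N) : q ^ D ≤ 2 ^ D * p ^ (2 * N) := by
  have hp0 : (0 : ℝ) < p := by exact_mod_cast hp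
  have hp1 : (1 : ℝ) ≤ p := by exact_mod_cast hp
  have h1 : (4 * (p : ℝ) ^ 2) ^ D = ((2 * (p : ℝ)) ^ D) ^ 2 := by
    rw [← pow_mul, mul_comm D 2, pow_mul]
    congr 1; ring
  rw [h1] at h
  have h2 : (q : ℝ) ^ D * (p : ℝ) ^ (T + T) ≤ (2 * (p : ℝ)) ^ D :=
    (pow_le_pow_iff_left₀ (by positivity) (by positivity) two_ne_zero).mp h
  have h3 : (2 * (p : ℝ)) ^ D ≤ 2 ^ D * ((p : ℝ) ^ (2 * N) * (p : ℝ) ^ (T + T)) := by
    rw [mul_pow, ← pow_add]
    refine mul_le_mul_of_nonneg_left ?_ (by positivity)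
    exact pow_le_pow_right₀ hp1 (by omega)
  have h4 : (q : ℝ) ^ D * (p : ℝ) ^ (T + T) ≤ (2 ^ D * (p : ℝ) ^ (2 * N)) * (p : ℝ) ^ (T + T) := by
    calc _ ≤ _ := h2
      _ ≤ _ := h3
      _ = _ := by ring
  have h5 := le_of_mul_le_mul_right h4 (by positivity)
  exact_mod_cast h5

lemma final_real' {q p D T N : ℕ} (hp : 1 ≤ p)
    (h : ((q : ℝ) ^ D * (p : ℝ) ^ T) ^ 2 ≤ (4 * (p : ℝ)) ^ D)
    (hT : D ≤ 2 * T + 2 * N) : q ^ D ≤ 2 ^ D * p ^ N := by
  have hp0 : (0 : ℝ) < p := by exact_mod_cast hp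
  have hp1 : (1 : ℝ) ≤ p := by exact_mod_cast hp
  have h3 : (4 * (p : ℝ)) ^ D ≤ (2 ^ D * ((p : ℝ) ^ N * (p : ℝ) ^ T)) ^ 2 := by
    have h4 : (2 ^ D * ((p : ℝ) ^ N * (p : ℝ) ^ T)) ^ 2 = 4 ^ D * (p : ℝ) ^ (2 * T + 2 * N) := by
      have h5 : (4 : ℝ) ^ D = (2 ^ D) ^ 2 := by
        rw [← pow_mul, mul_comm D 2, pow_mul]; norm_num
      rw [h5]
      ring
    rw [mul_pow, h4]
    refine mul_le_mul_of_nonneg_left ?_ (by positivity)
    exact pow_le_pow_right₀ hp1 hT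
  have h2 : (q : ℝ) ^ D * (p : ℝ) ^ T ≤ 2 ^ D * ((p : ℝ) ^ N * (p : ℝ) ^ T) :=
    (pow_le_pow_iff_left₀ (by positivity) (by positivity) two_ne_zero).mp (h.trans h3)
  have h4 : (q : ℝ) ^ D * (p : ℝ) ^ T ≤ (2 ^ D * (p : ℝ) ^ N) * (p : ℝ) ^ T := by
    calc _ ≤ _ := h2
      _ = _ := by ring
  have h5 := le_of_mul_le_mul_right h4 (by positivity)
  exact_mod_cast h5

lemma norm_sq_sub_le (a b : ℂ) : ‖a - b‖ ^ 2 ≤ 2 * ‖a‖ ^ 2 + 2 * ‖b‖ ^ 2 := by
  have h := norm_sub_le a b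
  have h1 := norm_nonneg (a - b)
  nlinarith [sq_nonneg (‖a‖ - ‖b‖), norm_nonneg a, norm_nonneg b]

/-- Theorem B over a cyclotomic field. -/
lemma thmB {p k q : ℕ} (S : Sol d p k q) [hp : Fact p.Prime] (h7 : 7 ≤ d)
    {x y : 𝓞 K} (hx : WW p k q (AA d 1 2) x) (hy : WW p k q (AA d 2 2) y) {ρ : (ZMod d)ˣ}
    (hρ : ρ ≠ 1) (hcx : (q : 𝓞 K) ∣ sg ρ x - x) (hcy : (q : 𝓞 K) ∣ sg ρ y - y) :
    q ^ (d - 1) ≤ 2 ^ (d - 1) * p ^ (2 * (d / 3 - d / 4)) := by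
  set α : 𝓞 K := sg ρ x * y - sg ρ y * x with hα
  have h0 : α ≠ 0 := alpha_ne S h7 hx hy hρ
  have hq : (q : 𝓞 K) ∣ α := by
    have : α = (sg ρ x - x) * y - (sg ρ y - y) * x := by rw [hα]; ring
    rw [this]
    exact dvd_sub (dvd_mul_of_dvd_left hcx _) (dvd_mul_of_dvd_left hcy _)
  set T' : Finset (ZMod d)ˣ := (TT d).image (fun t => t * ρ⁻¹) with hT'
  have hcard : T'.card = (TT d).card := by
    rw [hT', Finset.card_image_of_injective _ (mul_left_injective ρ⁻¹)]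
  have hxG : ∀ z : 𝓞 K, (∀ t ∈ TT d, S.phi (sg t z) = 0) → sg ρ z ∈ S.GG K T' := by
    intro z hz
    apply S.mem_GG
    intro s hs
    rw [hT'] at hs
    obtain ⟨t, ht, rfl⟩ := Finset.mem_image.mp hs
    rw [← sg_mul, inv_mul_cancel_right]
    exact hz t ht
  have hzx : ∀ t ∈ TT d, S.phi (sg t x) = 0 := fun t ht =>
    (hx.phi_iff S t).mpr (TT_sub (by omega) ht).1
  have hzy : ∀ t ∈ TT d, S.phi (sg t y) = 0 := fun t ht =>
    (hy.phi_iff S t).mpr (TT_sub (by omega) ht).2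
  have hG : α ∈ S.GG K T' * S.GG K (TT d) := by
    refine Ideal.sub_mem _ ?_ ?_
    · exact Ideal.mul_mem_mul (hxG x hzx) (S.mem_GG _ _ hzy)
    · exact Ideal.mul_mem_mul (hxG y hzy) (S.mem_GG _ _ hzx)
  have hmain := S.norm_ineq_two T' (TT d) α h0 hq hG (4 * (p : ℝ) ^ 2) (by
    intro f
    rw [hα, map_sub, map_mul, map_mul]
    refine (norm_sq_sub_le _ _).trans ?_
    rw [norm_mul, norm_mul, mul_pow, mul_pow, hx.abs f, hy.abs f, hx.abs_sg f, hy.abs_sg f]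
    nlinarith)
  rw [hcard] at hmain
  exact final_real S.hp.one_lt.le hmain (card_TT (by omega))

/-- Theorem A over a cyclotomic field. -/
lemma thmA {p k q : ℕ} (S : Sol d p k q) [hp : Fact p.Prime] (h7 : 7 ≤ d) (hk : Odd k)
    {x y : 𝓞 K} (hx : WW p k q (AA d 1 2) x) (hy : WW p k q (AA d 2 2) y)
    (hcx : (q : 𝓞 K) ∣ sg (-1 : (ZMod d)ˣ) x - x) (hcy : (q : 𝓞 K) ∣ sg (-1 : (ZMod d)ˣ) y - y) :
    q ^ (d - 1) ≤ 2 ^ (d - 1) * p ^ (d / 3 - d / 4) := by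
  set α : 𝓞 K := x - y with hα
  have hzx : ∀ t ∈ TT d, S.phi (sg t x) = 0 := fun t ht =>
    (hx.phi_iff S t).mpr (TT_sub (by omega) ht).1
  have hzy : ∀ t ∈ TT d, S.phi (sg t y) = 0 := fun t ht =>
    (hy.phi_iff S t).mpr (TT_sub (by omega) ht).2
  have h0 : α ≠ 0 := by
    intro h
    have hxy : x = y := sub_eq_zero.mp h
    obtain ⟨t, h1, h2⟩ := exists_diff (d := d) h7
    have h3 := (hx.phi_iff S t).mpr h1
    rw [hxy] at h3
    exact h2 ((hy.phi_iff S t).mp h3)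
  have hq : (q : 𝓞 K) ∣ α := by
    have := dvd_sub (hx.cong_p hk hcx) (hy.cong_p hk hcy)
    have h1 : x - (p : 𝓞 K) ^ ((k + 1) / 2) - (y - (p : 𝓞 K) ^ ((k + 1) / 2)) = α := by
      rw [hα]; ring
    rwa [h1] at this
  have hG : α ∈ S.GG K (TT d) :=
    Ideal.sub_mem _ (S.mem_GG _ _ hzx) (S.mem_GG _ _ hzy)
  have hmain := S.norm_ineq_one (TT d) α h0 hq hG (4 * (p : ℝ)) (by
    intro f
    rw [hα, map_sub]
    refine (norm_sq_sub_le _ _).trans ?_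
    rw [hx.abs f, hy.abs f]
    linarith)
  exact final_real' S.hp.one_lt.le hmain (card_TT (by omega))

omit hd in
/-- The solution structure from the equation. -/
lemma sol_of_eq {d p k r e : ℕ} (hd7 : 2 < d) (hp : p.Prime) (hr : r.Prime)
    (he : 1 ≤ e) (hk : 1 < k) (h : ((r ^ e) ^ d - 1) / (r ^ e - 1) = p ^ k) :
    Sol d p k (r ^ e) := by
  have hq : 2 ≤ r ^ e := by
    calc 2 ≤ r := hr.two_le
      _ = r ^ 1 := (pow_one r).symm
      _ ≤ r ^ e := Nat.pow_le_pow_right hr.pos he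
  refine ⟨hp, hd7, hk, hq, ?_⟩
  rw [Nat.geomSum_eq hq, h]

/-- `r` is never congruent to `1` modulo `d`. -/
lemma Sol.not_dvd_r {p k r e : ℕ} (S : Sol d p k (r ^ e)) (hr : r.Prime) : ¬ d ∣ r - 1 := by
  intro h1
  have h3 : r ≡ 1 [MOD d] := ((Nat.modEq_iff_dvd' hr.one_lt.le).mpr h1).symm
  have h4 : r ^ e ≡ 1 [MOD d] := by simpa using h3.pow e
  have h5 : ∑ i ∈ Finset.range d, (r ^ e) ^ i ≡ ∑ i ∈ Finset.range d, 1 [MOD d] := by
    rw [← ZMod.natCast_eq_natCast_iff]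
    push_cast
    refine Finset.sum_congr rfl fun i _ => ?_
    have h6 : ((r ^ e : ℕ) : ZMod d) = ((1 : ℕ) : ZMod d) :=
      (ZMod.natCast_eq_natCast_iff _ _ _).mpr h4
    push_cast at h6
    rw [h6, one_pow]
  rw [S.eq] at h5
  simp only [Finset.sum_const, Finset.card_range, smul_eq_mul, mul_one] at h5
  have h6 : d ∣ p ^ k :=
    Nat.modEq_zero_iff_dvd.mp (h5.trans (Nat.modEq_zero_iff_dvd.mpr (dvd_refl d)))
  have h7 := hd.out.dvd_of_dvd_pow h6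
  exact S.p_ne_d ((Nat.prime_dvd_prime_iff_eq hd.out S.hp).mp h7).symm

/-- Theorem B. -/
theorem theoremB7 {d p k r e : ℕ} (hd : d.Prime) (hd7 : 7 ≤ d) (hp : p.Prime) (hr : r.Prime)
    (he : 1 ≤ e) (hk : 1 < k) (hodd : Odd k) (hkr : k ∣ r - 1)
    (h : ((r ^ e) ^ d - 1) / (r ^ e - 1) = p ^ k) :
    (r ^ e) ^ (d - 1) ≤ 2 ^ (d - 1) * p ^ (2 * (d / 3 - d / 4)) := by
  have : Fact d.Prime := ⟨hd⟩
  have hpf : Fact p.Prime := ⟨hp⟩
  have S := sol_of_eq (by omega) hp hr he hk h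
  have hrd : ¬ d ∣ r - 1 := S.not_dvd_r hr
  have D : Dat r e k (r ^ e) := ⟨hr, he, rfl, hkr⟩
  obtain ⟨K, hF, hN, hC⟩ := exists_field d
  have hcop : Nat.Coprime k (2 * d) := by
    refine Nat.Coprime.mul_right ?_ ?_
    · exact hodd.coprime_two_right
    · rw [Nat.coprime_comm, Nat.Prime.coprime_iff_not_dvd hd]
      exact fun h => hrd (h.trans hkr)
  have hnd : ∀ c : ℕ, 1 ≤ c → c ≤ 4 → ¬ d ∣ c := by
    intro c h1 h2 h3
    have := Nat.le_of_dvd h1 h3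
    omega
  obtain ⟨x, hx⟩ := S.exists_WW (K := K) hcop (a := 1) (b := 2) (hnd _ (by omega) (by omega))
    (hnd _ (by omega) (by omega)) (hnd _ (by omega) (by omega))
  obtain ⟨y, hy⟩ := S.exists_WW (K := K) hcop (a := 2) (b := 2) (hnd _ (by omega) (by omega))
    (hnd _ (by omega) (by omega)) (hnd _ (by omega) (by omega))
  by_cases hrd' : r = d
  · have hne : (-1 : (ZMod d)ˣ) ≠ 1 := by
      intro h1
      have h2 : ((-1 : (ZMod d)ˣ) : ZMod d) = ((1 : (ZMod d)ˣ) : ZMod d) := by rw [h1]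
      have h3 : ((2 : ℕ) : ZMod d) = 0 := by
        push_cast
        simp only [Units.val_neg, Units.val_one] at h2
        linear_combination -h2
      exact hnd 2 (by omega) (by omega) ((ZMod.natCast_eq_zero_iff _ _).mp h3)
    exact thmB S hd7 hx hy hne (hx.cong_d hk.le D hrd' _) (hy.cong_d hk.le D hrd' _)
  · have hcr : r.Coprime d := (Nat.coprime_primes hr hd).mpr hrd'
    have hρ : ((ZMod.unitOfCoprime r hcr : (ZMod d)ˣ) : ZMod d) = (r : ZMod d) :=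
      ZMod.coe_unitOfCoprime r hcr
    refine thmB S hd7 hx hy (ρ := ZMod.unitOfCoprime r hcr) ?_
      (hx.cong hk.le D _ hρ) (hy.cong hk.le D _ hρ)
    intro h1
    rw [h1] at hρ
    have h2 : ((r : ℕ) : ZMod d) = ((1 : ℕ) : ZMod d) := by
      rw [← hρ]; simp
    have h3 := (ZMod.natCast_eq_natCast_iff _ _ _).mp h2
    exact hrd ((Nat.modEq_iff_dvd' hr.one_lt.le).mp h3.symm)

/-- Theorem A. -/
theorem theoremA7 {d p k r e : ℕ} (hd : d.Prime) (hd7 : 7 ≤ d) (hp : p.Prime) (hr : r.Prime)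
    (he : 1 ≤ e) (hk : 1 < k) (hodd : Odd k) (hkr : k ∣ r - 1)
    (hrd : r = d ∨ ∃ j : ℕ, d ∣ r ^ j + 1)
    (h : ((r ^ e) ^ d - 1) / (r ^ e - 1) = p ^ k) :
    (r ^ e) ^ (d - 1) ≤ 2 ^ (d - 1) * p ^ (d / 3 - d / 4) := by
  have : Fact d.Prime := ⟨hd⟩
  have hpf : Fact p.Prime := ⟨hp⟩
  have S := sol_of_eq (by omega) hp hr he hk h
  have D : Dat r e k (r ^ e) := ⟨hr, he, rfl, hkr⟩
  obtain ⟨K, hF, hN, hC⟩ := exists_field d
  have hnr : ¬ d ∣ r - 1 := S.not_dvd_r hr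
  have hcop : Nat.Coprime k (2 * d) := by
    refine Nat.Coprime.mul_right ?_ ?_
    · exact hodd.coprime_two_right
    · rw [Nat.coprime_comm, Nat.Prime.coprime_iff_not_dvd hd]
      exact fun h => hnr (h.trans hkr)
  have hnd : ∀ c : ℕ, 1 ≤ c → c ≤ 4 → ¬ d ∣ c := by
    intro c h1 h2 h3
    have := Nat.le_of_dvd h1 h3
    omega
  obtain ⟨x, hx⟩ := S.exists_WW (K := K) hcop (a := 1) (b := 2) (hnd _ (by omega) (by omega))
    (hnd _ (by omega) (by omega)) (hnd _ (by omega) (by omega))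
  obtain ⟨y, hy⟩ := S.exists_WW (K := K) hcop (a := 2) (b := 2) (hnd _ (by omega) (by omega))
    (hnd _ (by omega) (by omega)) (hnd _ (by omega) (by omega))
  rcases hrd with hrd' | ⟨j, hj⟩
  · exact thmA S hd7 hodd hx hy (hx.cong_d hk.le D hrd' _) (hy.cong_d hk.le D hrd' _)
  · have hcr : r.Coprime d := by
      rw [Nat.coprime_comm, Nat.Prime.coprime_iff_not_dvd hd]
      intro h1
      rcases Nat.eq_zero_or_pos j with rfl | hj0
      · rw [pow_zero] at hj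
        have := Nat.le_of_dvd (by omega) hj
        omega
      · have h2 : d ∣ r ^ j := dvd_pow h1 (by omega)
        have h3 := (Nat.dvd_add_right h2).mp hj
        exact hd.one_lt.ne' (Nat.dvd_one.mp h3)
    have hρ : ((ZMod.unitOfCoprime r hcr : (ZMod d)ˣ) : ZMod d) = (r : ZMod d) :=
      ZMod.coe_unitOfCoprime r hcr
    have hpow : (ZMod.unitOfCoprime r hcr) ^ j = (-1 : (ZMod d)ˣ) := by
      apply Units.ext
      rw [Units.val_pow_eq_pow_val, hρ, Units.val_neg, Units.val_one]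
      have h1 : ((r ^ j + 1 : ℕ) : ZMod d) = 0 := (ZMod.natCast_eq_zero_iff _ _).mpr hj
      push_cast at h1
      linear_combination h1
    have hcx := cong_iter (hx.cong hk.le D _ hρ) j
    have hcy := cong_iter (hy.cong hk.le D _ hρ) j
    rw [hpow] at hcx hcy
    exact thmA S hd7 hodd hx hy hcx hcy

omit hd in
lemma stable_five_aux : ∀ ρ : (ZMod 5)ˣ, (∀ t : (ZMod 5)ˣ,
      (((1 : ℕ) : ZMod 5) * t).val + (((2 : ℕ) : ZMod 5) * t).val < 5 →
      (((1 : ℕ) : ZMod 5) * (t * ρ : (ZMod 5)ˣ)).val +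
        (((2 : ℕ) : ZMod 5) * (t * ρ : (ZMod 5)ˣ)).val < 5) → ρ = 1 := by decide

omit hd in
lemma neg_one_five : (-1 : (ZMod 5)ˣ) ≠ 1 := by decide

lemma stable_five (ρ : (ZMod 5)ˣ) [Fact (Nat.Prime 5)]
    (h : ∀ t ∈ AA 5 1 2, t * ρ ∈ AA 5 1 2) : ρ = 1 := by
  apply stable_five_aux
  intro t ht
  have := h t (by simpa [AA] using ht)
  simpa [AA] using this

/-- There is no solution with `d = 5`. -/
theorem no_five {p k r e : ℕ} (hp : p.Prime) (hr : r.Prime)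
    (he : 1 ≤ e) (hk : 1 < k) (hodd : Odd k) (hkr : k ∣ r - 1)
    (h : ((r ^ e) ^ 5 - 1) / (r ^ e - 1) = p ^ k) : False := by
  have hd : Nat.Prime 5 := by norm_num
  have : Fact (Nat.Prime 5) := ⟨hd⟩
  have hpf : Fact p.Prime := ⟨hp⟩
  have S := sol_of_eq (by omega) hp hr he hk h
  have hrd : ¬ 5 ∣ r - 1 := S.not_dvd_r hr
  have D : Dat r e k (r ^ e) := ⟨hr, he, rfl, hkr⟩
  obtain ⟨K, hF, hN, hC⟩ := exists_field 5
  have hcop : Nat.Coprime k (2 * 5) := by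
    refine Nat.Coprime.mul_right ?_ ?_
    · exact hodd.coprime_two_right
    · rw [Nat.coprime_comm, Nat.Prime.coprime_iff_not_dvd hd]
      exact fun h => hrd (h.trans hkr)
  obtain ⟨x, hx⟩ := S.exists_WW (K := K) hcop (a := 1) (b := 2) (by norm_num) (by norm_num)
    (by norm_num)
  -- a nontrivial automorphism with the congruence
  obtain ⟨ρ, hρ1, hρ2⟩ : ∃ ρ : (ZMod 5)ˣ, ρ ≠ 1 ∧ ((r ^ e : ℕ) : 𝓞 K) ∣ sg ρ x - x := by
    by_cases hrd' : r = 5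
    · exact ⟨-1, neg_one_five, hx.cong_d hk.le D hrd' _⟩
    · have hcr : r.Coprime 5 := (Nat.coprime_primes hr hd).mpr hrd'
      have hρ : ((ZMod.unitOfCoprime r hcr : (ZMod 5)ˣ) : ZMod 5) = (r : ZMod 5) :=
        ZMod.coe_unitOfCoprime r hcr
      refine ⟨_, ?_, hx.cong hk.le D _ hρ⟩
      intro h1
      rw [h1] at hρ
      have h2 : ((r : ℕ) : ZMod 5) = ((1 : ℕ) : ZMod 5) := by
        rw [← hρ]; simp
      have h3 := (ZMod.natCast_eq_natCast_iff _ _ _).mp h2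
      exact hrd ((Nat.modEq_iff_dvd' hr.one_lt.le).mp h3.symm)
  have h0 : sg ρ x - x ≠ 0 := by
    intro h0
    apply hρ1
    refine stable_five ρ fun t ht => ?_
    have h1 := (hx.phi_iff S t).mpr ht
    rw [← sub_eq_zero.mp h0, ← sg_mul] at h1
    exact (hx.phi_iff S _).mp h1
  have hmain := S.norm_ineq_one ∅ (sg ρ x - x) h0 hρ2 (by
    apply S.mem_GG
    intro t ht
    exact absurd ht (Finset.notMem_empty t)) (4 * (p : ℝ)) (by
    intro f
    rw [map_sub]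
    refine (norm_sq_sub_le _ _).trans ?_
    rw [hx.abs f, hx.abs_sg f]
    linarith)
  rw [Finset.card_empty, pow_zero, mul_one] at hmain
  set q := r ^ e with hq
  have h2 : ((q : ℝ) ^ 2) ^ 4 ≤ (4 * (p : ℝ)) ^ 4 := by
    calc ((q : ℝ) ^ 2) ^ 4 = ((q : ℝ) ^ (5 - 1)) ^ 2 := by norm_num; ring
      _ ≤ _ := hmain
  have h3 : (q : ℝ) ^ 2 ≤ 4 * (p : ℝ) :=
    (pow_le_pow_iff_left₀ (by positivity) (by positivity) (by norm_num)).mp h2
  have h4 : q ^ 2 ≤ 4 * p := by exact_mod_cast h3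
  have hk3 : 3 ≤ k := by
    rcases hodd with ⟨m, hm⟩; omega
  have hr7 : 7 ≤ r := by
    have h5 := Nat.le_of_dvd (by have := hr.two_le; omega) hkr
    have h6 : r ≠ 5 := by
      intro h6
      rw [h6] at hkr h5
      have h7 : k = 3 ∨ k = 4 := by omega
      rcases h7 with h7 | h7
      · rw [h7] at hkr; norm_num at hkr
      · rw [h7] at hodd; exact absurd hodd (by decide)
    have h7 : r ≠ 4 := by intro h7; rw [h7] at hr; exact absurd hr (by norm_num)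
    have h8 : r ≠ 6 := by intro h7; rw [h7] at hr; exact absurd hr (by norm_num)
    omega
  have hq7 : 7 ≤ q := by
    calc 7 ≤ r := hr7
      _ = r ^ 1 := (pow_one r).symm
      _ ≤ r ^ e := Nat.pow_le_pow_right hr.pos he
  have heq := S.eq
  simp only [Finset.sum_range_succ, Finset.sum_range_zero] at heq
  have hpk : p ^ 3 ≤ p ^ k := Nat.pow_le_pow_right hp.pos hk3
  have h5 : (q ^ 2) ^ 3 ≤ (4 * p) ^ 3 := Nat.pow_le_pow_left h4 3
  have h6 : q ^ 6 ≤ 64 * (q ^ 4 + q ^ 3 + q ^ 2 + q + 1) := by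
    calc q ^ 6 = (q ^ 2) ^ 3 := by ring
      _ ≤ (4 * p) ^ 3 := h5
      _ = 64 * p ^ 3 := by ring
      _ ≤ 64 * p ^ k := by omega
      _ = 64 * (q ^ 4 + q ^ 3 + q ^ 2 + q + 1) := by rw [← heq]; ring
  have hq8 : q ≤ 8 := by
    by_contra h7
    have h8 : 9 ≤ q := by omega
    nlinarith [pow_pos (show 0 < q by omega) 4, pow_pos (show 0 < q by omega) 3,
      pow_pos (show 0 < q by omega) 2, Nat.mul_le_mul h8 (le_refl (q ^ 3)),
      Nat.mul_le_mul h8 (le_refl (q ^ 2)), Nat.mul_le_mul h8 (le_refl q),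
      Nat.mul_le_mul (Nat.mul_le_mul h8 h8) (le_refl (q ^ 4))]
  have hq7' : q = 7 := by
    have h7 : q = 7 ∨ q = 8 := by omega
    rcases h7 with h7 | h7
    · exact h7
    · exfalso
      have h8 : r ∣ 8 := by
        rw [← h7, hq]; exact dvd_pow_self r (by omega)
      have h9 : r ∣ 2 ^ 3 := by norm_num; exact h8
      have := (Nat.prime_dvd_prime_iff_eq hr Nat.prime_two).mp (hr.dvd_of_dvd_pow h9)
      omega
  rw [hq7'] at heq
  have h7 : p ^ k = 2801 := by rw [← heq]; norm_num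
  have h8 : Nat.Prime (p ^ k) := by rw [h7]; norm_num
  have := (Nat.Prime.eq_one_of_pow h8)
  omega

/-- Theorem B, for all exponents. -/
theorem theoremB {d p k r e : ℕ} (hd4 : 4 ≤ d) (hp : p.Prime) (hr : r.Prime)
    (he : 1 ≤ e) (hk : 1 < k) (hodd : Odd k) (hkr : k ∣ r - 1)
    (h : ((r ^ e) ^ d - 1) / (r ^ e - 1) = p ^ k) :
    (r ^ e) ^ (d - 1) ≤ 2 ^ (d - 1) * p ^ (2 * (d / 3 - d / 4)) := by
  have S := sol_of_eq (by omega) hp hr he hk h
  have hd : d.Prime := d_prime S.hq (by omega) hp S.eq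
  rcases Nat.lt_or_ge d 7 with h1 | h1
  · exfalso
    interval_cases d
    · exact absurd hd (by norm_num)
    · exact no_five hp hr he hk hodd hkr h
    · exact absurd hd (by norm_num)
  · exact theoremB7 hd h1 hp hr he hk hodd hkr h

/-- Theorem A, for all exponents. -/
theorem theoremA {d p k r e : ℕ} (hd4 : 4 ≤ d) (hp : p.Prime) (hr : r.Prime)
    (he : 1 ≤ e) (hk : 1 < k) (hodd : Odd k) (hkr : k ∣ r - 1)
    (hrd : r = d ∨ ∃ j : ℕ, d ∣ r ^ j + 1)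
    (h : ((r ^ e) ^ d - 1) / (r ^ e - 1) = p ^ k) :
    (r ^ e) ^ (d - 1) ≤ 2 ^ (d - 1) * p ^ (d / 3 - d / 4) := by
  have S := sol_of_eq (by omega) hp hr he hk h
  have hd : d.Prime := d_prime S.hq (by omega) hp S.eq
  rcases Nat.lt_or_ge d 7 with h1 | h1
  · exfalso
    interval_cases d
    · exact absurd hd (by norm_num)
    · exact no_five hp hr he hk hodd hkr h
    · exact absurd hd (by norm_num)
  · exact theoremA7 hd h1 hp hr he hk hodd hkr hrd h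

end

end Pool.Agent.H26.NL
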