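import Pool.Agent.H26.NL.Frob

/-!
# The norm inequality
-/

set_option autoImplicit false

namespace Pool.Agent.H26.NL

open NumberField Polynomial

noncomputable section

variable {d : ℕ} [hd : Fact d.Prime] {K : Type} [Field K] [NumberField K]
  [IsCyclotomicExtension {d} ℚ K]

variable (d K) in
lemma finrank_K : Module.finrank ℚ K = d - 1 := by
  rw [IsCyclotomicExtension.finrank (n := d) K (cyclotomic.irreducible_rat hd.out.pos),
    Nat.totient_prime hd.out]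

variable (d K) in
lemma finrank_O : Module.finrank ℤ (𝓞 K) = d - 1 := by
  rw [RingOfIntegers.rank, finrank_K d K]

/-- Upper bound of the norm. -/
lemma norm_le_of (α : 𝓞 K) (C : ℝ) (hC : ∀ f : 𝓞 K →+* ℂ, ‖f α‖ ^ 2 ≤ C) :
    (((Algebra.norm ℤ α).natAbs : ℝ)) ^ 2 ≤ C ^ (d - 1) := by
  have h1 := Algebra.norm_eq_prod_embeddings ℚ ℂ (algebraMap (𝓞 K) K α)
  have h2 : (Algebra.norm ℚ (algebraMap (𝓞 K) K α)) = ((Algebra.norm ℤ α : ℤ) : ℚ) :=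
    (Algebra.coe_norm_int α).symm
  rw [h2] at h1
  have h3 : (((Algebra.norm ℤ α).natAbs : ℝ)) = ∏ σ : K →ₐ[ℚ] ℂ, ‖σ (algebraMap (𝓞 K) K α)‖ := by
    have h4 := congrArg norm h1
    rw [norm_prod] at h4
    rw [← h4]
    simp
  rw [h3, ← Finset.prod_pow]
  have hcard : Fintype.card (K →ₐ[ℚ] ℂ) = d - 1 := by
    rw [AlgHom.card, finrank_K d K]
  calc ∏ σ : K →ₐ[ℚ] ℂ, ‖σ (algebraMap (𝓞 K) K α)‖ ^ 2
      ≤ ∏ _σ : K →ₐ[ℚ] ℂ, C := by
        refine Finset.prod_le_prod (fun σ _ => by positivity) fun σ _ => ?_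
        exact hC (σ.toRingHom.comp (algebraMap (𝓞 K) K))
    _ = C ^ (d - 1) := by rw [Finset.prod_const, Finset.card_univ, hcard]

/-- The prime ideal of degree one attached to `t`. -/
def Sol.pr {p k q : ℕ} (S : Sol d p k q) [hp : Fact p.Prime] (K : Type) [Field K] [NumberField K]
    [IsCyclotomicExtension {d} ℚ K] (t : (ZMod d)ˣ) : Ideal (𝓞 K) :=
  RingHom.ker ((S.phi (K := K)).comp (sg t))

lemma Sol.mem_pr {p k q : ℕ} (S : Sol d p k q) [hp : Fact p.Prime] (t : (ZMod d)ˣ) (x : 𝓞 K) :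
    x ∈ S.pr K t ↔ S.phi (sg t x) = 0 := by
  rw [Sol.pr, RingHom.mem_ker, RingHom.comp_apply]

lemma Sol.absNorm_pr {p k q : ℕ} (S : Sol d p k q) [hp : Fact p.Prime] (t : (ZMod d)ˣ) :
    Ideal.absNorm (S.pr K t) = p := by
  have hsurj : Function.Surjective ((S.phi (K := K)).comp (sg t)) := by
    intro y
    obtain ⟨n, rfl⟩ := ZMod.intCast_surjective y
    exact ⟨n, map_intCast _ n⟩
  rw [Sol.pr, Ideal.absNorm_apply, Submodule.cardQuot_apply,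
    Nat.card_congr (RingHom.quotientKerEquivOfSurjective hsurj).toEquiv]
  simp

lemma Sol.PP_mem_pr {p k q : ℕ} (S : Sol d p k q) [hp : Fact p.Prime] (t : (ZMod d)ˣ) :
    sg t⁻¹ (PP d K q) ∈ S.pr K t := by
  rw [S.mem_pr, ← sg_mul, mul_inv_cancel, sg_one, S.phi_PP]

lemma Sol.pr_coprime {p k q : ℕ} (S : Sol d p k q) [hp : Fact p.Prime] {s t : (ZMod d)ˣ}
    (hst : s ≠ t) : IsCoprime (S.pr K s) (S.pr K t) := by
  rw [Ideal.isCoprime_iff_exists]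
  obtain ⟨a, b, hab⟩ := S.coprime_PP (K := K) (s := s⁻¹) (t := t⁻¹)
    (fun h => hst (inv_injective h))
  exact ⟨_, Ideal.mul_mem_left _ a (S.PP_mem_pr s), _, Ideal.mul_mem_left _ b (S.PP_mem_pr t), hab⟩

lemma Sol.q_coprime {p k q : ℕ} (S : Sol d p k q) [hp : Fact p.Prime] (t : (ZMod d)ˣ) :
    IsCoprime (Ideal.span {(q : 𝓞 K)}) (S.pr K t) := by
  rw [Ideal.isCoprime_iff_exists]
  refine ⟨zt d K ^ ((t⁻¹ : (ZMod d)ˣ) : ZMod d).val * q,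
    Ideal.mul_mem_left _ _ (Ideal.mem_span_singleton_self _), _, S.PP_mem_pr t, ?_⟩
  rw [sg_PP]; ring

/-- The product of the primes in `T`. -/
def Sol.GG {p k q : ℕ} (S : Sol d p k q) [hp : Fact p.Prime] (K : Type) [Field K] [NumberField K]
    [IsCyclotomicExtension {d} ℚ K] (T : Finset (ZMod d)ˣ) : Ideal (𝓞 K) :=
  ∏ t ∈ T, S.pr K t

lemma Sol.mem_GG {p k q : ℕ} (S : Sol d p k q) [hp : Fact p.Prime] (T : Finset (ZMod d)ˣ)
    (x : 𝓞 K) (hx : ∀ t ∈ T, S.phi (sg t x) = 0) : x ∈ S.GG K T := by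
  rw [Sol.GG, Ideal.prod_eq_iInf_of_pairwise_isCoprime]
  · simp only [Submodule.mem_iInf]
    intro t ht
    exact (S.mem_pr t x).mpr (hx t ht)
  · intro s _ t _ hst
    exact S.pr_coprime hst

lemma Sol.absNorm_GG {p k q : ℕ} (S : Sol d p k q) [hp : Fact p.Prime] (T : Finset (ZMod d)ˣ) :
    Ideal.absNorm (S.GG K T) = p ^ T.card := by
  rw [Sol.GG, map_prod, Finset.prod_congr rfl (fun t _ => S.absNorm_pr (K := K) t),
    Finset.prod_const]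

lemma Sol.q_coprime_GG {p k q : ℕ} (S : Sol d p k q) [hp : Fact p.Prime]
    (T : Finset (ZMod d)ˣ) : IsCoprime (Ideal.span {(q : 𝓞 K)}) (S.GG K T) :=
  IsCoprime.prod_right fun t _ => S.q_coprime t

/-- The norm inequality with one family of primes. -/
lemma Sol.norm_ineq_one {p k q : ℕ} (S : Sol d p k q) [hp : Fact p.Prime]
    (T : Finset (ZMod d)ˣ) (α : 𝓞 K) (h0 : α ≠ 0) (hq : (q : 𝓞 K) ∣ α) (hG : α ∈ S.GG K T)
    (C : ℝ) (hC : ∀ f : 𝓞 K →+* ℂ, ‖f α‖ ^ 2 ≤ C) :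
    ((q : ℝ) ^ (d - 1) * (p : ℝ) ^ T.card) ^ 2 ≤ C ^ (d - 1) := by
  have h1 : α ∈ Ideal.span {(q : 𝓞 K)} * S.GG K T := by
    rw [Ideal.mul_eq_inf_of_isCoprime (S.q_coprime_GG T)]
    exact ⟨Ideal.mem_span_singleton.mpr hq, hG⟩
  have h2 := Ideal.absNorm_dvd_norm_of_mem h1
  rw [map_mul, Ideal.absNorm_span_natCast, S.absNorm_GG, finrank_O d K] at h2
  have h3 : Algebra.norm ℤ α ≠ 0 := by
    rw [ne_eq, Algebra.norm_eq_zero_iff]; exact h0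
  have h4 : q ^ (d - 1) * p ^ T.card ≤ (Algebra.norm ℤ α).natAbs :=
    Nat.le_of_dvd (Int.natAbs_pos.mpr h3) (Int.natCast_dvd.mp h2)
  refine le_trans ?_ (norm_le_of α C hC)
  have h5 : (q : ℝ) ^ (d - 1) * (p : ℝ) ^ T.card ≤ ((Algebra.norm ℤ α).natAbs : ℝ) := by
    exact_mod_cast h4
  gcongr

/-- The norm inequality with two families of primes. -/
lemma Sol.norm_ineq_two {p k q : ℕ} (S : Sol d p k q) [hp : Fact p.Prime]
    (T T' : Finset (ZMod d)ˣ) (α : 𝓞 K) (h0 : α ≠ 0) (hq : (q : 𝓞 K) ∣ α)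
    (hG : α ∈ S.GG K T * S.GG K T')
    (C : ℝ) (hC : ∀ f : 𝓞 K →+* ℂ, ‖f α‖ ^ 2 ≤ C) :
    ((q : ℝ) ^ (d - 1) * (p : ℝ) ^ (T.card + T'.card)) ^ 2 ≤ C ^ (d - 1) := by
  have h1 : α ∈ Ideal.span {(q : 𝓞 K)} * (S.GG K T * S.GG K T') := by
    rw [Ideal.mul_eq_inf_of_isCoprime ((S.q_coprime_GG T).mul_right (S.q_coprime_GG T'))]
    exact ⟨Ideal.mem_span_singleton.mpr hq, hG⟩
  have h2 := Ideal.absNorm_dvd_norm_of_mem h1
  rw [map_mul, map_mul, Ideal.absNorm_span_natCast, S.absNorm_GG, S.absNorm_GG, finrank_O d K,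
    ← pow_add] at h2
  have h3 : Algebra.norm ℤ α ≠ 0 := by
    rw [ne_eq, Algebra.norm_eq_zero_iff]; exact h0
  have h4 : q ^ (d - 1) * p ^ (T.card + T'.card) ≤ (Algebra.norm ℤ α).natAbs :=
    Nat.le_of_dvd (Int.natAbs_pos.mpr h3) (Int.natCast_dvd.mp h2)
  refine le_trans ?_ (norm_le_of α C hC)
  have h5 : (q : ℝ) ^ (d - 1) * (p : ℝ) ^ (T.card + T'.card)
      ≤ ((Algebra.norm ℤ α).natAbs : ℝ) := by
    exact_mod_cast h4
  gcongr

/-- Absolute values of normalised elements. -/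
lemma WW.abs {p k q : ℕ} {A : Finset (ZMod d)ˣ} {x : 𝓞 K} (hx : WW p k q A x)
    (f : 𝓞 K →+* ℂ) : ‖f x‖ ^ 2 = (p : ℝ) := by
  have h := norm_sq_emb (d := d) f x
  rw [hx.norm, map_natCast] at h
  exact_mod_cast h

lemma WW.abs_sg {p k q : ℕ} {A : Finset (ZMod d)ˣ} {x : 𝓞 K} (hx : WW p k q A x)
    (f : 𝓞 K →+* ℂ) (t : (ZMod d)ˣ) : ‖f (sg t x)‖ ^ 2 = (p : ℝ) :=
  hx.abs (f.comp (sg t))

end

end Pool.Agent.H26.NL
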