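import Pool.Agent.H2.NL.Basic

/-!
# Row OPJ: the operators of the images of tensors
-/

set_option autoImplicit false
set_option linter.unusedSectionVars false

open Matrix Pool.Agent.H2.NL

namespace Pool.Agent.H26.NL.OPJ

variable {K : Type} [Field K]

/-- sums over words, split at the first letter -/
theorem sum_cons {J : Type} [Fintype J] (l : ℕ) (F : List J → K) :
    ∑ v : List.Vector J (l + 1), F v.1 = ∑ a : J, ∑ w : List.Vector J l, F (a :: w.1) := by
  rw [← Fintype.sum_prod_type']
  refine Fintype.sum_equiv
    ⟨fun v => (v.head, v.tail), fun p => p.1 ::ᵥ p.2, fun v => by simp, fun p => by simp⟩ _ _ ?_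
  intro v
  have : v.1 = v.head :: v.tail.1 := by
    conv_lhs => rw [← List.Vector.cons_head_tail v]
    rfl
  rw [this]
  rfl

/-- sums over words, in the opposite order -/
theorem sum_reverse {J : Type} [Fintype J] (l : ℕ) (F : List J → K) :
    ∑ v : List.Vector J l, F v.1.reverse = ∑ v : List.Vector J l, F v.1 := by
  let e : List.Vector J l ≃ List.Vector J l :=
    ⟨fun v => ⟨v.1.reverse, (List.length_reverse).trans v.2⟩,
      fun v => ⟨v.1.reverse, (List.length_reverse).trans v.2⟩,
      fun v => Subtype.ext (List.reverse_reverse _), fun v => Subtype.ext (List.reverse_reverse _)⟩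
  exact Fintype.sum_equiv e (fun v => F v.1.reverse) (fun v => F v.1) (fun v => rfl)

theorem sum_zero {J : Type} [Fintype J] (F : List J → K) :
    ∑ v : List.Vector J 0, F v.1 = F [] := by
  have h : ∀ v : List.Vector J 0, v.1 = [] := fun v => List.length_eq_zero_iff.1 v.2
  rw [Fintype.sum_congr _ (fun _ => F []) (fun v => by rw [h v])]
  rw [Finset.sum_const, Finset.card_univ]
  have : Fintype.card (List.Vector J 0) = 1 := by simp [card_vector]
  rw [this, one_smul]

variable {I J : Type} [Fintype I] [Fintype J]

theorem pf_append (j : Matrix I J K) (u v : List I) : ∀ t : List J → K,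
    pf j t (u ++ v) = pf j (fun a => pf j (fun b => t (a ++ b)) v) u := by
  induction u with
  | nil => intro t; rfl
  | cons x u ih =>
    intro t
    show ∑ b, j x b * pf j (fun l => t (b :: l)) (u ++ v) = _
    simp only [ih]
    rfl

theorem pf_eq_sum (j : Matrix I J K) (u : List I) : ∀ t : List J → K,
    pf j t u = ∑ a : List.Vector J u.length, (List.zipWith (fun x y => j x y) u a.1).prod * t a.1 := by
  induction u with
  | nil =>
    intro t
    show t [] = ∑ a : List.Vector J 0, _
    rw [sum_zero (fun a => (List.zipWith (fun x y => j x y) [] a).prod * t a)]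
    simp
  | cons x u ih =>
    intro t
    show ∑ b, j x b * pf j (fun l => t (b :: l)) u = ∑ a : List.Vector J (u.length + 1), _
    rw [sum_cons u.length
      (fun a => (List.zipWith (fun x y => j x y) (x :: u) a).prod * t a)]
    refine Finset.sum_congr rfl fun b _ => ?_
    rw [ih, Finset.mul_sum]
    refine Finset.sum_congr rfl fun a _ => ?_
    rw [List.zipWith_cons_cons, List.prod_cons, mul_assoc]

/-- a product of sums -/
theorem prod_sum {A B : Type} (f : A → J → K) (g : J → B → K) (l : ℕ) :
    ∀ (α : List A) (β : List B), α.length = l → β.length = l →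
    ∑ c : List.Vector J l, (List.zipWith f α c.1).prod * (List.zipWith g c.1 β).prod =
      (List.zipWith (fun x y => ∑ c, f x c * g c y) α β).prod := by
  induction l with
  | zero =>
    intro α β hα hβ
    rw [List.length_eq_zero_iff] at hα hβ
    subst hα hβ
    rw [sum_zero (fun c => (List.zipWith f [] c).prod * (List.zipWith g c []).prod)]
    simp
  | succ l ih =>
    intro α β hα hβ
    obtain ⟨x, α, rfl⟩ : ∃ x α', α = x :: α' := by
      cases α with
      | nil => simp at hα
      | cons x α => exact ⟨x, α, rfl⟩
    obtain ⟨y, β, rfl⟩ : ∃ y β', β = y :: β' := by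
      cases β with
      | nil => simp at hβ
      | cons y β => exact ⟨y, β, rfl⟩
    have hα' : α.length = l := by simpa using hα
    have hβ' : β.length = l := by simpa using hβ
    rw [sum_cons l (fun c => (List.zipWith f (x :: α) c).prod * (List.zipWith g c (y :: β)).prod)]
    simp only [List.zipWith_cons_cons, List.prod_cons]
    rw [← ih α β hα' hβ', Finset.sum_mul]
    refine Finset.sum_congr rfl fun c _ => ?_
    rw [Finset.mul_sum]
    refine Finset.sum_congr rfl fun w _ => ?_
    ring

theorem zip_reverse {A B : Type} (f : A → B → K) (α : List A) (β : List B)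
    (h : α.length = β.length) :
    (List.zipWith f α β).prod = (List.zipWith f α.reverse β.reverse).prod := by
  rw [← List.reverse_zipWith h, List.prod_reverse]

theorem zip_swap {A B : Type} (f : A → B → K) (α : List A) (β : List B) :
    (List.zipWith f α β).prod = (List.zipWith (fun b a => f a b) β α).prod := by
  rw [List.zipWith_comm]

theorem core [DecidableEq I] [DecidableEq J] (η : Matrix I I K) (η' : Matrix J J K)
    (j : Matrix I J K) (i : Matrix J I K) (h : jᵀ * η = η' * i) (l : ℕ) (s : List J → K)
    (u' : List I) (hu' : u'.length = l) :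
    ∑ v : List.Vector I l, pf j s v.1 * (List.zipWith (fun a b => η a b) v.1.reverse u').prod =
      ∑ c : List.Vector J l,
        (∑ b : List.Vector J l, s b.1 * (List.zipWith (fun a b => η' a b) b.1.reverse c.1).prod) *
          (List.zipWith (fun a b => i a b) c.1 u').prod := by
  have hL : ∀ v : List.Vector I l, pf j s v.1 * (List.zipWith (fun a b => η a b) v.1.reverse u').prod
      = ∑ b : List.Vector J l, s b.1 * ((List.zipWith (fun x y => jᵀ x y) b.1.reverse v.1.reverse).prod *
        (List.zipWith (fun a b => η a b) v.1.reverse u').prod) := by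
    intro v
    obtain ⟨v, hv⟩ := v
    subst hv
    rw [pf_eq_sum, Finset.sum_mul]
    refine Finset.sum_congr rfl fun b _ => ?_
    rw [zip_reverse (fun x y => j x y) v b.1 b.2.symm,
      zip_swap (fun x y => j x y) v.reverse b.1.reverse]
    show _ * s b.1 * _ = s b.1 * ((List.zipWith (fun x y => j y x) b.1.reverse v.reverse).prod * _)
    ring
  have hR : ∀ c : List.Vector J l,
      (∑ b : List.Vector J l, s b.1 * (List.zipWith (fun a b => η' a b) b.1.reverse c.1).prod) *
          (List.zipWith (fun a b => i a b) c.1 u').prod =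
      ∑ b : List.Vector J l, s b.1 * ((List.zipWith (fun a b => η' a b) b.1.reverse c.1).prod *
        (List.zipWith (fun a b => i a b) c.1 u').prod) := by
    intro c
    rw [Finset.sum_mul]
    exact Finset.sum_congr rfl fun b _ => by ring
  refine (Fintype.sum_congr _ _ hL).trans (Finset.sum_comm.trans
    (Eq.trans ?_ (Finset.sum_comm.trans (Fintype.sum_congr _ _ fun c => (hR c).symm))))
  refine Finset.sum_congr rfl fun b _ => ?_
  rw [← Finset.mul_sum, ← Finset.mul_sum]
  congr 1
  rw [sum_reverse l (fun v => (List.zipWith (fun x y => jᵀ x y) b.1.reverse v).prod *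
        (List.zipWith (fun a b => η a b) v u').prod)]
  have hb : b.1.reverse.length = l := by rw [List.length_reverse]; exact b.2
  rw [prod_sum (fun x y => jᵀ x y) (fun a b => η a b) l b.1.reverse u' hb hu',
    prod_sum (fun x y => η' x y) (fun a b => i a b) l b.1.reverse u' hb hu']
  have hxy : (fun (x y : _) => ∑ c, jᵀ x c * η c y) = fun x y => ∑ c, η' x c * i c y := by
    funext x y
    have := congrFun (congrFun h x) y
    rw [Matrix.mul_apply, Matrix.mul_apply] at this
    exact this
  rw [hxy]

end Pool.Agent.H26.NL.OPJ

namespace Pool.Agent.H26.NL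

open OPJ

theorem pf_OPJ : T_OPJ := by
  intro K _ I J _ _ _ _ η η' j i h l t
  ext u u'
  have hu' : u'.1.length = l := u'.2
  rw [Matrix.mul_apply]
  have e1 : op η l (pf j t) u u' = ∑ v : List.Vector I l, pf j t (u.1 ++ v.1) *
      (List.zipWith (fun a b => η a b) v.1.reverse u'.1).prod := rfl
  rw [e1]
  have e2 : ∀ v : List.Vector I l, pf j t (u.1 ++ v.1) =
      ∑ a : List.Vector J l, (List.zipWith (fun x y => j x y) u.1 a.1).prod *
        pf j (fun b => t (a.1 ++ b)) v.1 := by
    intro v
    rw [pf_append]
    obtain ⟨u, hu⟩ := u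
    subst hu
    rw [pf_eq_sum j u]
  have e3 : ∀ v : List.Vector I l, pf j t (u.1 ++ v.1) *
      (List.zipWith (fun a b => η a b) v.1.reverse u'.1).prod =
      ∑ a : List.Vector J l, (List.zipWith (fun x y => j x y) u.1 a.1).prod *
        (pf j (fun b => t (a.1 ++ b)) v.1 *
          (List.zipWith (fun a b => η a b) v.1.reverse u'.1).prod) := by
    intro v
    rw [e2, Finset.sum_mul]
    exact Finset.sum_congr rfl fun a _ => by ring
  rw [Fintype.sum_congr _ _ e3, Finset.sum_comm]
  have e4 : ∀ a : List.Vector J l, ∑ v : List.Vector I l,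
      (List.zipWith (fun x y => j x y) u.1 a.1).prod * (pf j (fun b => t (a.1 ++ b)) v.1 *
          (List.zipWith (fun a b => η a b) v.1.reverse u'.1).prod) =
      (List.zipWith (fun x y => j x y) u.1 a.1).prod * ∑ c : List.Vector J l,
        (op η' l t) a c * (Jm i l) c u' := by
    intro a
    rw [← Finset.mul_sum, core η η' j i h l (fun b => t (a.1 ++ b)) u'.1 hu']
    rfl
  rw [Fintype.sum_congr _ _ e4]
  have e5 : ∀ c : List.Vector J l, (Jm j l * op η' l t) u c * Jm i l c u' =
      ∑ a : List.Vector J l, (List.zipWith (fun x y => j x y) u.1 a.1).prod *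
        ((op η' l t) a c * (Jm i l) c u') := by
    intro c
    rw [Matrix.mul_apply, Finset.sum_mul]
    refine Finset.sum_congr rfl fun a _ => ?_
    show (List.zipWith (fun x y => j x y) u.1 a.1).prod * _ * _ = _
    ring
  rw [Fintype.sum_congr _ _ e5, Finset.sum_comm]
  refine Finset.sum_congr rfl fun a _ => ?_
  rw [Finset.mul_sum]

end Pool.Agent.H26.NL
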