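import Pool.Agent.H26.NL.Main

/-!
# Pairs `X, Y` with `|X| = |Y|` and `X^k = Y^k mod q`

The Frobenius congruence `sigma(X) Y = X sigma(Y) mod q`.
-/

set_option autoImplicit false

namespace Pool.Agent.H26.NL

open NumberField Polynomial

noncomputable section

/-- Rigidity of `k`-torsion, general form. -/
lemma rigid' {R : Type*} [CommRing R] {a b r : R} {k e : ℕ} (hk : 1 ≤ k)
    (hkr : IsCoprime r (k : R)) (ha : IsCoprime r a) (h1 : r ^ e ∣ a ^ k - b ^ k)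
    (h2 : r ∣ a - b) : r ^ e ∣ a - b := by
  set T := ∑ i ∈ Finset.range k, a ^ i * b ^ (k - 1 - i) with hT
  have h4 : (a - b) * T = a ^ k - b ^ k := (Commute.all a b).mul_geom_sum₂ k
  have h5 : r ∣ T - (k : R) * a ^ (k - 1) := by
    have h6 : (k : R) * a ^ (k - 1) = ∑ i ∈ Finset.range k, a ^ i * a ^ (k - 1 - i) := by
      have : ∀ i ∈ Finset.range k, a ^ i * a ^ (k - 1 - i) = a ^ (k - 1) := by
        intro i hi
        have := Finset.mem_range.mp hi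
        rw [← pow_add]
        congr 1
        omega
      rw [Finset.sum_congr rfl this, Finset.sum_const, Finset.card_range, nsmul_eq_mul]
    rw [h6, hT, ← Finset.sum_sub_distrib]
    refine Finset.dvd_sum fun i _ => ?_
    rw [← mul_sub]
    refine dvd_mul_of_dvd_right ?_ _
    have h7 : a - b ∣ a ^ (k - 1 - i) - b ^ (k - 1 - i) := sub_dvd_pow_sub_pow _ _ _
    have h8 := h2.trans h7
    rw [← dvd_neg, neg_sub]
    exact h8
  have h7 : IsCoprime r T := by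
    obtain ⟨y, hy⟩ := h5
    have h8 := hkr.mul_right (ha.pow_right (n := k - 1))
    have h9 : T = (k : R) * a ^ (k - 1) + r * y := by linear_combination hy
    rw [h9]
    exact IsCoprime.add_mul_left_right h8 y
  rw [← h4] at h1
  exact (h7.pow_left (m := e)).dvd_of_dvd_mul_right h1

variable {d : ℕ} [hd : Fact d.Prime] {K : Type} [Field K] [NumberField K]
  [IsCyclotomicExtension {d} ℚ K]

/-- The relation `sigma(X) Y = X sigma(Y) mod q`. -/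
def Rel (q : ℕ) (X Y : 𝓞 K) (t : (ZMod d)ˣ) : Prop :=
  (q : 𝓞 K) ∣ sg t X * Y - X * sg t Y

lemma pow_congr {R : Type*} [CommRing R] {X Y r : R} {κ n : ℕ} (h : r ∣ X ^ κ - Y ^ κ)
    (hκ : κ ∣ n) : r ∣ X ^ n - Y ^ n := by
  obtain ⟨c, rfl⟩ := hκ
  rw [pow_mul, pow_mul]
  exact h.trans (sub_dvd_pow_sub_pow _ _ _)

/-- Lifting from `r` to `q`. -/
lemma Rel.lift {r e κ q : ℕ} (hκ1 : 1 ≤ κ) (D : Dat r e κ q) {X Y : 𝓞 K}
    (hXY : (q : 𝓞 K) ∣ X ^ κ - Y ^ κ) (hY : IsCoprime (r : 𝓞 K) Y)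
    (t : (ZMod d)ˣ) (hX : IsCoprime (r : 𝓞 K) (sg t X))
    (h : (r : 𝓞 K) ∣ sg t X * Y - X * sg t Y) : Rel q X Y t := by
  have hqe : (q : 𝓞 K) = (r : 𝓞 K) ^ e := by rw [D.hq]; push_cast; rfl
  have h1 : (q : 𝓞 K) ∣ (sg t X) ^ κ - (sg t Y) ^ κ := by
    have := map_dvd (sg (K := K) t) hXY
    rwa [map_sub, map_pow, map_pow, map_natCast] at this
  have h2 : (q : 𝓞 K) ∣ (sg t X * Y) ^ κ - (X * sg t Y) ^ κ := by
    have h3 : (sg t X * Y) ^ κ - (X * sg t Y) ^ κ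
        = ((sg t X) ^ κ - (sg t Y) ^ κ) * Y ^ κ - (X ^ κ - Y ^ κ) * (sg t Y) ^ κ := by
      rw [mul_pow, mul_pow]; ring
    rw [h3]
    exact dvd_sub (dvd_mul_of_dvd_left h1 _) (dvd_mul_of_dvd_left hXY _)
  unfold Rel
  rw [hqe] at h2 ⊢
  exact rigid' hκ1 D.coprime (hX.mul_right hY) h2 h

lemma r_dvd_q {r e κ q : ℕ} (D : Dat r e κ q) : (r : 𝓞 K) ∣ (q : 𝓞 K) := by
  rw [D.hq]; push_cast
  exact dvd_pow_self _ (by have := D.he; omega)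

lemma coprime_sg {r : ℕ} {X : 𝓞 K} (t : (ZMod d)ˣ) (h : IsCoprime (r : 𝓞 K) X) :
    IsCoprime (r : 𝓞 K) (sg t X) := by
  have := h.map (sg (K := K) t)
  rwa [map_natCast] at this

/-- Frobenius, `r` prime to `d`. -/
lemma Rel.frob {r e κ q : ℕ} (hκ1 : 1 ≤ κ) (D : Dat r e κ q) {X Y : 𝓞 K}
    (hXY : (q : 𝓞 K) ∣ X ^ κ - Y ^ κ) (hX : IsCoprime (r : 𝓞 K) X) (hY : IsCoprime (r : 𝓞 K) Y)
    (ρ : (ZMod d)ˣ) (hρ : (ρ : ZMod d) = (r : ZMod d)) : Rel q X Y ρ := by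
  refine Rel.lift hκ1 D hXY hY ρ (coprime_sg ρ hX) ?_
  have h1 := frob_sg r D.hr ρ hρ X
  have h2 := frob_sg r D.hr ρ hρ Y
  have h3 : (r : 𝓞 K) ∣ X ^ (r - 1) - Y ^ (r - 1) :=
    pow_congr ((r_dvd_q D).trans hXY) D.hk
  have hr1 : r = (r - 1) + 1 := by have := D.hr.one_lt; omega
  have h4 : sg ρ X * Y - X * sg ρ Y
      = X * Y * (X ^ (r - 1) - Y ^ (r - 1)) - (X ^ r - sg ρ X) * Y + X * (Y ^ r - sg ρ Y) := by
    have e1 : X ^ r = X ^ (r - 1) * X := by rw [← pow_succ, ← hr1]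
    have e2 : Y ^ r = Y ^ (r - 1) * Y := by rw [← pow_succ, ← hr1]
    rw [e1, e2]; ring
  rw [h4]
  exact dvd_add (dvd_sub (dvd_mul_of_dvd_right h3 _) (dvd_mul_of_dvd_left h1 _))
    (dvd_mul_of_dvd_right h2 _)

/-- Frobenius in the ramified case `r = d`. -/
lemma Rel.frob_d {r e κ q : ℕ} (hκ1 : 1 ≤ κ) (D : Dat r e κ q) (hrd : r = d) {X Y : 𝓞 K}
    (hXY : (q : 𝓞 K) ∣ X ^ κ - Y ^ κ) (hX : IsCoprime (r : 𝓞 K) X) (hY : IsCoprime (r : 𝓞 K) Y)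
    (t : (ZMod d)ˣ) : Rel q X Y t := by
  refine Rel.lift hκ1 D hXY hY t (coprime_sg t hX) ?_
  -- `X^r` and `Y^r` are congruent to integers
  have hint : ∀ Z : 𝓞 K, ∃ n : ℤ, (r : 𝓞 K) ∣ Z ^ r - (n : 𝓞 K) := by
    intro Z
    obtain ⟨f, hf⟩ := exists_poly (d := d) Z
    refine ⟨f.eval 1, ?_⟩
    have h2 := frob_poly r D.hr (zt d K) f
    rw [← hf, hrd, (zt_spec d K).pow_eq_one, ← hrd] at h2
    have h3 : aeval (1 : 𝓞 K) f = ((f.eval 1 : ℤ) : 𝓞 K) := by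
      rw [aeval_def]
      simp
    rwa [h3] at h2
  obtain ⟨n, hn⟩ := hint X
  obtain ⟨m, hm⟩ := hint Y
  have h3 : (r : 𝓞 K) ∣ X ^ (r - 1) - Y ^ (r - 1) :=
    pow_congr ((r_dvd_q D).trans hXY) D.hk
  have hr1 : r = (r - 1) + 1 := by have := D.hr.one_lt; omega
  have e1 : X ^ r = X ^ (r - 1) * X := by rw [← pow_succ, ← hr1]
  have e2 : Y ^ r = Y ^ (r - 1) * Y := by rw [← pow_succ, ← hr1]
  -- `n Y = m X`
  have h4 : (r : 𝓞 K) ∣ (n : 𝓞 K) * Y - (m : 𝓞 K) * X := by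
    have h5 : (n : 𝓞 K) * Y - (m : 𝓞 K) * X
        = X * Y * (X ^ (r - 1) - Y ^ (r - 1)) - (X ^ r - n) * Y + (Y ^ r - m) * X := by
      rw [e1, e2]; ring
    rw [h5]
    exact dvd_add (dvd_sub (dvd_mul_of_dvd_right h3 _) (dvd_mul_of_dvd_left hn _))
      (dvd_mul_of_dvd_left hm _)
  have h5 : (r : 𝓞 K) ∣ (n : 𝓞 K) * sg t Y - (m : 𝓞 K) * sg t X := by
    have := map_dvd (sg (K := K) t) h4
    rwa [map_natCast, map_sub, map_mul, map_mul, map_intCast, map_intCast] at this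
  have h6 : (r : 𝓞 K) ∣ (sg t X * Y - X * sg t Y) * (m : 𝓞 K) := by
    have h7 : (sg t X * Y - X * sg t Y) * (m : 𝓞 K)
        = ((n : 𝓞 K) * Y - (m : 𝓞 K) * X) * sg t Y
          - ((n : 𝓞 K) * sg t Y - (m : 𝓞 K) * sg t X) * Y := by ring
    rw [h7]
    exact dvd_sub (dvd_mul_of_dvd_left h4 _) (dvd_mul_of_dvd_left h5 _)
  have h7 : IsCoprime (r : 𝓞 K) (m : 𝓞 K) := by
    obtain ⟨z, hz⟩ := hm
    have h8 : IsCoprime (r : 𝓞 K) (Y ^ r) := hY.pow_right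
    have h9 : (m : 𝓞 K) = Y ^ r + (r : 𝓞 K) * (-z) := by linear_combination -hz
    rw [h9]
    exact IsCoprime.add_mul_left_right h8 _
  exact h7.dvd_of_dvd_mul_right h6

/-- Composition. -/
lemma Rel.comp {q : ℕ} {X Y : 𝓞 K} {s t : (ZMod d)ˣ} (hs : Rel q X Y s) (ht : Rel q X Y t)
    (hY : IsCoprime (q : 𝓞 K) (sg s Y)) : Rel q X Y (s * t) := by
  unfold Rel at *
  have h1 := map_dvd (sg (K := K) s) ht
  rw [map_natCast, map_sub, map_mul, map_mul, ← sg_mul, ← sg_mul] at h1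
  have h2 : (q : 𝓞 K) ∣ (sg (s * t) X * Y - X * sg (s * t) Y) * sg s Y := by
    have h3 : (sg (s * t) X * Y - X * sg (s * t) Y) * sg s Y
        = (sg (s * t) X * sg s Y - sg s X * sg (s * t) Y) * Y
          + (sg s X * Y - X * sg s Y) * sg (s * t) Y := by ring
    rw [h3]
    exact dvd_add (dvd_mul_of_dvd_left h1 _) (dvd_mul_of_dvd_left hs _)
  exact hY.dvd_of_dvd_mul_right h2

/-- Powers. -/
lemma Rel.iter {r e κ q : ℕ} (D : Dat r e κ q) {X Y : 𝓞 K} {ρ : (ZMod d)ˣ}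
    (h : Rel q X Y ρ) (hY : IsCoprime (r : 𝓞 K) Y) (j : ℕ) : Rel q X Y (ρ ^ j) := by
  induction j with
  | zero => unfold Rel; rw [pow_zero, sg_one, sg_one, sub_self]; exact dvd_zero _
  | succ j ih =>
    rw [pow_succ']
    refine Rel.comp h ih ?_
    have := (coprime_sg ρ hY).pow_left (m := e)
    rw [D.hq]; push_cast
    exact this

/-- The case of complex conjugation. -/
lemma Rel.conj {r e κ q : ℕ} (D : Dat r e κ q) (hodd : Odd κ) {X Y : 𝓞 K}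
    (h : Rel q X Y (-1 : (ZMod d)ˣ)) (hXY : (q : 𝓞 K) ∣ X ^ κ - Y ^ κ)
    (hX : IsCoprime (r : 𝓞 K) X) (hY : IsCoprime (r : 𝓞 K) Y)
    (hn : X * sg (-1 : (ZMod d)ˣ) X = Y * sg (-1 : (ZMod d)ˣ) Y) : (q : 𝓞 K) ∣ X - Y := by
  unfold Rel at h
  have hq : (q : 𝓞 K) = (r : 𝓞 K) ^ e := by rw [D.hq]; push_cast; rfl
  set c : 𝓞 K →+* 𝓞 K := sg (-1 : (ZMod d)ˣ) with hc
  have h1 : (q : 𝓞 K) ∣ (X ^ 2 - Y ^ 2) * c X := by
    have h2 : (X ^ 2 - Y ^ 2) * c X = -((c X * Y - X * c Y) * Y) := by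
      linear_combination X * hn
    rw [h2, dvd_neg]
    exact dvd_mul_of_dvd_left h _
  have hcX : IsCoprime (q : 𝓞 K) (c X) := by
    rw [hq]; exact (coprime_sg _ hX).pow_left
  have h2 : (q : 𝓞 K) ∣ X ^ 2 - Y ^ 2 := hcX.dvd_of_dvd_mul_right h1
  obtain ⟨m, hm⟩ := hodd
  have h3 : (q : 𝓞 K) ∣ (X ^ 2) ^ m - (Y ^ 2) ^ m := h2.trans (sub_dvd_pow_sub_pow _ _ _)
  have h4 : (q : 𝓞 K) ∣ (X - Y) * (Y ^ 2) ^ m := by
    have h5 : (X - Y) * (Y ^ 2) ^ m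
        = (X ^ κ - Y ^ κ) - X * ((X ^ 2) ^ m - (Y ^ 2) ^ m) := by
      rw [hm]; ring
    rw [h5]
    exact dvd_sub hXY (dvd_mul_of_dvd_right h3 _)
  have hY2 : IsCoprime (q : 𝓞 K) ((Y ^ 2) ^ m) := by
    rw [hq]; exact ((hY.pow_right (n := 2)).pow_right (n := m)).pow_left
  exact hY2.dvd_of_dvd_mul_right h4

/-! ### Norms -/

/-- The absolute value of the norm. -/
def nm (x : 𝓞 K) : ℕ := (Algebra.norm ℤ x).natAbs

lemma nm_eq (x : 𝓞 K) : (nm x : ℝ) = ∏ σ : K →ₐ[ℚ] ℂ, ‖σ (algebraMap (𝓞 K) K x)‖ := by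
  have h1 := Algebra.norm_eq_prod_embeddings ℚ ℂ (algebraMap (𝓞 K) K x)
  have h2 : (Algebra.norm ℚ (algebraMap (𝓞 K) K x)) = ((Algebra.norm ℤ x : ℤ) : ℚ) :=
    (Algebra.coe_norm_int x).symm
  rw [h2] at h1
  have h4 := congrArg norm h1
  rw [norm_prod] at h4
  rw [← h4, nm]
  simp

lemma nm_mul (x y : 𝓞 K) : nm (x * y) = nm x * nm y := by
  rw [nm, nm, nm, map_mul, Int.natAbs_mul]

lemma nm_pow (x : 𝓞 K) (n : ℕ) : nm (x ^ n) = nm x ^ n := by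
  rw [nm, nm, map_pow, Int.natAbs_pow]

lemma nm_span (x : 𝓞 K) : Ideal.absNorm (Ideal.span {x}) = nm x :=
  Ideal.absNorm_span_singleton x

lemma nm_unit {u : 𝓞 K} (hu : IsUnit u) : nm u = 1 := by
  rw [← nm_span, Ideal.span_singleton_eq_top.mpr hu, Ideal.absNorm_top]

variable (d) in
include hd in
/-- Bound with two factors. -/
lemma nm_le_two (α X Z : 𝓞 K) (h : ∀ f : 𝓞 K →+* ℂ, ‖f α‖ ≤ 2 * (‖f X‖ * ‖f Z‖)) :
    nm α ≤ 2 ^ (d - 1) * (nm X * nm Z) := by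
  have h1 : (nm α : ℝ) ≤ 2 ^ (d - 1) * ((nm X : ℝ) * (nm Z : ℝ)) := by
    rw [nm_eq, nm_eq X, nm_eq Z]
    have hcard : Fintype.card (K →ₐ[ℚ] ℂ) = d - 1 := by
      rw [AlgHom.card, finrank_K d K]
    calc ∏ σ : K →ₐ[ℚ] ℂ, ‖σ (algebraMap (𝓞 K) K α)‖
        ≤ ∏ σ : K →ₐ[ℚ] ℂ, (2 * (‖σ (algebraMap (𝓞 K) K X)‖ * ‖σ (algebraMap (𝓞 K) K Z)‖)) := by
          refine Finset.prod_le_prod (fun σ _ => by positivity) fun σ _ => ?_
          exact h (σ.toRingHom.comp (algebraMap (𝓞 K) K))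
      _ = _ := by
          rw [Finset.prod_mul_distrib, Finset.prod_mul_distrib, Finset.prod_const,
            Finset.card_univ, hcard]
  exact_mod_cast h1

variable (d) in
include hd in
lemma nm_le_one (α X : 𝓞 K) (h : ∀ f : 𝓞 K →+* ℂ, ‖f α‖ ≤ 2 * ‖f X‖) :
    nm α ≤ 2 ^ (d - 1) * nm X := by
  have := nm_le_two d α X 1 (fun f => by rw [map_one, norm_one, mul_one]; exact h f)
  rwa [nm_unit isUnit_one, mul_one] at this

/-- Equal absolute values. -/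
lemma abs_eq {X Y : 𝓞 K} (hn : X * sg (-1 : (ZMod d)ˣ) X = Y * sg (-1 : (ZMod d)ˣ) Y)
    (f : 𝓞 K →+* ℂ) : ‖f X‖ = ‖f Y‖ := by
  have h1 := norm_sq_emb (d := d) f X
  have h2 := norm_sq_emb (d := d) f Y
  rw [hn, ← h2] at h1
  have h3 : ‖f X‖ ^ 2 = ‖f Y‖ ^ 2 := by exact_mod_cast h1
  exact (pow_left_inj₀ (norm_nonneg _) (norm_nonneg _) two_ne_zero).mp h3

lemma abs_eq_sg {X Y : 𝓞 K} (hn : X * sg (-1 : (ZMod d)ˣ) X = Y * sg (-1 : (ZMod d)ˣ) Y)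
    (t : (ZMod d)ˣ) (f : 𝓞 K →+* ℂ) : ‖f (sg t X)‖ = ‖f (sg t Y)‖ :=
  abs_eq hn (f.comp (sg t))

/-- The norm of an element of `(q) I`. -/
lemma le_nm {q : ℕ} {α : 𝓞 K} (h0 : α ≠ 0) (hq : (q : 𝓞 K) ∣ α) {I : Ideal (𝓞 K)}
    (hI : α ∈ I) (hc : IsCoprime (Ideal.span {(q : 𝓞 K)}) I) :
    q ^ (d - 1) * Ideal.absNorm I ≤ nm α := by
  have h1 : α ∈ Ideal.span {(q : 𝓞 K)} * I := by
    rw [Ideal.mul_eq_inf_of_isCoprime hc]
    exact ⟨Ideal.mem_span_singleton.mpr hq, hI⟩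
  have h2 := Ideal.absNorm_dvd_norm_of_mem h1
  rw [map_mul, Ideal.absNorm_span_natCast, finrank_O d K] at h2
  have h3 : Algebra.norm ℤ α ≠ 0 := by
    rw [ne_eq, Algebra.norm_eq_zero_iff]; exact h0
  exact Nat.le_of_dvd (Int.natAbs_pos.mpr h3) (Int.natCast_dvd.mp h2)

end

end Pool.Agent.H26.NL
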