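import Pool.Agent.H26.NL.Basic

/-!
# The elements `sigma_t (1 - zeta q)`

Their product is `p^k`, they are pairwise coprime, and an element in the kernel of
`phi : Z[zeta] -> F_p`, `zeta -> q^{-1}`, has its `k`-th power divisible by `1 - zeta q`.
-/

set_option autoImplicit false

namespace Pool.Agent.H26.NL

open NumberField Polynomial

noncomputable section

variable {d : ℕ} [hd : Fact d.Prime] {K : Type} [Field K] [NumberField K]
  [IsCyclotomicExtension {d} ℚ K]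

/-- Product over the units of `X - zeta^t`. -/
lemma prod_X_sub (a : 𝓞 K) :
    ∏ t : (ZMod d)ˣ, (a - zt d K ^ (t : ZMod d).val) = ∑ i ∈ Finset.range d, a ^ i := by
  have h := congrArg (Polynomial.eval a) (cyclotomic_eq_prod_X_sub_primitiveRoots (zt_spec d K))
  rw [cyclotomic_prime, eval_finsetSum, eval_prod] at h
  simp only [eval_pow, eval_X, eval_sub, eval_C] at h
  rw [h]
  refine Finset.prod_bij (fun t _ => zt d K ^ (t : ZMod d).val) ?_ ?_ ?_ ?_
  · intro t _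
    rw [mem_primitiveRoots hd.out.pos]
    refine (zt_spec d K).pow_of_coprime _ ?_
    exact ((Nat.Prime.coprime_iff_not_dvd hd.out).mpr (unit_val_ne t)).symm
  · intro s _ t _ hst
    have h1 := (zt_spec d K).pow_inj (ZMod.val_lt _) (ZMod.val_lt _) hst
    exact Units.ext (ZMod.val_injective d h1)
  · intro b hb
    rw [mem_primitiveRoots hd.out.pos, (zt_spec d K).isPrimitiveRoot_iff] at hb
    obtain ⟨i, hi, hic, rfl⟩ := hb
    refine ⟨ZMod.unitOfCoprime i hic, Finset.mem_univ _, ?_⟩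
    rw [ZMod.coe_unitOfCoprime, pow_val_eq (zt_spec d K).pow_eq_one]
  · intro t _; rfl

lemma zt_pow_neg (t : (ZMod d)ˣ) :
    zt d K ^ (t : ZMod d).val * zt d K ^ ((-t : (ZMod d)ˣ) : ZMod d).val = 1 := by
  rw [← pow_add, ← pow_val_eq (zt_spec d K).pow_eq_one]
  have : (((t : ZMod d).val + ((-t : (ZMod d)ˣ) : ZMod d).val : ℕ) : ZMod d) = 0 := by
    rw [Nat.cast_add, ZMod.natCast_zmod_val, ZMod.natCast_zmod_val, Units.val_neg, add_neg_cancel]
  rw [this, ZMod.val_zero, pow_zero]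

/-- The element `1 - zeta q`. -/
def PP (d : ℕ) [Fact d.Prime] (K : Type) [Field K] [NumberField K]
    [IsCyclotomicExtension {d} ℚ K] (q : ℕ) : 𝓞 K := 1 - zt d K * q

lemma sg_PP (t : (ZMod d)ˣ) (q : ℕ) :
    sg t (PP d K q) = 1 - zt d K ^ (t : ZMod d).val * q := by
  rw [PP, map_sub, map_mul, sg_zt, map_one, map_natCast]

lemma prod_sg_PP (q : ℕ) :
    ∏ t : (ZMod d)ˣ, sg t (PP d K q) = ∑ i ∈ Finset.range d, (q : 𝓞 K) ^ i := by
  have h1 : ∏ t : (ZMod d)ˣ, (0 - zt d K ^ (t : ZMod d).val) = 1 := by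
    rw [prod_X_sub, Finset.sum_eq_single_of_mem 0 (Finset.mem_range.mpr hd.out.pos)]
    · simp
    · intro b _ hb; simp [hb]
  have h2 : ∏ t : (ZMod d)ˣ, ((q : 𝓞 K) - zt d K ^ ((-t : (ZMod d)ˣ) : ZMod d).val)
      = ∑ i ∈ Finset.range d, (q : 𝓞 K) ^ i := by
    rw [← prod_X_sub (d := d) (K := K) (q : 𝓞 K)]
    exact Equiv.prod_comp (Equiv.neg (ZMod d)ˣ)
      (fun t => (q : 𝓞 K) - zt d K ^ ((t : (ZMod d)ˣ) : ZMod d).val)
  rw [← h2, ← one_mul (∏ t : (ZMod d)ˣ, ((q : 𝓞 K) - _)), ← h1, ← Finset.prod_mul_distrib]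
  refine Finset.prod_congr rfl fun t _ => ?_
  rw [sg_PP]
  have := zt_pow_neg (K := K) t
  linear_combination -this

/-- A solution of the equation, with the data used below. -/
structure Sol (d p k q : ℕ) : Prop where
  hp : p.Prime
  hd2 : 2 < d
  hk : 2 ≤ k
  hq : 2 ≤ q
  eq : ∑ i ∈ Finset.range d, q ^ i = p ^ k

omit hd in
lemma Sol.q_pow {p k q : ℕ} (S : Sol d p k q) : q ^ d = (q - 1) * p ^ k + 1 := by
  have h := Nat.geomSum_eq S.hq d
  have h2 : (q - 1) ∣ q ^ d - 1 := by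
    simpa using Nat.sub_dvd_pow_sub_pow q 1 d
  rw [S.eq] at h
  have hq := S.hq
  rw [h, Nat.mul_div_cancel' h2]
  have : 1 ≤ q ^ d := Nat.one_le_pow _ _ (by omega)
  omega

lemma Sol.not_dvd_q {p k q : ℕ} (S : Sol d p k q) : ¬ p ∣ q := by
  intro h
  have h1 : p ∣ q ^ d := dvd_pow h (NeZero.ne d)
  rw [S.q_pow] at h1
  have h2 : p ∣ (q - 1) * p ^ k :=
    dvd_mul_of_dvd_right (dvd_pow_self p (by have := S.hk; omega)) _
  have := (Nat.dvd_add_right h2).mp h1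
  exact S.hp.one_lt.ne' (Nat.dvd_one.mp this)

lemma Sol.not_dvd_q_sub {p k q : ℕ} (S : Sol d p k q) : ¬ p ∣ q - 1 := by
  intro h
  have hq := S.hq
  have hk := S.hk
  -- `p = d`
  have h1 : p ∣ d := by
    have hmod : q ≡ 1 [MOD p] := by
      exact ((Nat.modEq_iff_dvd' (by omega)).mpr h).symm
    have h2 : ∑ i ∈ Finset.range d, q ^ i ≡ ∑ i ∈ Finset.range d, 1 [MOD p] := by
      rw [← ZMod.natCast_eq_natCast_iff]
      push_cast
      refine Finset.sum_congr rfl fun i _ => ?_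
      have : ((q : ℕ) : ZMod p) = ((1 : ℕ) : ZMod p) := (ZMod.natCast_eq_natCast_iff _ _ _).mpr hmod
      rw [this]; simp
    rw [S.eq] at h2
    simp only [Finset.sum_const, Finset.card_range, smul_eq_mul, mul_one] at h2
    have h3 : p ∣ p ^ k := dvd_pow_self p (by omega)
    exact (Nat.modEq_zero_iff_dvd.mp (h2.symm.trans (Nat.modEq_zero_iff_dvd.mpr h3)))
  have hpd : p = d := (Nat.prime_dvd_prime_iff_eq S.hp hd.out).mp h1
  have : Fact p.Prime := ⟨S.hp⟩
  have hodd : Odd p := by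
    rcases S.hp.eq_two_or_odd' with h2 | h2
    · have := S.hd2; omega
    · exact h2
  have hv := padicValNat.pow_sub_pow hodd (x := q) (y := 1) (by omega) h S.not_dvd_q
    (n := d) (NeZero.ne d)
  rw [one_pow, S.q_pow, Nat.add_sub_cancel, padicValNat.mul (by omega)
    (pow_ne_zero _ S.hp.ne_zero), padicValNat.prime_pow, ← hpd, padicValNat_self] at hv
  omega

lemma Sol.p_ne_d {p k q : ℕ} (S : Sol d p k q) : p ≠ d := by
  intro h
  apply S.not_dvd_q_sub
  have hk := S.hk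
  have hq := S.hq
  have : Fact p.Prime := ⟨S.hp⟩
  have h1 : ((q ^ d : ℕ) : ZMod p) = (((q - 1) * p ^ k + 1 : ℕ) : ZMod p) := by rw [S.q_pow]
  push_cast at h1
  rw [ZMod.natCast_self, zero_pow (by omega), mul_zero, zero_add, ← h, ZMod.pow_card] at h1
  have h2 : (q : ZMod p) = ((1 : ℕ) : ZMod p) := by rw [h1]; simp
  have h3 := (ZMod.natCast_eq_natCast_iff _ _ _).mp h2
  exact (Nat.modEq_iff_dvd' (by omega)).mp h3.symm

lemma Sol.coprime_qp {p k q : ℕ} (S : Sol d p k q) : Nat.Coprime q (p ^ k) :=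
  (Nat.Coprime.pow_left k ((Nat.Prime.coprime_iff_not_dvd S.hp).mpr S.not_dvd_q)).symm

/-- the value of `phi` at `zeta` -/
lemma Sol.w_geom {p k q : ℕ} (S : Sol d p k q) [hp : Fact p.Prime] :
    ∑ i ∈ Finset.range d, ((q : ZMod p)⁻¹) ^ i = 0 := by
  have hk := S.hk
  have hq := S.hq
  have hq0 : (q : ZMod p) ≠ 0 := by
    intro h; exact S.not_dvd_q ((ZMod.natCast_eq_zero_iff _ _).mp h)
  apply geom_zero
  · rw [inv_pow]
    have h1 : ((q ^ d : ℕ) : ZMod p) = (((q - 1) * p ^ k + 1 : ℕ) : ZMod p) := by rw [S.q_pow]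
    push_cast at h1
    rw [ZMod.natCast_self, zero_pow (by omega), mul_zero, zero_add] at h1
    rw [h1, inv_one]
  · intro h
    apply S.not_dvd_q_sub
    have h1 : (q : ZMod p) = 1 := by rw [← inv_inv (q : ZMod p), h, inv_one]
    have h2 : (q : ZMod p) = ((1 : ℕ) : ZMod p) := by rw [h1]; simp
    have h3 := (ZMod.natCast_eq_natCast_iff _ _ _).mp h2
    exact (Nat.modEq_iff_dvd' (by omega)).mp h3.symm

/-- The homomorphism `phi : Z[zeta] -> F_p`, `zeta -> q^{-1}`. -/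
def Sol.phi {p k q : ℕ} (S : Sol d p k q) [hp : Fact p.Prime] : 𝓞 K →+* ZMod p :=
  lft ((q : ZMod p)⁻¹) S.w_geom

lemma Sol.phi_zt {p k q : ℕ} (S : Sol d p k q) [hp : Fact p.Prime] :
    S.phi (zt d K) = (q : ZMod p)⁻¹ := lft_zt _ _

lemma Sol.q_ne {p k q : ℕ} (S : Sol d p k q) [hp : Fact p.Prime] : (q : ZMod p) ≠ 0 := by
  intro h; exact S.not_dvd_q ((ZMod.natCast_eq_zero_iff _ _).mp h)

lemma Sol.w_pow {p k q : ℕ} (S : Sol d p k q) [hp : Fact p.Prime] :
    ((q : ZMod p)⁻¹) ^ d = 1 := by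
  have := mul_geom_sum ((q : ZMod p)⁻¹) d
  rw [S.w_geom, mul_zero] at this
  exact (sub_eq_zero.mp this.symm)

lemma Sol.w_ne {p k q : ℕ} (S : Sol d p k q) [hp : Fact p.Prime] :
    ((q : ZMod p)⁻¹) ≠ 1 := by
  intro h
  have hg := S.w_geom
  rw [h] at hg
  simp only [one_pow, Finset.sum_const, Finset.card_range, nsmul_eq_mul, mul_one] at hg
  have := (ZMod.natCast_eq_zero_iff _ _).mp hg
  exact S.p_ne_d ((Nat.prime_dvd_prime_iff_eq S.hp hd.out).mp this)

lemma Sol.phi_PP {p k q : ℕ} (S : Sol d p k q) [hp : Fact p.Prime] :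
    S.phi (PP d K q) = 0 := by
  rw [PP, map_sub, map_mul, S.phi_zt, map_one, map_natCast, inv_mul_cancel₀ S.q_ne, sub_self]

lemma Sol.orderOf_w {p k q : ℕ} (S : Sol d p k q) [hp : Fact p.Prime] :
    orderOf ((q : ZMod p)⁻¹) = d := orderOf_eq_prime S.w_pow S.w_ne

lemma Sol.phi_sg_PP {p k q : ℕ} (S : Sol d p k q) [hp : Fact p.Prime] (t : (ZMod d)ˣ)
    (h : S.phi (sg t (PP d K q)) = 0) : t = 1 := by
  rw [sg_PP, map_sub, map_mul, map_pow, S.phi_zt, map_one, map_natCast] at h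
  have h1 : ((q : ZMod p)⁻¹) ^ (t : ZMod d).val * q = ((q : ZMod p)⁻¹) ^ 1 * q := by
    rw [pow_one, inv_mul_cancel₀ S.q_ne]
    exact (sub_eq_zero.mp h).symm
  have h2 := mul_right_cancel₀ S.q_ne h1
  have hprim : IsPrimitiveRoot ((q : ZMod p)⁻¹) d := by
    have := IsPrimitiveRoot.orderOf ((q : ZMod p)⁻¹)
    rwa [S.orderOf_w] at this
  have h3 : (t : ZMod d).val = 1 := hprim.pow_inj (ZMod.val_lt _) hd.out.one_lt h2
  apply Units.ext
  have h4 : (((t : ZMod d).val : ℕ) : ZMod d) = ((1 : ℕ) : ZMod d) := by rw [h3]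
  rw [ZMod.natCast_zmod_val] at h4
  simpa using h4

/-- Coprimality of the conjugates. -/
lemma Sol.dvd_pk {p k q : ℕ} (S : Sol d p k q) (t : (ZMod d)ˣ) :
    sg t (PP d K q) ∣ (p : 𝓞 K) ^ k := by
  have h : ∏ t : (ZMod d)ˣ, sg t (PP d K q) = (p : 𝓞 K) ^ k := by
    rw [prod_sg_PP]
    have := congrArg (Nat.cast (R := 𝓞 K)) S.eq
    push_cast at this
    exact this
  rw [← h]
  exact Finset.dvd_prod_of_mem _ (Finset.mem_univ t)

lemma Sol.prod_eq {p k q : ℕ} (S : Sol d p k q) :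
    ∏ t : (ZMod d)ˣ, sg t (PP d K q) = (p : 𝓞 K) ^ k := by
  rw [prod_sg_PP]
  have := congrArg (Nat.cast (R := 𝓞 K)) S.eq
  push_cast at this
  exact this

lemma zt_sub_dvd {s t : (ZMod d)ˣ} (hst : s ≠ t) :
    (zt d K ^ (s : ZMod d).val - zt d K ^ (t : ZMod d).val) ∣ (d : 𝓞 K) := by
  -- `zeta^s (1 - zeta^u)` with `u = t / s`... written as `zeta^s - zeta^t`
  have key : ∀ u : (ZMod d)ˣ, (1 - zt d K ^ (u : ZMod d).val) ∣ (d : 𝓞 K) := by
    intro u
    have h := prod_X_sub (d := d) (K := K) 1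
    simp only [one_pow, Finset.sum_const, Finset.card_range, nsmul_eq_mul, mul_one] at h
    rw [← h]
    exact Finset.dvd_prod_of_mem (fun t : (ZMod d)ˣ => 1 - zt d K ^ (t : ZMod d).val)
      (Finset.mem_univ u)
  have hne : (t : ZMod d) - (s : ZMod d) ≠ 0 := by
    intro h; exact hst (Units.ext (sub_eq_zero.mp h).symm)
  set u : (ZMod d)ˣ := Units.mk0 _ hne with hu
  have h1 : zt d K ^ (t : ZMod d).val = zt d K ^ (s : ZMod d).val * zt d K ^ (u : ZMod d).val := by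
    rw [← pow_add, ← pow_val_eq (zt_spec d K).pow_eq_one ((s : ZMod d).val + (u : ZMod d).val)]
    congr 2
    rw [Nat.cast_add, ZMod.natCast_zmod_val, ZMod.natCast_zmod_val, hu, Units.val_mk0]
    ring
  have h2 : zt d K ^ (s : ZMod d).val - zt d K ^ (t : ZMod d).val
      = zt d K ^ (s : ZMod d).val * (1 - zt d K ^ (u : ZMod d).val) := by
    rw [h1]; ring
  rw [h2]
  have hun : IsUnit (zt d K ^ (s : ZMod d).val) :=
    IsUnit.of_mul_eq_one _ (zt_pow_neg s)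
  exact (hun.mul_left_dvd).mpr (key u)

lemma Sol.coprime_PP {p k q : ℕ} (S : Sol d p k q) {s t : (ZMod d)ˣ} (hst : s ≠ t) :
    IsCoprime (sg s (PP d K q)) (sg t (PP d K q)) := by
  have h1 : IsCoprime (sg s (PP d K q)) (q : 𝓞 K) := by
    refine ⟨1, zt d K ^ (s : ZMod d).val, ?_⟩
    rw [sg_PP]; ring
  have h2 : IsCoprime (sg s (PP d K q)) (d : 𝓞 K) := by
    refine IsCoprime.of_isCoprime_of_dvd_left ?_ (S.dvd_pk s)
    have hc : Nat.Coprime (p ^ k) d :=
      Nat.Coprime.pow_left k ((Nat.coprime_primes S.hp hd.out).mpr S.p_ne_d)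
    have := (Nat.isCoprime_iff_coprime.mpr hc).map (Int.castRingHom (𝓞 K))
    simpa using this
  have h3 : IsCoprime (sg s (PP d K q))
      (zt d K ^ (s : ZMod d).val - zt d K ^ (t : ZMod d).val) :=
    IsCoprime.of_isCoprime_of_dvd_right h2 (zt_sub_dvd hst)
  have h4 := h3.mul_right h1
  have h5 : sg t (PP d K q) = sg s (PP d K q) +
      (zt d K ^ (s : ZMod d).val - zt d K ^ (t : ZMod d).val) * q := by
    rw [sg_PP, sg_PP]; ring
  rw [h5]
  exact (IsCoprime.add_mul_left_right h4 1).symm.symm |> fun h => by simpa [add_comm] using h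

/-- Every element is congruent to an integer modulo `1 - zeta q`. -/
lemma Sol.exists_int {p k q : ℕ} (S : Sol d p k q) (x : 𝓞 K) :
    ∃ n : ℤ, PP d K q ∣ x - (n : 𝓞 K) := by
  obtain ⟨f, rfl⟩ := exists_poly (d := d) x
  have hc := Nat.isCoprime_iff_coprime.mpr S.coprime_qp
  obtain ⟨a, b, hab⟩ := hc
  refine ⟨f.eval a, ?_⟩
  have h1 : PP d K q ∣ zt d K - (a : 𝓞 K) := by
    have h2 : PP d K q ∣ (p : 𝓞 K) ^ k := by
      have := S.dvd_pk (K := K) 1
      rwa [sg_one] at this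
    have h3 : zt d K - (a : 𝓞 K)
        = -(a : 𝓞 K) * PP d K q + zt d K * (b : 𝓞 K) * (p : 𝓞 K) ^ k := by
      have h4 : (a : 𝓞 K) * q + b * (p : 𝓞 K) ^ k = 1 := by
        have := congrArg (Int.cast (R := 𝓞 K)) hab
        push_cast at this
        exact this
      rw [PP]
      linear_combination (-zt d K) * h4
    rw [h3]
    exact dvd_add (dvd_mul_left _ _) (dvd_mul_of_dvd_right h2 _)
  refine h1.trans ?_
  have h5 := Polynomial.sub_dvd_eval_sub (zt d K) (a : 𝓞 K) (f.map (Int.castRingHom (𝓞 K)))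
  have h6 : Polynomial.eval (zt d K) (f.map (Int.castRingHom (𝓞 K))) = aeval (zt d K) f := by
    rw [eval_map, aeval_def]; rfl
  have h7 : Polynomial.eval (a : 𝓞 K) (f.map (Int.castRingHom (𝓞 K))) = ((f.eval a : ℤ) : 𝓞 K) := by
    rw [eval_map]
    simp
  rw [h6, h7] at h5
  exact h5

/-- If `phi x = 0` then `1 - zeta q` divides `x^k`. -/
lemma Sol.dvd_pow_of_phi {p k q : ℕ} (S : Sol d p k q) [hp : Fact p.Prime] {x : 𝓞 K}
    (hx : S.phi x = 0) : PP d K q ∣ x ^ k := by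
  obtain ⟨n, y, hy⟩ := S.exists_int x
  have h1 : x = n + PP d K q * y := by rw [← hy]; ring
  have h2 : (n : ZMod p) = 0 := by
    have := congrArg (S.phi (K := K)) h1
    rw [hx, map_add, map_mul, S.phi_PP, zero_mul, add_zero, map_intCast] at this
    exact this.symm
  have h3 : (p : ℤ) ∣ n := (ZMod.intCast_zmod_eq_zero_iff_dvd n p).mp h2
  obtain ⟨m, rfl⟩ := h3
  have h4 : PP d K q ∣ (((p : ℤ) * m : ℤ) : 𝓞 K) ^ k := by
    push_cast
    rw [mul_pow]
    refine dvd_mul_of_dvd_left ?_ _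
    have := S.dvd_pk (K := K) 1
    rwa [sg_one] at this
  have h5 : x - (((p : ℤ) * m : ℤ) : 𝓞 K) ∣ x ^ k - (((p : ℤ) * m : ℤ) : 𝓞 K) ^ k :=
    sub_dvd_pow_sub_pow _ _ _
  have h6 : PP d K q ∣ x ^ k - (((p : ℤ) * m : ℤ) : 𝓞 K) ^ k := by
    refine Dvd.dvd.trans ⟨y, hy⟩ h5
  have := dvd_add h6 h4
  rwa [sub_add_cancel] at this

end

end Pool.Agent.H26.NL
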