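import Pool.Agent.H26.NL.Jac

/-!
# Normalised Jacobi sums

`WW p k q A x`: `x * conj x = p` and `x^k` is the product of the `sigma_{1/t} (1 - zeta q)`,
`t` in `A`.
-/

set_option autoImplicit false

namespace Pool.Agent.H26.NL

open NumberField Polynomial

noncomputable section

variable {d : ℕ} [hd : Fact d.Prime] {K : Type} [Field K] [NumberField K]
  [IsCyclotomicExtension {d} ℚ K]

/-- A normalised element of weight one. -/
structure WW (p k q : ℕ) (A : Finset (ZMod d)ˣ) (x : 𝓞 K) : Prop where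
  norm : x * sg (-1 : (ZMod d)ˣ) x = (p : 𝓞 K)
  pow : x ^ k = ∏ t ∈ A, sg t⁻¹ (PP d K q)

/-- An algebraic integer `u` with `u * conj u = 1` is a root of unity of order dividing `2d`. -/
lemma kronecker (hodd : Odd d) {u : 𝓞 K} (hu : u * sg (-1 : (ZMod d)ˣ) u = 1) :
    u ^ (2 * d) = 1 := by
  obtain ⟨n, hn, h1⟩ := NumberField.Embeddings.pow_eq_one_of_norm_eq_one K ℂ
    (x := algebraMap (𝓞 K) K u) u.2 (by
      intro φ
      have h2 := norm_sq_emb (d := d) (φ.comp (algebraMap (𝓞 K) K)) u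
      rw [hu, map_one] at h2
      have h3 : ‖(φ.comp (algebraMap (𝓞 K) K)) u‖ ^ 2 = (1 : ℝ) := by exact_mod_cast h2
      have h4 : ‖(φ.comp (algebraMap (𝓞 K) K)) u‖ = 1 :=
        (pow_eq_one_iff_of_nonneg (norm_nonneg _) two_ne_zero).mp h3
      exact h4)
  have h5 : IsOfFinOrder (algebraMap (𝓞 K) K u) := isOfFinOrder_iff_pow_eq_one.mpr ⟨n, hn, h1⟩
  obtain ⟨r, hr⟩ := (zetaK_spec d K).exists_neg_pow_of_isOfFinOrder hodd h5
  apply FaithfulSMul.algebraMap_injective (𝓞 K) K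
  rw [map_pow, hr, map_one, ← pow_mul, show r * (2 * d) = 2 * (d * r) by ring, pow_mul, neg_sq,
    ← pow_mul, show 2 * (d * r) = d * (2 * r) by ring, pow_mul, (zetaK_spec d K).pow_eq_one,
    one_pow]

lemma PP_ne_zero {p k q : ℕ} (S : Sol d p k q) (t : (ZMod d)ˣ) : sg t (PP d K q) ≠ 0 := by
  intro h
  have := S.dvd_pk (K := K) t
  rw [h, zero_dvd_iff] at this
  have hp0 : (p : 𝓞 K) ≠ 0 := Nat.cast_ne_zero.mpr S.hp.ne_zero
  exact pow_ne_zero k hp0 this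

/-- Normalisation. -/
lemma Sol.normalise {p k q : ℕ} (S : Sol d p k q) [hp : Fact p.Prime]
    (hk : Nat.Coprime k (2 * d)) {A : Finset (ZMod d)ˣ} (hA : ∀ t, -t ∈ A ↔ t ∉ A)
    {J : 𝓞 K} (hJ : J * sg (-1 : (ZMod d)ˣ) J = (p : 𝓞 K))
    (hz : ∀ t ∈ A, S.phi (sg t J) = 0) : ∃ x : 𝓞 K, WW p k q A x := by
  have hodd : Odd d := by
    rcases hd.out.eq_two_or_odd' with h | h
    · have := S.hd2; omega
    · exact h
  set c : 𝓞 K →+* 𝓞 K := sg (-1 : (ZMod d)ˣ) with hc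
  -- divisibility
  have h1 : ∀ t ∈ A, sg t⁻¹ (PP d K q) ∣ J ^ k := by
    intro t ht
    have := map_dvd (sg (K := K) t⁻¹) (S.dvd_pow_of_phi (hz t ht))
    rwa [map_pow, ← sg_mul, inv_mul_cancel, sg_one] at this
  have h2 : ∀ t ∈ Aᶜ, sg t⁻¹ (PP d K q) ∣ (c J) ^ k := by
    intro t ht
    rw [Finset.mem_compl] at ht
    have h3 := hz _ ((hA t).mpr ht)
    have := map_dvd (sg (K := K) t⁻¹) (S.dvd_pow_of_phi h3)
    rw [map_pow, ← sg_mul] at this
    have h4 : t⁻¹ * -t = -1 := by simp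
    rwa [h4] at this
  have hcop : ∀ B : Finset (ZMod d)ˣ, Set.Pairwise (↑B : Set (ZMod d)ˣ)
      (Function.onFun IsCoprime fun t => sg t⁻¹ (PP d K q)) := by
    intro B s _ t _ hst
    exact S.coprime_PP (fun h => hst (inv_injective h))
  obtain ⟨u, hu⟩ := Finset.prod_dvd_of_coprime (hcop A) h1
  obtain ⟨v, hv⟩ := Finset.prod_dvd_of_coprime (hcop Aᶜ) h2
  have hp0 : (p : 𝓞 K) ≠ 0 := Nat.cast_ne_zero.mpr S.hp.ne_zero
  have hall : (∏ t ∈ A, sg t⁻¹ (PP d K q)) * ∏ t ∈ Aᶜ, sg t⁻¹ (PP d K q) = (p : 𝓞 K) ^ k := by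
    rw [Finset.prod_mul_prod_compl, ← S.prod_eq (K := K)]
    exact Equiv.prod_comp (Equiv.inv (ZMod d)ˣ) (fun t => sg t (PP d K q))
  have huv : u * v = 1 := by
    have h3 : (p : 𝓞 K) ^ k = (p : 𝓞 K) ^ k * (u * v) := by
      calc (p : 𝓞 K) ^ k = J ^ k * (c J) ^ k := by rw [← mul_pow, hJ]
        _ = ((∏ t ∈ A, sg t⁻¹ (PP d K q)) * u) * ((∏ t ∈ Aᶜ, sg t⁻¹ (PP d K q)) * v) := by
            rw [hu, hv]
        _ = ((∏ t ∈ A, sg t⁻¹ (PP d K q)) * ∏ t ∈ Aᶜ, sg t⁻¹ (PP d K q)) * (u * v) := by ring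
        _ = (p : 𝓞 K) ^ k * (u * v) := by rw [hall]
    have h4 := pow_ne_zero k hp0
    exact mul_left_cancel₀ h4 (by rw [← h3, mul_one])
  have hcv : c u = v := by
    have h3 : (c J) ^ k = (∏ t ∈ Aᶜ, sg t⁻¹ (PP d K q)) * c u := by
      rw [← map_pow, hu, map_mul, map_prod]
      congr 1
      refine Finset.prod_bij (fun t _ => -t) ?_ ?_ ?_ ?_
      · intro t ht
        rw [Finset.mem_compl]
        intro h
        exact ((hA t).mp h) ht
      · intro s _ t _ h; exact neg_injective h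
      · intro b hb
        rw [Finset.mem_compl] at hb
        exact ⟨-b, (hA b).mpr hb, neg_neg b⟩
      · intro t _
        rw [hc, ← sg_mul]
        congr 2
        rw [inv_neg, neg_one_mul]
    rw [hv] at h3
    have h5 : (∏ t ∈ Aᶜ, sg t⁻¹ (PP d K q)) ≠ 0 :=
      Finset.prod_ne_zero_iff.mpr fun t _ => PP_ne_zero S _
    exact (mul_left_cancel₀ h5 h3).symm
  have hucu : u * c u = 1 := by rw [hcv, huv]
  have hroot := kronecker hodd hucu
  obtain ⟨m, -, hm⟩ := Nat.exists_mul_mod_eq_one_of_coprime hk (by have := S.hd2; omega)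
  have hη : (u ^ m) ^ k = u := by
    rw [← pow_mul, mul_comm m k, ← Nat.div_add_mod (k * m) (2 * d), hm, pow_add, pow_mul, hroot,
      one_pow, one_mul, pow_one]
  have hcc : ∀ y : 𝓞 K, c (c y) = y := by
    intro y
    rw [hc, ← sg_mul]
    have : (-1 : (ZMod d)ˣ) * -1 = 1 := by simp
    rw [this, sg_one]
  refine ⟨J * c (u ^ m), ?_, ?_⟩
  · rw [← hc, map_mul, hcc]
    have h6 : u ^ m * c (u ^ m) = 1 := by rw [map_pow, ← mul_pow, hucu, one_pow]
    calc J * c (u ^ m) * (c J * u ^ m) = (J * c J) * (u ^ m * c (u ^ m)) := by ring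
      _ = (p : 𝓞 K) := by rw [hJ, h6, mul_one]
  · rw [mul_pow, ← map_pow, hη, hu, mul_assoc, hucu, mul_one]

/-- The complement property of `AA`. -/
lemma AA_neg {a b : ℕ} (ha : ¬ d ∣ a) (hb : ¬ d ∣ b) (hab : ¬ d ∣ a + b) (t : (ZMod d)ˣ) :
    -t ∈ AA d a b ↔ t ∉ AA d a b := by
  have hz : ∀ c : ℕ, ¬ d ∣ c → ((c : ZMod d) * t) ≠ 0 := by
    intro c hc h
    rcases mul_eq_zero.mp h with h | h
    · exact hc ((ZMod.natCast_eq_zero_iff _ _).mp h)
    · exact t.ne_zero h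
  have h1 := hz a ha
  have h2 := hz b hb
  have h3 := hz _ hab
  have h4 : ∀ y : ZMod d, y ≠ 0 → (-y).val = d - y.val := by
    intro y hy
    rw [ZMod.neg_val, if_neg hy]
  have h5 : ((a : ZMod d) * t).val + ((b : ZMod d) * t).val ≠ d := by
    intro h
    apply h3
    have : ((((a : ZMod d) * t).val + ((b : ZMod d) * t).val : ℕ) : ZMod d) = 0 := by
      rw [h]; simp
    rw [Nat.cast_add, ZMod.natCast_zmod_val, ZMod.natCast_zmod_val] at this
    push_cast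
    rw [add_mul]
    exact this
  simp only [AA, Finset.mem_filter, Finset.mem_univ, true_and, Units.val_neg, mul_neg]
  rw [h4 _ h1, h4 _ h2]
  have h6 := ZMod.val_lt ((a : ZMod d) * (t : ZMod d))
  have h7 := ZMod.val_lt ((b : ZMod d) * (t : ZMod d))
  omega

/-- Existence of the normalised Jacobi sums. -/
lemma Sol.exists_WW {p k q : ℕ} (S : Sol d p k q)
    (hk : Nat.Coprime k (2 * d)) {a b : ℕ} (ha : ¬ d ∣ a) (hb : ¬ d ∣ b) (hab : ¬ d ∣ a + b) :
    ∃ x : 𝓞 K, WW p k q (AA d a b) x := by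
  have hp : Fact p.Prime := ⟨S.hp⟩
  obtain ⟨χ, h1, h2, h3⟩ := S.exists_char (K := K)
  refine S.normalise hk (AA_neg ha hb hab) (jac_norm h2 h3 ha hb hab) ?_
  intro t ht
  apply S.phi_jac h1 h2 ha hb
  simpa [AA] using ht

/-- membership in the prime ideals -/
lemma WW.phi_iff {p k q : ℕ} (S : Sol d p k q) [hp : Fact p.Prime] {A : Finset (ZMod d)ˣ}
    {x : 𝓞 K} (hx : WW p k q A x) (t : (ZMod d)ˣ) : S.phi (sg t x) = 0 ↔ t ∈ A := by
  have hk := S.hk
  have h1 : (S.phi (sg t x)) ^ k = ∏ s ∈ A, S.phi (sg (t * s⁻¹) (PP d K q)) := by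
    rw [← map_pow, ← map_pow, hx.pow, map_prod, map_prod]
    refine Finset.prod_congr rfl fun s _ => ?_
    rw [← sg_mul]
  constructor
  · intro h
    rw [h, zero_pow (by omega)] at h1
    obtain ⟨s, hs, h2⟩ := Finset.prod_eq_zero_iff.mp h1.symm
    have := S.phi_sg_PP _ h2
    rw [mul_inv_eq_one] at this
    rwa [this]
  · intro ht
    have h2 : ∏ s ∈ A, S.phi (sg (t * s⁻¹) (PP d K q)) = 0 := by
      refine Finset.prod_eq_zero ht ?_
      rw [mul_inv_cancel, sg_one, S.phi_PP]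
    rw [h2] at h1
    exact pow_eq_zero_iff (by omega) |>.mp h1

/-- `x^k = 1 mod q`. -/
lemma WW.pow_sub_one {p k q : ℕ} {A : Finset (ZMod d)ˣ}
    {x : 𝓞 K} (hx : WW p k q A x) : (q : 𝓞 K) ∣ x ^ k - 1 := by
  rw [hx.pow]
  have : ∀ B : Finset (ZMod d)ˣ, (q : 𝓞 K) ∣ ∏ t ∈ B, sg t⁻¹ (PP d K q) - 1 := by
    intro B
    induction B using Finset.induction_on with
    | empty => simp
    | insert s B hs ih =>
      rw [Finset.prod_insert hs]
      have h1 : sg s⁻¹ (PP d K q) * ∏ t ∈ B, sg t⁻¹ (PP d K q) - 1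
          = (∏ t ∈ B, sg t⁻¹ (PP d K q) - 1)
            - (q : 𝓞 K) * (zt d K ^ ((s⁻¹ : (ZMod d)ˣ) : ZMod d).val
              * ∏ t ∈ B, sg t⁻¹ (PP d K q)) := by
        rw [sg_PP]; ring
      rw [h1]
      exact dvd_sub ih (dvd_mul_right _ _)
  exact this A

end

end Pool.Agent.H26.NL
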